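import Pool.Agent.LibNW69.Defs
import Pool.Agent.LibNZ69.A1

set_option autoImplicit false

namespace Pool.Agent.LibNW69

open Pool.Agent.LibNZ69

/-! Row A (SHORT). From LibNZ69.A1. -/

theorem dt_split (e : ℤ × ℤ) (u w : List ℕ) : dt (row u (0, 1)) (vec e w) = (vec e (u ++ w)).2 := by
  rw [dt_row, vec, vec, act_append]
  simp [dt]

theorem vec_append (e : ℤ × ℤ) (u w : List ℕ) : vec e (u ++ w) = act u (vec e w) :=
  act_append u w e

theorem coprime_vec (e : ℤ × ℤ) (h : IsCoprime e.1 e.2) (w : List ℕ) :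
    IsCoprime (vec e w).1 (vec e w).2 :=
  coprime_act w e h

end Pool.Agent.LibNW69
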