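import Pool.Agent.LibNW69.W

set_option autoImplicit false

namespace Pool.Agent.LibNW69

open Pool.Agent.LibNZ69

/-- Row C1 (MEDIUM). The same as LibNZ69/C1.lean (finished), with the threshold `8 (nm z_i)^2 < q`
replaced by `8 a^2 (nm z_i)^2 < q`. (If `8 a^2 (nm z_n)^2 < q` then
`|z_n ∧ e| ≤ 2 a^2 nm z_n < q` as `nm e = e.2 ≤ a^2`, so `z_n ∧ e = 0`, `z_n = k e`,
`z = k vec e w`, and `k = ± 1` by `hind`.) -/
theorem thresh {a : ℕ} {σ : ℝ} {e : ℤ × ℤ} {S : Finset (List ℕ)} {l B : ℕ}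
    (hE : Ens a σ e S l B) (n q : ℕ) (Y : ℝ)
    (h8 : 8 * (a : ℝ) ^ 2 * Y ^ 2 < q) (w : List ℕ) (hw : w ∈ wd S n) (z : ℤ × ℤ) (hz : z ≠ 0)
    (hzY : (nm z : ℝ) ≤ Y) (hzq : (q : ℤ) ∣ wdg z (vec e w))
    (hind : ∀ g : ℤ × ℤ, (q : ℤ) ∣ wdg g (vec e w) → ∀ k : ℤ, z = k • g → k = 1 ∨ k = -1) :
    (nm (vec e w) : ℝ) ≤ Y ∨ ∃ i, i < n ∧
      8 * (a : ℤ) ^ 2 * (nm (acti (w.take (i * l)) z)) ^ 2 < (q : ℤ) ∧
      (q : ℝ) ≤ 8 * (a : ℝ) ^ 2 * (((a : ℝ) * (B : ℝ)) ^ (i + 1) * Y) ^ 2 ∧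
      (q : ℝ) ≤ 8 * (a : ℝ) ^ 2 * ((a : ℝ) * (B : ℝ) * nm (acti (w.take (i * l)) z)) ^ 2 := by
  classical
  have haZ : (1 : ℤ) ≤ (a : ℤ) ^ 2 := by
    have h4 : (4 : ℤ) ≤ (a : ℤ) := by exact_mod_cast hE.a4
    nlinarith
  have haR : (0 : ℝ) ≤ 8 * (a : ℝ) ^ 2 := by positivity
  by_cases hn : 8 * (a : ℤ) ^ 2 * (nm (acti w z)) ^ 2 < (q : ℤ)
  · left
    have hz0 : acti w z ≠ 0 := by
      intro h0
      apply hz
      have h1 := act_acti w z
      rw [h0] at h1
      rw [← h1]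
      have h2 := act_smul w 0 (0 : ℤ × ℤ)
      simpa using h2
    have h1 := one_le_nm _ hz0
    have hd : (q : ℤ) ∣ wdg (acti w z) e := (dvd_wdg_acti (q : ℤ) w z e).2 hzq
    have hne : nm e ≤ (a : ℤ) ^ 2 := by
      rw [(nm_good a e hE.good).2]
      exact hE.ele
    have hlt : |wdg (acti w z) e| < (q : ℤ) := by
      have h3 := abs_wdg_le (acti w z) e
      have h4 : nm (acti w z) * nm e ≤ nm (acti w z) * (a : ℤ) ^ 2 :=
        mul_le_mul_of_nonneg_left hne (by linarith)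
      have h5 : nm (acti w z) * (a : ℤ) ^ 2 ≤ (a : ℤ) ^ 2 * (nm (acti w z)) ^ 2 := by
        have h6 : nm (acti w z) ≤ (nm (acti w z)) ^ 2 := by nlinarith
        calc nm (acti w z) * (a : ℤ) ^ 2 = (a : ℤ) ^ 2 * nm (acti w z) := by ring
          _ ≤ (a : ℤ) ^ 2 * (nm (acti w z)) ^ 2 := mul_le_mul_of_nonneg_left h6 (by positivity)
      have h7 : (0 : ℤ) ≤ (a : ℤ) ^ 2 * (nm (acti w z)) ^ 2 := by positivity
      linarith
    have h0 : wdg (acti w z) e = 0 := Int.eq_zero_of_abs_lt_dvd hd hlt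
    have h0' : wdg e (acti w z) = 0 := by
      unfold wdg at h0 ⊢
      linarith
    obtain ⟨k, hk⟩ := parallel e (acti w z) hE.cop h0'
    have hzk : z = k • vec e w := by
      have h4 := act_acti w z
      rw [hk, act_smul] at h4
      exact h4.symm
    have hself : (q : ℤ) ∣ wdg (vec e w) (vec e w) := by
      have : wdg (vec e w) (vec e w) = 0 := by
        unfold wdg
        ring
      rw [this]
      exact dvd_zero _
    have hk1 := hind (vec e w) hself k hzk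
    have habs : |k| = 1 := by
      rcases hk1 with h | h <;> simp [h]
    have hnm : nm z = nm (vec e w) := by
      rw [hzk, nm_smul, habs, one_mul]
    rw [← hnm]
    exact hzY
  · right
    have hlen := wd_len hE hw
    have htn : w.take (n * l) = w := by
      rw [← hlen]
      exact List.take_length
    have hex : ∃ i, ¬ 8 * (a : ℤ) ^ 2 * (nm (acti (w.take (i * l)) z)) ^ 2 < (q : ℤ) :=
      ⟨n, by rwa [htn]⟩
    obtain ⟨j, hj, hjmin⟩ : ∃ j, ¬ 8 * (a : ℤ) ^ 2 * (nm (acti (w.take (j * l)) z)) ^ 2 < (q : ℤ) ∧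
        ∀ i, i < j → 8 * (a : ℤ) ^ 2 * (nm (acti (w.take (i * l)) z)) ^ 2 < (q : ℤ) :=
      ⟨Nat.find hex, Nat.find_spec hex, fun i hi => not_not.1 (Nat.find_min hex hi)⟩
    have hjn : j ≤ n := by
      by_contra hlt
      push Not at hlt
      have := hjmin n hlt
      rw [htn] at this
      exact hn this
    have hj0 : j ≠ 0 := by
      intro h0
      rw [h0] at hj
      apply hj
      have e1 : acti (w.take (0 * l)) z = z := by simp [acti]
      rw [e1]
      have hY : (0 : ℝ) ≤ nm z := by exact_mod_cast nm_nonneg z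
      have hsq : (nm z : ℝ) ^ 2 ≤ Y ^ 2 := pow_le_pow_left₀ hY hzY 2
      have hm := mul_le_mul_of_nonneg_left hsq haR
      have : (8 * (a : ℝ) ^ 2 * (nm z : ℝ) ^ 2) < (q : ℝ) := by linarith
      exact_mod_cast this
    obtain ⟨i, rfl⟩ : ∃ i, j = i + 1 := ⟨j - 1, by omega⟩
    have hw1 : w ∈ wd S ((i + 1) + (n - (i + 1))) := by
      rwa [show (i + 1) + (n - (i + 1)) = n by omega]
    have ht := (wd_split hE hw1).1
    have h6 : (q : ℤ) ≤ 8 * (a : ℤ) ^ 2 * (nm (acti (w.take ((i + 1) * l)) z)) ^ 2 :=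
      not_lt.1 hj
    have h9 : (0 : ℝ) ≤ nm (acti (w.take ((i + 1) * l)) z) := by
      exact_mod_cast nm_nonneg _
    have h10 : (q : ℝ) ≤ 8 * (a : ℝ) ^ 2 * (nm (acti (w.take ((i + 1) * l)) z) : ℝ) ^ 2 := by
      exact_mod_cast h6
    refine ⟨i, by omega, hjmin i (by omega), ?_, ?_⟩
    · -- first bound
      have h5 := nm_le_act_wd hE ht (acti (w.take ((i + 1) * l)) z)
      rw [act_acti] at h5
      have h7 : (nm (acti (w.take ((i + 1) * l)) z) : ℝ) ≤
          ((a : ℝ) * (B : ℝ)) ^ (i + 1) * nm z := by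
        exact_mod_cast h5
      have h8' : (nm (acti (w.take ((i + 1) * l)) z) : ℝ) ≤ ((a : ℝ) * (B : ℝ)) ^ (i + 1) * Y :=
        h7.trans (mul_le_mul_of_nonneg_left hzY (by positivity))
      have h11 := mul_le_mul_of_nonneg_left (pow_le_pow_left₀ h9 h8' 2) haR
      linarith
    · -- second bound
      obtain ⟨h1, h2, h3⟩ := wd_split hE ht
      have htt : (w.take ((i + 1) * l)).take (i * l) = w.take (i * l) := by
        rw [List.take_take, min_eq_left (Nat.mul_le_mul_right l (Nat.le_succ i))]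
      rw [htt] at h3
      rw [wd_one] at h2
      set b := (w.take ((i + 1) * l)).drop (i * l) with hbdef
      have h5 : acti (w.take ((i + 1) * l)) z = acti b (acti (w.take (i * l)) z) := by
        rw [← acti_append, h3]
      have h4 := nm_le_act hE h2 (acti b (acti (w.take (i * l)) z))
      rw [act_acti, ← h5] at h4
      have h7 : (nm (acti (w.take ((i + 1) * l)) z) : ℝ) ≤
          (a : ℝ) * (B : ℝ) * nm (acti (w.take (i * l)) z) := by
        exact_mod_cast h4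
      have h11 := mul_le_mul_of_nonneg_left (pow_le_pow_left₀ h9 h7 2) haR
      linarith

end Pool.Agent.LibNW69
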