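import Pool.Agent.LibNW69.P
import Pool.Agent.LibNW69.C1
import Pool.Agent.LibNW69.A
import Pool.Agent.LibNZ69.C2

set_option autoImplicit false

namespace Pool.Agent.LibNW69

open Pool.Agent.LibNZ69

private def C3_ind (q : ℕ) (v z : ℤ × ℤ) : Prop :=
  ∀ g : ℤ × ℤ, (q : ℤ) ∣ wdg g v → ∀ k : ℤ, z = k • g → k = 1 ∨ k = -1

private theorem C3_mul_one {g : ℤ × ℤ} (hg : g ≠ 0) {m : ℤ} (h : g = m • g) : m = 1 := by
  have h1 : g.1 = m * g.1 := by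
    have := congrArg Prod.fst h
    simpa using this
  have h2 : g.2 = m * g.2 := by
    have := congrArg Prod.snd h
    simpa using this
  by_contra hm
  have hm' : m - 1 ≠ 0 := sub_ne_zero.2 hm
  have h3 : (m - 1) * g.1 = 0 := by linear_combination -h1
  have h4 : (m - 1) * g.2 = 0 := by linear_combination -h2
  have h5 : g.1 = 0 := (mul_eq_zero.1 h3).resolve_left hm'
  have h6 : g.2 = 0 := (mul_eq_zero.1 h4).resolve_left hm'
  exact hg (Prod.ext h5 h6)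

private theorem C3_exists (q : ℕ) (v z : ℤ × ℤ) (Y : ℝ) (hz : z ≠ 0) (hzY : (nm z : ℝ) ≤ Y)
    (h : (q : ℤ) ∣ wdg z v) :
    ∃ g : ℤ × ℤ, g ≠ 0 ∧ (nm g : ℝ) ≤ Y ∧ (q : ℤ) ∣ wdg g v ∧ C3_ind q v g := by
  obtain ⟨g, hg, hgq, ⟨m, hm⟩, hgen⟩ := line_gen (q : ℤ) v z hz h
  refine ⟨g, hg, ?_, hgq, ?_⟩
  · have hm0 : m ≠ 0 := by
      rintro rfl
      exact hz (by rw [hm, zero_smul])
    have h1 : nm g ≤ nm z := by
      rw [hm, nm_smul]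
      have h2 : 1 ≤ |m| := Int.one_le_abs hm0
      have h3 := nm_nonneg g
      nlinarith
    exact (Int.cast_le.2 h1).trans hzY
  · intro g' hg' k hk
    have hw : wdg z g' = 0 := by
      rw [hm, hk]
      unfold wdg
      simp only [Prod.smul_fst, Prod.smul_snd, smul_eq_mul]
      ring
    obtain ⟨k', hk'⟩ := hgen g' hw hg'
    have h1 : g = (k * k') • g := by
      rw [mul_smul, ← hk', ← hk]
    have h2 := C3_mul_one hg h1
    rcases Int.eq_one_or_neg_one_of_mul_eq_one h2 with h3 | h3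
    · exact Or.inl h3
    · exact Or.inr h3

private def C3_P (a : ℕ) (e : ℤ × ℤ) (l B q : ℕ) (Y : ℝ) (i : ℕ) (w : List ℕ) : Prop :=
  ∃ z : ℤ × ℤ, z ≠ 0 ∧ (nm z : ℝ) ≤ Y ∧ (q : ℤ) ∣ wdg z (vec e w) ∧ C3_ind q (vec e w) z ∧
    8 * (a : ℤ) ^ 2 * (nm (acti (w.take (i * l)) z)) ^ 2 < (q : ℤ) ∧
    (q : ℝ) ≤ 8 * (a : ℝ) ^ 2 * (((a : ℝ) * (B : ℝ)) ^ (i + 1) * Y) ^ 2 ∧
    (q : ℝ) ≤ 8 * (a : ℝ) ^ 2 * ((a : ℝ) * (B : ℝ) * nm (acti (w.take (i * l)) z)) ^ 2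

private theorem C3_dich {a : ℕ} {σ : ℝ} {e : ℤ × ℤ} {S : Finset (List ℕ)} {l B : ℕ}
    (hE : Ens a σ e S l B) (n q : ℕ) (Y : ℝ)
    (h8 : 8 * (a : ℝ) ^ 2 * Y ^ 2 < q) (w : List ℕ) (hw : w ∈ wd S n)
    (h : ∃ z : ℤ × ℤ, z ≠ 0 ∧ (nm z : ℝ) ≤ Y ∧ (q : ℤ) ∣ wdg z (vec e w)) :
    (nm (vec e w) : ℝ) ≤ Y ∨ ∃ i, i < n ∧ C3_P a e l B q Y i w := by
  obtain ⟨z, hz, hzY, hzq⟩ := h
  obtain ⟨g, hg, hgY, hgq, hind⟩ := C3_exists q (vec e w) z Y hz hzY hzq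
  rcases thresh hE n q Y h8 w hw g hg hgY hgq hind with h1 | ⟨i, hi, h1, h2, h3⟩
  · exact Or.inl h1
  · exact Or.inr ⟨i, hi, g, hg, hgY, hgq, hind, h1, h2, h3⟩

/-- the vector of the rest word -/
private theorem C3_rest {a : ℕ} {σ : ℝ} {e : ℤ × ℤ} {S : Finset (List ℕ)} {l B : ℕ}
    (hE : Ens a σ e S l B) {q : ℕ} {Y : ℝ} {i : ℕ}
    {p r : List ℕ} (hp : p ∈ wd S i) (h : C3_P a e l B q Y i (p ++ r)) :
    ∃ x : ℤ × ℤ, x ≠ 0 ∧ (nm (act p x) : ℝ) ≤ Y ∧ (q : ℤ) ∣ wdg x (vec e r) ∧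
      C3_ind q (vec e r) x ∧
      8 * (nm x) ^ 2 < (q : ℤ) ∧
      (q : ℝ) ≤ 8 * (a : ℝ) ^ 2 * (((a : ℝ) * (B : ℝ)) ^ (i + 1) * Y) ^ 2 ∧
      (q : ℝ) ≤ 8 * (a : ℝ) ^ 2 * ((a : ℝ) * (B : ℝ) * nm x) ^ 2 := by
  obtain ⟨z, hz, hzY, hzq, hind, h1, h2, h3⟩ := h
  have htake : (p ++ r).take (i * l) = p := by
    rw [← wd_len hE hp]
    exact List.take_left
  rw [htake] at h1 h3
  have hvec : vec e (p ++ r) = act p (vec e r) := by
    unfold vec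
    exact act_append p r e
  have ha1 : (1 : ℤ) ≤ (a : ℤ) ^ 2 := by
    have h4 : (4 : ℤ) ≤ (a : ℤ) := by exact_mod_cast hE.a4
    nlinarith
  refine ⟨acti p z, ?_, ?_, ?_, ?_, ?_, h2, h3⟩
  · intro h0
    apply hz
    have h4 := act_acti p z
    rw [h0] at h4
    rw [← h4]
    have h5 := act_smul p 0 (0 : ℤ × ℤ)
    rw [zero_smul, zero_smul] at h5
    exact h5
  · rw [act_acti]
    exact hzY
  · rw [dvd_wdg_acti, ← hvec]
    exact hzq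
  · intro g hg k hk
    refine hind (act p g) ?_ k ?_
    · rw [hvec, dvd_wdg_act]
      exact hg
    · rw [← act_smul, ← hk, act_acti]
  · refine lt_of_le_of_lt ?_ h1
    have h4 := sq_nonneg (nm (acti p z))
    nlinarith

private theorem C3_arith {a B i : ℕ} (ha1 : 1 ≤ a) (hB : 1 ≤ B) {q : ℕ} (hq : 0 < q) {Y x : ℝ}
    (hY : 1 ≤ Y) (hx : 0 < x)
    (h2 : (q : ℝ) ≤ 8 * (a : ℝ) ^ 2 * (((a : ℝ) * (B : ℝ)) ^ (i + 1) * Y) ^ 2)
    (h3 : (q : ℝ) ≤ 8 * (a : ℝ) ^ 2 * ((a : ℝ) * (B : ℝ) * x) ^ 2) :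
    (B : ℝ) ^ i * Y / x ≤
      8 * (a : ℝ) ^ (i + 4) * (B : ℝ) ^ 2 * ((B : ℝ) ^ i) ^ 2 * (Y ^ 2 / q) := by
  have ha' : (0 : ℝ) < a := by exact_mod_cast ha1
  have hB' : (0 : ℝ) < B := by exact_mod_cast hB
  have hq' : (0 : ℝ) < q := by exact_mod_cast hq
  set A : ℝ := 8 * (a : ℝ) ^ 2 with hA
  set u : ℝ := ((a : ℝ) * (B : ℝ)) ^ (i + 1) * Y with hu
  set v : ℝ := (a : ℝ) * (B : ℝ) * x with hv
  have hA0 : 0 < A := by positivity
  have hu0 : 0 < u := by positivity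
  have hv0 : 0 < v := by positivity
  have h4 : (q : ℝ) ≤ A * (u * v) := by
    by_contra h
    have h5 : A * (u * v) < q := not_le.1 h
    have h6 : 0 < A * (u * v) := by positivity
    have h7 : (A * (u * v)) * (A * (u * v)) < q * q := by nlinarith
    have h8 : (q : ℝ) * q ≤ (A * u ^ 2) * (A * v ^ 2) :=
      mul_le_mul h2 h3 hq'.le (by positivity)
    nlinarith
  rw [div_le_iff₀ hx]
  have h9 : 8 * (a : ℝ) ^ (i + 4) * (B : ℝ) ^ 2 * ((B : ℝ) ^ i) ^ 2 * (Y ^ 2 / q) * x =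
      ((B : ℝ) ^ i * Y) * (A * (u * v)) / q := by
    rw [hu, hv, hA]
    field_simp
    ring
  rw [h9, le_div_iff₀ hq']
  exact mul_le_mul_of_nonneg_left h4 (by positivity)

open Classical in
private theorem C3_fiber {a : ℕ} {σ : ℝ} {e : ℤ × ℤ} {S : Finset (List ℕ)} {l B : ℕ}
    (hE : Ens a σ e S l B) (q : ℕ) (Y : ℝ)
    (hY : 1 ≤ Y) (hq : 0 < q) (i : ℕ) (r : List ℕ) :
    (((wd S i).filter (fun p => C3_P a e l B q Y i (p ++ r))).card : ℝ) ≤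
      (a : ℝ) ^ (2 * i) * (B : ℝ) ^ 4 * (8 * (a : ℝ) ^ (i + 4) * (B : ℝ) ^ 2 *
        ((B : ℝ) ^ i) ^ 2 * (Y ^ 2 / q)) ^ (σ / 2) := by
  have ha4 := hE.a4
  have ha1 : 1 ≤ a := by omega
  have hB : 1 ≤ B := le_trans (Nat.one_le_pow _ _ (by omega)) hE.big
  by_cases hex : ∃ p ∈ wd S i, C3_P a e l B q Y i (p ++ r)
  · obtain ⟨p0, hp0, hP0⟩ := hex
    obtain ⟨x0, hx0, -, hxq0, hind0, h10, h20, h30⟩ := C3_rest hE hp0 hP0
    have hsub : (wd S i).filter (fun p => C3_P a e l B q Y i (p ++ r)) ⊆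
        (wd S i).filter (fun p => (nm (act p x0) : ℝ) ≤ Y) := by
      intro p hp
      rw [Finset.mem_filter] at hp ⊢
      refine ⟨hp.1, ?_⟩
      obtain ⟨x, hx, hxY, hxq, hind, h1, h2, h3⟩ := C3_rest hE hp.1 hp.2
      rcases unique_pm q (vec e r) x0 x (coprime_vec e hE.cop r) hx0 hx hxq0 hxq h10 h1 hind0
        hind with h | h
      · rw [← h]
        exact hxY
      · have h4 : x0 = -x := by rw [h, neg_neg]
        rw [h4, act_neg, nm_neg]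
        exact hxY
    have hcard : (((wd S i).filter (fun p => C3_P a e l B q Y i (p ++ r))).card : ℝ) ≤
        (((wd S i).filter (fun p => (nm (act p x0) : ℝ) ≤ Y)).card : ℝ) := by
      exact_mod_cast Finset.card_le_card hsub
    refine hcard.trans ((countP hE i x0 hx0 Y (by linarith)).trans ?_)
    have hx : (0 : ℝ) < nm x0 := by
      have := one_le_nm x0 hx0
      exact_mod_cast (lt_of_lt_of_le Int.one_pos this)
    have hs : 0 ≤ σ / 2 := by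
      have := hE.s1
      linarith
    refine mul_le_mul_of_nonneg_left ?_ (by positivity)
    refine Real.rpow_le_rpow (by positivity) (C3_arith ha1 hB hq hY hx h20 h30) hs
  · have h0 : (wd S i).filter (fun p => C3_P a e l B q Y i (p ++ r)) = ∅ := by
      rw [Finset.filter_eq_empty_iff]
      intro p hp h
      exact hex ⟨p, hp, h⟩
    rw [h0, Finset.card_empty, Nat.cast_zero]
    positivity

open Classical in
private theorem C3_one {a : ℕ} {σ : ℝ} {e : ℤ × ℤ} {S : Finset (List ℕ)} {l B : ℕ}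
    (hE : Ens a σ e S l B) (n q : ℕ) (Y : ℝ)
    (hY : 1 ≤ Y) (hq : 0 < q) (i : ℕ) (hi : i < n) :
    (((wd S n).filter (fun w => C3_P a e l B q Y i w)).card : ℝ) ≤
      8 * (a : ℝ) ^ 4 * ((a : ℝ) ^ 3) ^ i * (B : ℝ) ^ 6 * ((B : ℝ) ^ n) ^ σ *
        (Y ^ 2 / q) ^ (σ / 2) := by
  have ha4 := hE.a4
  have hB : 1 ≤ B := le_trans (Nat.one_le_pow _ _ (by omega)) hE.big
  have ha1 : (1 : ℝ) ≤ a := by exact_mod_cast (by omega : 1 ≤ a)
  have ha' : (0 : ℝ) < a := by linarith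
  have hB1 : (1 : ℝ) ≤ B := by exact_mod_cast hB
  have hB' : (0 : ℝ) < B := by linarith
  have hq' : (0 : ℝ) < q := by exact_mod_cast hq
  have hs1 := hE.s1
  have hs2 := hE.s2
  obtain ⟨m, rfl⟩ : ∃ m, n = i + m := ⟨n - i, by omega⟩
  set X : ℝ := 8 * (a : ℝ) ^ (i + 4) * (B : ℝ) ^ 2 * ((B : ℝ) ^ i) ^ 2 * (Y ^ 2 / q) with hX
  have h1 : (((wd S (i + m)).filter (fun w => C3_P a e l B q Y i w)).card : ℝ) =
      ∑ r ∈ wd S m, (((wd S i).filter (fun p => C3_P a e l B q Y i (p ++ r))).card : ℝ) := by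
    rw [Finset.card_filter, Nat.cast_sum]
    rw [wd_sum hE i m (fun w => (((if C3_P a e l B q Y i w then 1 else 0 : ℕ)) : ℝ))]
    rw [Finset.sum_comm]
    refine Finset.sum_congr rfl (fun r _ => ?_)
    rw [Finset.card_filter, Nat.cast_sum]
  rw [h1]
  have h2 : ∑ r ∈ wd S m, (((wd S i).filter (fun p => C3_P a e l B q Y i (p ++ r))).card : ℝ) ≤
      ∑ r ∈ wd S m, (a : ℝ) ^ (2 * i) * (B : ℝ) ^ 4 * X ^ (σ / 2) :=
    Finset.sum_le_sum (fun r _ => C3_fiber hE q Y hY hq i r)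
  refine h2.trans ?_
  rw [Finset.sum_const, nsmul_eq_mul]
  have h3 := wd_card_le hE m
  have hX0 : 0 ≤ X := by positivity
  have h4 : ((wd S m).card : ℝ) * ((a : ℝ) ^ (2 * i) * (B : ℝ) ^ 4 * X ^ (σ / 2)) ≤
      ((B : ℝ) ^ m) ^ σ * ((a : ℝ) ^ (2 * i) * (B : ℝ) ^ 4 * X ^ (σ / 2)) :=
    mul_le_mul_of_nonneg_right h3 (by positivity)
  refine h4.trans ?_
  set c : ℝ := 8 * (a : ℝ) ^ (i + 4) * (B : ℝ) ^ 2 with hc
  have hc1 : 1 ≤ c := by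
    have h5 : (1 : ℝ) ≤ (a : ℝ) ^ (i + 4) := one_le_pow₀ ha1
    have h6 : (1 : ℝ) ≤ (B : ℝ) ^ 2 := one_le_pow₀ hB1
    rw [hc]
    nlinarith [mul_le_mul h5 h6 zero_le_one (by positivity)]
  have h5 : X ^ (σ / 2) = c ^ (σ / 2) * ((B : ℝ) ^ i) ^ σ * (Y ^ 2 / q) ^ (σ / 2) := by
    rw [hX, Real.mul_rpow (by positivity) (by positivity),
      Real.mul_rpow (by positivity) (by positivity)]
    congr 2
    rw [← Real.rpow_natCast ((B : ℝ) ^ i) 2, ← Real.rpow_mul (by positivity)]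
    congr 1
    push_cast
    ring
  have h6 : c ^ (σ / 2) ≤ c := by
    have := Real.rpow_le_rpow_of_exponent_le hc1 (by linarith : σ / 2 ≤ 1)
    rwa [Real.rpow_one] at this
  have h7 : ((B : ℝ) ^ (i + m)) ^ σ = ((B : ℝ) ^ i) ^ σ * ((B : ℝ) ^ m) ^ σ := by
    rw [pow_add, Real.mul_rpow (by positivity) (by positivity)]
  rw [h5, h7]
  have h8 : ((B : ℝ) ^ m) ^ σ * ((a : ℝ) ^ (2 * i) * (B : ℝ) ^ 4 * (c ^ (σ / 2) *
      ((B : ℝ) ^ i) ^ σ * (Y ^ 2 / q) ^ (σ / 2))) =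
      c ^ (σ / 2) * ((a : ℝ) ^ (2 * i) * (B : ℝ) ^ 4 * (((B : ℝ) ^ i) ^ σ *
      ((B : ℝ) ^ m) ^ σ) * (Y ^ 2 / q) ^ (σ / 2)) := by ring
  rw [h8]
  refine (mul_le_mul_of_nonneg_right h6 (by positivity)).trans (le_of_eq ?_)
  have h9 : ((a : ℝ) ^ 3) ^ i = (a : ℝ) ^ (2 * i) * (a : ℝ) ^ i := by
    rw [← pow_mul, ← pow_add]
    congr 1
    ring
  rw [hc, h9]
  ring

private theorem C3_geom (x : ℝ) (hx : 2 ≤ x) (n : ℕ) : ∑ i ∈ Finset.range n, x ^ i ≤ x ^ n := by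
  induction n with
  | zero => simp
  | succ n ih =>
    rw [Finset.sum_range_succ, pow_succ]
    have : (0 : ℝ) < x ^ n := by positivity
    nlinarith

open Classical in
/-- Row C3 (MEDIUM). The same as LibNZ69/C3.lean (finished) with other constants. For given `i` the
number of the words is at most
`card (wd S (n-i)) · 2 · a^(2i) B^4 (B^i Y / nm x)^(σ/2)` (`countP`), with
`nm x ≥ (q / (8 a^2))^(1/2) / (aB)`, and
`B^(-i) ≤ (8 a^2)^(1/2) a^(i+1) B Y / q^(1/2)` because `q ≤ 8 a^2 ((aB)^(i+1) Y)^2`; so it is at most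
`16 a^(3i+4) B^6 (B^n)^σ (Y^2/q)^(σ/2)`. Sum over `i < n`. The exceptional words exist only if
`B^n ≤ a^n Y` (`le_nm_vec`). -/
theorem countC {a : ℕ} {σ : ℝ} {e : ℤ × ℤ} {S : Finset (List ℕ)} {l B : ℕ}
    (hE : Ens a σ e S l B) (n q : ℕ) (Y : ℝ) (hY : 1 ≤ Y)
    (h8 : 8 * (a : ℝ) ^ 2 * Y ^ 2 < q) :
    (((wd S n).filter (fun w => ∃ z : ℤ × ℤ, z ≠ 0 ∧ (nm z : ℝ) ≤ Y ∧
      (q : ℤ) ∣ wdg z (vec e w))).card : ℝ) ≤
      (a : ℝ) ^ (20 * (n + 1)) * (B : ℝ) ^ 8 * ((B : ℝ) ^ n) ^ σ * (Y ^ 2 / q) ^ (σ / 2) +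
        (if (B : ℝ) ^ n ≤ (a : ℝ) ^ n * Y then ((B : ℝ) ^ n) ^ σ else 0) := by
  have ha4 := hE.a4
  have hB : 1 ≤ B := le_trans (Nat.one_le_pow _ _ (by omega)) hE.big
  have ha4' : (4 : ℝ) ≤ a := by exact_mod_cast ha4
  have ha1 : (1 : ℝ) ≤ a := by linarith
  have hB1 : (1 : ℝ) ≤ B := by exact_mod_cast hB
  have hq' : (0 : ℝ) < q := lt_of_le_of_lt (by positivity) h8
  have hq : 0 < q := by exact_mod_cast hq'
  set F := (wd S n).filter (fun w => ∃ z : ℤ × ℤ, z ≠ 0 ∧ (nm z : ℝ) ≤ Y ∧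
      (q : ℤ) ∣ wdg z (vec e w)) with hF
  set Ex := (wd S n).filter (fun w => (nm (vec e w) : ℝ) ≤ Y) with hEx
  set D : ℝ := (Y ^ 2 / q) ^ (σ / 2) with hD
  have hD0 : 0 ≤ D := by positivity
  have hsub : F ⊆ Ex ∪ (Finset.range n).biUnion
      (fun i => (wd S n).filter (fun w => C3_P a e l B q Y i w)) := by
    intro w hw
    rw [hF, Finset.mem_filter] at hw
    rw [Finset.mem_union]
    rcases C3_dich hE n q Y h8 w hw.1 hw.2 with h | ⟨i, hi, h⟩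
    · left
      rw [hEx, Finset.mem_filter]
      exact ⟨hw.1, h⟩
    · right
      rw [Finset.mem_biUnion]
      exact ⟨i, Finset.mem_range.2 hi, Finset.mem_filter.2 ⟨hw.1, h⟩⟩
  have h1 : (F.card : ℝ) ≤ (Ex.card : ℝ) + ∑ i ∈ Finset.range n,
      (((wd S n).filter (fun w => C3_P a e l B q Y i w)).card : ℝ) := by
    have h2 := (Finset.card_le_card hsub).trans ((Finset.card_union_le _ _).trans
      (Nat.add_le_add_left Finset.card_biUnion_le _))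
    exact_mod_cast h2
  have h2 : ∑ i ∈ Finset.range n,
      (((wd S n).filter (fun w => C3_P a e l B q Y i w)).card : ℝ) ≤
      (a : ℝ) ^ (20 * (n + 1)) * (B : ℝ) ^ 8 * ((B : ℝ) ^ n) ^ σ * D := by
    have h3 : ∑ i ∈ Finset.range n,
        (((wd S n).filter (fun w => C3_P a e l B q Y i w)).card : ℝ) ≤
        ∑ i ∈ Finset.range n, 8 * (a : ℝ) ^ 4 * ((a : ℝ) ^ 3) ^ i * (B : ℝ) ^ 6 *
          ((B : ℝ) ^ n) ^ σ * D :=
      Finset.sum_le_sum (fun i hi => C3_one hE n q Y hY hq i (Finset.mem_range.1 hi))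
    refine h3.trans ?_
    rw [← Finset.sum_mul, ← Finset.sum_mul, ← Finset.sum_mul, ← Finset.mul_sum]
    have hx2 : (2 : ℝ) ≤ (a : ℝ) ^ 3 := by
      have h5 : (1 : ℝ) ≤ (a : ℝ) ^ 2 := one_le_pow₀ ha1
      have h6 : (a : ℝ) ^ 3 = (a : ℝ) ^ 2 * a := by ring
      rw [h6]
      nlinarith
    have h4 : 8 * (a : ℝ) ^ 4 * ∑ i ∈ Finset.range n, ((a : ℝ) ^ 3) ^ i ≤
        (a : ℝ) ^ (20 * (n + 1)) := by
      have h5 := C3_geom ((a : ℝ) ^ 3) hx2 n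
      have h6 : (8 : ℝ) ≤ (a : ℝ) ^ 2 := by nlinarith
      have h7 : 8 * (a : ℝ) ^ 4 * ((a : ℝ) ^ 3) ^ n ≤
          (a : ℝ) ^ 2 * (a : ℝ) ^ 4 * ((a : ℝ) ^ 3) ^ n := by
        refine mul_le_mul_of_nonneg_right ?_ (by positivity)
        exact mul_le_mul_of_nonneg_right h6 (by positivity)
      have h8' : (a : ℝ) ^ 2 * (a : ℝ) ^ 4 * ((a : ℝ) ^ 3) ^ n = (a : ℝ) ^ (6 + 3 * n) := by
        rw [← pow_mul, ← pow_add, ← pow_add]
      have h9 : (a : ℝ) ^ (6 + 3 * n) ≤ (a : ℝ) ^ (20 * (n + 1)) :=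
        pow_le_pow_right₀ ha1 (by omega)
      calc 8 * (a : ℝ) ^ 4 * ∑ i ∈ Finset.range n, ((a : ℝ) ^ 3) ^ i
          ≤ 8 * (a : ℝ) ^ 4 * ((a : ℝ) ^ 3) ^ n :=
            mul_le_mul_of_nonneg_left h5 (by positivity)
        _ ≤ (a : ℝ) ^ 2 * (a : ℝ) ^ 4 * ((a : ℝ) ^ 3) ^ n := h7
        _ = (a : ℝ) ^ (6 + 3 * n) := h8'
        _ ≤ (a : ℝ) ^ (20 * (n + 1)) := h9
    have h5 : (B : ℝ) ^ 6 ≤ (B : ℝ) ^ 8 := pow_le_pow_right₀ hB1 (by norm_num)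
    have h6 : 8 * (a : ℝ) ^ 4 * (∑ i ∈ Finset.range n, ((a : ℝ) ^ 3) ^ i) * (B : ℝ) ^ 6 ≤
        (a : ℝ) ^ (20 * (n + 1)) * (B : ℝ) ^ 8 :=
      mul_le_mul h4 h5 (by positivity) (by positivity)
    exact mul_le_mul_of_nonneg_right (mul_le_mul_of_nonneg_right h6 (by positivity)) hD0
  have h3 : (Ex.card : ℝ) ≤
      (if (B : ℝ) ^ n ≤ (a : ℝ) ^ n * Y then ((B : ℝ) ^ n) ^ σ else 0) := by
    split_ifs with hc
    · refine le_trans ?_ (wd_card_le hE n)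
      exact_mod_cast Finset.card_le_card (Finset.filter_subset _ _)
    · have h4 : Ex = ∅ := by
        rw [hEx, Finset.filter_eq_empty_iff]
        intro w hw h
        apply hc
        have h5 := le_nm_vec hE hw
        have h6 : (B : ℝ) ^ n ≤ (a : ℝ) ^ n * (nm (vec e w) : ℝ) := by exact_mod_cast h5
        exact h6.trans (mul_le_mul_of_nonneg_left h (by positivity))
      rw [h4, Finset.card_empty, Nat.cast_zero]
  linarith

end Pool.Agent.LibNW69
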