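import Pool.Agent.LibNW69.SEP

set_option autoImplicit false

namespace Pool.Agent.LibNW69

open Pool.Agent.LibNZ69

/-! Row E2 (SHORT). The same as the last two theorems of LibNZ69/E2.lean, for a general alphabet
`A ⊆ [1, a)`: `2^(l/2) ≤ K(w) ≤ a^l` for `K(w) = (act w (0,1)).2` (two letters at least double it). -/

theorem mem_wd_letters (A : Finset ℕ) (l : ℕ) (w : List ℕ) :
    w ∈ wd (letters A) l ↔ w.length = l ∧ ∀ x ∈ w, x ∈ A := by
  induction l generalizing w with
  | zero =>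
    simp only [wd, Finset.mem_singleton]
    constructor
    · rintro rfl
      simp
    · rintro ⟨h, -⟩
      exact List.length_eq_zero_iff.mp h
  | succ n ih =>
    simp only [wd, Finset.mem_image₂, letters, Finset.mem_image]
    constructor
    · rintro ⟨b, ⟨x, hx, rfl⟩, w', hw', rfl⟩
      obtain ⟨h1, h2⟩ := (ih w').mp hw'
      refine ⟨by simp [h1], ?_⟩
      intro y hy
      rcases List.mem_cons.mp (by simpa using hy : y ∈ x :: w') with h | h
      · rw [h]; exact hx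
      · exact h2 y h
    · rintro ⟨h1, h2⟩
      cases w with
      | nil => simp at h1
      | cons x w' =>
        refine ⟨[x], ⟨x, h2 x (by simp), rfl⟩, w', (ih w').mpr ⟨by simpa using h1, ?_⟩, rfl⟩
        intro y hy
        exact h2 y (List.mem_cons_of_mem _ hy)

private theorem E2_inv (a : ℕ) (w : List ℕ) (hw : ∀ x ∈ w, 1 ≤ x ∧ x < a) :
    0 ≤ (act w (0, 1)).1 ∧ (act w (0, 1)).1 ≤ (act w (0, 1)).2 ∧ 1 ≤ (act w (0, 1)).2 ∧
      (act w (0, 1)).2 ≤ (a : ℤ) ^ w.length := by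
  induction w with
  | nil => simp [act]
  | cons x w ih =>
    obtain ⟨h1, h2, h3, h4⟩ := ih (fun y hy => hw y (List.mem_cons_of_mem _ hy))
    obtain ⟨hx1, hx2⟩ := hw x (by simp)
    have hx1' : (1 : ℤ) ≤ (x : ℤ) := by exact_mod_cast hx1
    have hx2' : (x : ℤ) + 1 ≤ (a : ℤ) := by exact_mod_cast hx2
    simp only [act, gl, List.length_cons]
    refine ⟨by linarith, ?_, ?_, ?_⟩
    · nlinarith
    · nlinarith
    · have e1 : (act w (0, 1)).1 + (x : ℤ) * (act w (0, 1)).2 ≤ (a : ℤ) * (act w (0, 1)).2 := by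
        nlinarith
      have e2 : (a : ℤ) * (act w (0, 1)).2 ≤ (a : ℤ) * (a : ℤ) ^ w.length :=
        mul_le_mul_of_nonneg_left h4 (by positivity)
      calc (act w (0, 1)).1 + (x : ℤ) * (act w (0, 1)).2
          ≤ (a : ℤ) * (a : ℤ) ^ w.length := le_trans e1 e2
        _ = (a : ℤ) ^ (w.length + 1) := by ring

private theorem E2_low (a : ℕ) : ∀ w : List ℕ, (∀ x ∈ w, 1 ≤ x ∧ x < a) →
    (2 : ℤ) ^ (w.length / 2) ≤ (act w (0, 1)).2
  | [], _ => by simp [act]
  | [x], h => by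
    have := (E2_inv a [x] h).2.2.1
    simpa using this
  | x :: y :: w, h => by
    have hw : ∀ z ∈ w, 1 ≤ z ∧ z < a := fun z hz =>
      h z (List.mem_cons_of_mem _ (List.mem_cons_of_mem _ hz))
    have ih := E2_low a w hw
    obtain ⟨h1, h2, h3, -⟩ := E2_inv a w hw
    have hx : (1 : ℤ) ≤ (x : ℤ) := by exact_mod_cast (h x (by simp)).1
    have hy : (1 : ℤ) ≤ (y : ℤ) := by exact_mod_cast (h y (by simp)).1
    have hl : (x :: y :: w).length / 2 = w.length / 2 + 1 := by
      simp only [List.length_cons]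
      omega
    rw [hl, pow_succ]
    simp only [act, gl]
    have e1 : (act w (0, 1)).2 ≤ (act w (0, 1)).1 + (y : ℤ) * (act w (0, 1)).2 := by nlinarith
    have e2 : (act w (0, 1)).1 + (y : ℤ) * (act w (0, 1)).2 ≤
        (x : ℤ) * ((act w (0, 1)).1 + (y : ℤ) * (act w (0, 1)).2) := by nlinarith
    linarith

theorem cont_bounds (a : ℕ) (w : List ℕ) (hw : ∀ x ∈ w, 1 ≤ x ∧ x < a) :
    (2 : ℤ) ^ (w.length / 2) ≤ (act w (0, 1)).2 ∧ (act w (0, 1)).2 ≤ a ^ w.length :=
  ⟨E2_low a w hw, (E2_inv a w hw).2.2.2⟩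

end Pool.Agent.LibNW69
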