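import Pool.Agent.LibNW69.A

set_option autoImplicit false

namespace Pool.Agent.LibNW69

open Pool.Agent.LibNZ69

/-! Row SEP (SHORT/MEDIUM). The same as LibNZ69/SEP.lean (finished) for digits `1 ≤ x < a`. If
`x ≠ x'` and `X`, `X'` are good then `|gl x X ∧ gl x' X'| = X.2 X'.2 |(x' - x) + ρ' - ρ|` with
`ρ, ρ' ∈ [1/a, a/(a+1)]`, so it is at least `X.2 X'.2 (1/a + 1/(a+1)) ≥ X.2 X'.2 / a`. -/

private lemma SEP_le (a : ℕ) (X : ℤ × ℤ) (h : Good a X) : 0 < X.1 ∧ X.1 ≤ X.2 := by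
  obtain ⟨h1, h2, h3⟩ := h
  have ha : (0 : ℤ) ≤ (a : ℤ) := Int.natCast_nonneg a
  constructor
  · by_contra hc
    have hc' : X.1 ≤ 0 := not_lt.1 hc
    have := mul_nonneg ha (neg_nonneg.2 hc')
    linarith
  · by_contra hc
    have hc' : X.2 < X.1 := not_le.1 hc
    have h4 : (a : ℤ) * X.2 ≤ (a : ℤ) * X.1 := mul_le_mul_of_nonneg_left hc'.le ha
    have h5 : ((a : ℤ) + 1) * X.1 = (a : ℤ) * X.1 + X.1 := by ring
    linarith

theorem good_act (a : ℕ) (w : List ℕ) (hd : ∀ x ∈ w, 1 ≤ x ∧ x < a) (X : ℤ × ℤ) (h : Good a X) :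
    Good a (act w X) ∧ X.2 ≤ (act w X).2 := by
  induction w with
  | nil => exact ⟨h, le_refl _⟩
  | cons x w ih =>
    obtain ⟨ig, i4⟩ := ih fun b hb => hd b (List.mem_cons_of_mem x hb)
    obtain ⟨p1, p2⟩ := SEP_le a _ ig
    obtain ⟨i1, i2, i3⟩ := ig
    obtain ⟨hx1, hx2⟩ := hd x List.mem_cons_self
    have ha : (0 : ℤ) ≤ (a : ℤ) := Int.natCast_nonneg a
    have b1 : (1 : ℤ) ≤ (x : ℤ) := by exact_mod_cast hx1
    have b3 : (x : ℤ) ≤ (a : ℤ) - 1 := by
      have : (x : ℤ) + 1 ≤ a := by exact_mod_cast hx2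
      linarith
    have c1 : 1 * (act w X).2 ≤ (x : ℤ) * (act w X).2 := mul_le_mul_of_nonneg_right b1 i1.le
    have c3 : (x : ℤ) * (act w X).2 ≤ ((a : ℤ) - 1) * (act w X).2 :=
      mul_le_mul_of_nonneg_right b3 i1.le
    have c4 : (a : ℤ) * (1 * (act w X).2) ≤ (a : ℤ) * ((x : ℤ) * (act w X).2) :=
      mul_le_mul_of_nonneg_left c1 ha
    have c5 : ((a : ℤ) - 1) * (act w X).2 = (a : ℤ) * (act w X).2 - (act w X).2 := by ring
    have c6 : ((a : ℤ) + 1) * (act w X).2 = (a : ℤ) * (act w X).2 + (act w X).2 := by ring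
    have c7 : (a : ℤ) * ((act w X).1 + (x : ℤ) * (act w X).2) =
        (a : ℤ) * (act w X).1 + (a : ℤ) * ((x : ℤ) * (act w X).2) := by ring
    show (0 < (act w X).1 + (x : ℤ) * (act w X).2 ∧
      (act w X).1 + (x : ℤ) * (act w X).2 ≤ (a : ℤ) * (act w X).2 ∧
      ((a : ℤ) + 1) * (act w X).2 ≤ (a : ℤ) * ((act w X).1 + (x : ℤ) * (act w X).2)) ∧
      X.2 ≤ (act w X).1 + (x : ℤ) * (act w X).2
    refine ⟨⟨?_, ?_, ?_⟩, ?_⟩ <;> linarith

/-- a good vector is positive and its norm is its second coordinate -/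
theorem nm_good (a : ℕ) (X : ℤ × ℤ) (h : Good a X) : 0 < X.1 ∧ nm X = X.2 := by
  obtain ⟨h1, h2⟩ := SEP_le a X h
  refine ⟨h1, ?_⟩
  unfold nm
  rw [abs_of_pos h1, abs_of_pos h.1]
  exact max_eq_right h2

private lemma SEP_aux (a x x' : ℕ) (hxx : x < x') (Y Y' : ℤ × ℤ) (h : Good a Y) (h' : Good a Y') :
    Y.2 * Y'.2 ≤ a * wdg (gl x Y) (gl x' Y') := by
  obtain ⟨p1, p2⟩ := SEP_le a Y h
  obtain ⟨h1, h2, h3⟩ := h
  obtain ⟨k1, k2, k3⟩ := h'
  have ha : (0 : ℤ) ≤ (a : ℤ) := Int.natCast_nonneg a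
  have e : wdg (gl x Y) (gl x' Y') =
      (((x' : ℤ) - x) * (Y.2 * Y'.2) - Y.1 * Y'.2) + Y.2 * Y'.1 := by
    unfold wdg gl
    ring
  have b : (1 : ℤ) ≤ (x' : ℤ) - x := by
    have : (x : ℤ) + 1 ≤ x' := by exact_mod_cast hxx
    linarith
  have c1 : 1 * (Y.2 * Y'.2) ≤ ((x' : ℤ) - x) * (Y.2 * Y'.2) :=
    mul_le_mul_of_nonneg_right b (mul_pos h1 k1).le
  have c2 : Y.2 * Y'.2 ≤ Y.2 * (a * Y'.1) := mul_le_mul_of_nonneg_left k2 h1.le
  have c3 : Y.1 * Y'.2 ≤ Y.2 * Y'.2 := mul_le_mul_of_nonneg_right p2 k1.le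
  have c4 : 0 ≤ ((x' : ℤ) - x) * (Y.2 * Y'.2) - Y.1 * Y'.2 := by linarith
  have c5 : 0 ≤ (a : ℤ) * (((x' : ℤ) - x) * (Y.2 * Y'.2) - Y.1 * Y'.2) := mul_nonneg ha c4
  have c6 : (a : ℤ) * ((((x' : ℤ) - x) * (Y.2 * Y'.2) - Y.1 * Y'.2) + Y.2 * Y'.1) =
      (a : ℤ) * (((x' : ℤ) - x) * (Y.2 * Y'.2) - Y.1 * Y'.2) + Y.2 * (a * Y'.1) := by ring
  rw [e, c6]
  linarith

private lemma SEP_anti (x y : ℤ × ℤ) : wdg x y = - wdg y x := by
  unfold wdg
  ring

theorem sep (a : ℕ) (w w' : List ℕ) (hl : w.length = w'.length) (hne : w ≠ w')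
    (hd : ∀ x ∈ w, 1 ≤ x ∧ x < a) (hd' : ∀ x ∈ w', 1 ≤ x ∧ x < a) (X X' : ℤ × ℤ)
    (h : Good a X) (h' : Good a X') : X.2 * X'.2 ≤ a * |wdg (act w X) (act w' X')| := by
  induction w generalizing w' with
  | nil =>
    exfalso
    apply hne
    exact (List.length_eq_zero_iff.1 hl.symm).symm
  | cons x w ih =>
    cases w' with
    | nil => simp at hl
    | cons x' w' =>
      have hdw : ∀ b ∈ w, 1 ≤ b ∧ b < a := fun b hb => hd b (List.mem_cons_of_mem x hb)
      have hdw' : ∀ b ∈ w', 1 ≤ b ∧ b < a := fun b hb => hd' b (List.mem_cons_of_mem x' hb)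
      have ha : (0 : ℤ) ≤ (a : ℤ) := Int.natCast_nonneg a
      by_cases hxx : x = x'
      · subst hxx
        have hne' : w ≠ w' := fun e => hne (by rw [e])
        have hl' : w.length = w'.length := by simpa using hl
        have h1 := ih w' hl' hne' hdw hdw'
        have e : |wdg (act (x :: w) X) (act (x :: w') X')| = |wdg (act w X) (act w' X')| := by
          have e2 : wdg (act (x :: w) X) (act (x :: w') X') = - wdg (act w X) (act w' X') := by
            show wdg (gl x (act w X)) (gl x (act w' X')) = _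
            unfold wdg gl
            ring
          rw [e2, abs_neg]
        rw [e]
        exact h1
      · obtain ⟨g, g4⟩ := good_act a w hdw X h
        obtain ⟨k, k4⟩ := good_act a w' hdw' X' h'
        have m1 : X.2 * X'.2 ≤ (act w X).2 * (act w' X').2 :=
          mul_le_mul g4 k4 h'.1.le g.1.le
        show X.2 * X'.2 ≤ a * |wdg (gl x (act w X)) (gl x' (act w' X'))|
        rcases lt_or_gt_of_ne hxx with hlt | hgt
        · have h1 := SEP_aux a x x' hlt _ _ g k
          have h2 := mul_le_mul_of_nonneg_left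
            (le_abs_self (wdg (gl x (act w X)) (gl x' (act w' X')))) ha
          linarith
        · have h1 := SEP_aux a x' x hgt _ _ k g
          have h2 := mul_le_mul_of_nonneg_left
            (neg_le_abs (wdg (gl x (act w X)) (gl x' (act w' X')))) ha
          rw [SEP_anti] at h1
          have h3 : (act w' X').2 * (act w X).2 = (act w X).2 * (act w' X').2 := mul_comm _ _
          linarith

theorem eq_of_wdg_vec (a : ℕ) (e : ℤ × ℤ) (he : Good a e) (w w' : List ℕ)
    (hl : w.length = w'.length) (hd : ∀ x ∈ w, 1 ≤ x ∧ x < a) (hd' : ∀ x ∈ w', 1 ≤ x ∧ x < a)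
    (h : wdg (vec e w) (vec e w') = 0) : w = w' := by
  by_contra hne
  have h1 := sep a w w' hl hne hd hd' e e he he
  have h2 : wdg (act w e) (act w' e) = 0 := h
  rw [h2, abs_zero, mul_zero] at h1
  have h3 := mul_pos he.1 he.1
  linarith

private lemma SEP_rev (w : List ℕ) (u : ℤ × ℤ) : row w u = act w.reverse u := by
  induction w generalizing u with
  | nil => rfl
  | cons a w ih =>
    show row w (gl a u) = _
    rw [ih, List.reverse_cons, act_append]
    rfl

private lemma SEP_pos (w : List ℕ) (hd : ∀ a ∈ w, 1 ≤ a) :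
    0 < (act w (0, 1)).2 ∧ 0 ≤ (act w (0, 1)).1 ∧ (act w (0, 1)).1 ≤ (act w (0, 1)).2 ∧
      (w ≠ [] → 0 < (act w (0, 1)).1) := by
  induction w with
  | nil => exact ⟨by decide, by decide, by decide, fun h => absurd rfl h⟩
  | cons a w ih =>
    obtain ⟨i1, i2, i3, -⟩ := ih fun b hb => hd b (List.mem_cons_of_mem a hb)
    have ha1 := hd a List.mem_cons_self
    have b1 : (1 : ℤ) ≤ (a : ℤ) := by exact_mod_cast ha1
    have c1 : 1 * (act w (0, 1)).2 ≤ (a : ℤ) * (act w (0, 1)).2 :=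
      mul_le_mul_of_nonneg_right b1 i1.le
    show 0 < (act w (0, 1)).1 + (a : ℤ) * (act w (0, 1)).2 ∧ 0 ≤ (act w (0, 1)).2 ∧
      (act w (0, 1)).2 ≤ (act w (0, 1)).1 + (a : ℤ) * (act w (0, 1)).2 ∧
      (a :: w ≠ [] → 0 < (act w (0, 1)).2)
    refine ⟨?_, ?_, ?_, fun _ => i1⟩ <;> linarith

private lemma SEP_inj (w w' : List ℕ) (hl : w.length = w'.length)
    (hd : ∀ a ∈ w, 1 ≤ a) (hd' : ∀ a ∈ w', 1 ≤ a)
    (h : act w (0, 1) = act w' (0, 1)) : w = w' := by
  induction w generalizing w' with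
  | nil => exact (List.length_eq_zero_iff.1 hl.symm).symm
  | cons a w ih =>
    cases w' with
    | nil => simp at hl
    | cons a' w' =>
      have hdw : ∀ b ∈ w, 1 ≤ b := fun b hb => hd b (List.mem_cons_of_mem a hb)
      have hdw' : ∀ b ∈ w', 1 ≤ b := fun b hb => hd' b (List.mem_cons_of_mem a' hb)
      have hl' : w.length = w'.length := by simpa using hl
      have h1 : (act w (0, 1)).2 = (act w' (0, 1)).2 := congrArg Prod.fst h
      have h2 : (act w (0, 1)).1 + (a : ℤ) * (act w (0, 1)).2 =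
          (act w' (0, 1)).1 + (a' : ℤ) * (act w' (0, 1)).2 := congrArg Prod.snd h
      rcases eq_or_ne w [] with hw | hw
      · have hw' : w' = [] := by
          rw [hw] at hl'
          exact List.length_eq_zero_iff.1 hl'.symm
        subst hw
        subst hw'
        have h3 : (a : ℤ) = a' := by
          have : (0 : ℤ) + (a : ℤ) * 1 = 0 + (a' : ℤ) * 1 := h2
          linarith
        have h4 : a = a' := by exact_mod_cast h3
        rw [h4]
      · have hw' : w' ≠ [] := by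
          intro e
          rw [e] at hl'
          exact hw (List.length_eq_zero_iff.1 hl')
        obtain ⟨p1, p2, p3, p4⟩ := SEP_pos w hdw
        obtain ⟨q1, q2, q3, q4⟩ := SEP_pos w' hdw'
        have p5 := p4 hw
        have q5 := q4 hw'
        rw [← h1] at h2 q1 q3
        have h3 : (a : ℤ) = a' := by
          rcases lt_trichotomy (a : ℤ) a' with hlt | heq | hgt
          · exfalso
            have : 1 * (act w (0, 1)).2 ≤ ((a' : ℤ) - a) * (act w (0, 1)).2 :=
              mul_le_mul_of_nonneg_right (by linarith [Int.add_one_le_iff.2 hlt]) p1.le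
            linarith
          · exact heq
          · exfalso
            have : 1 * (act w (0, 1)).2 ≤ ((a : ℤ) - a') * (act w (0, 1)).2 :=
              mul_le_mul_of_nonneg_right (by linarith [Int.add_one_le_iff.2 hgt]) p1.le
            linarith
        have h4 : a = a' := by exact_mod_cast h3
        rw [h3] at h2
        have h5 : (act w (0, 1)).1 = (act w' (0, 1)).1 := by linarith
        rw [h4, ih w' hl' hdw hdw' (Prod.ext h5 h1)]

theorem row_inj (w w' : List ℕ) (hl : w.length = w'.length) (hd : ∀ x ∈ w, 1 ≤ x)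
    (hd' : ∀ x ∈ w', 1 ≤ x) (h : row w (0, 1) = row w' (0, 1)) : w = w' := by
  rw [SEP_rev, SEP_rev] at h
  have h1 := SEP_inj w.reverse w'.reverse (by rw [List.length_reverse, List.length_reverse, hl])
    (fun a ha => hd a (List.mem_reverse.1 ha)) (fun a ha => hd' a (List.mem_reverse.1 ha)) h
  exact List.reverse_injective h1

end Pool.Agent.LibNW69
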