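import Pool.Agent.LibNW69.E1
import Pool.Agent.LibNW69.SEP
import Pool.Agent.LibNW69.E2

set_option autoImplicit false

namespace Pool.Agent.LibNW69

open Pool.Agent.LibNZ69

/-! Row E4. The certificate at `σ = 141/100` for the alphabet `{1, 2, 3}`. -/

private noncomputable def E4_phi (X : ℤ × ℤ) : ℝ := ((X.2 : ℝ) + X.1 / 2) ^ (-(141 / 100) : ℝ)

private theorem E4_step (X : ℤ × ℤ) (h : Good 4 X) :
    E4_phi X ≤ E4_phi (gl 1 X) + E4_phi (gl 2 X) + E4_phi (gl 3 X) := by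
  obtain ⟨h0, h1, h2⟩ := h
  have y0 : (0 : ℝ) < X.2 := by exact_mod_cast h0
  have y1 : (X.2 : ℝ) ≤ 4 * X.1 := by exact_mod_cast h1
  have y2 : 5 * (X.1 : ℝ) ≤ 4 * X.2 := by
    have : ((4 : ℕ) + 1 : ℤ) * X.1 ≤ (4 : ℕ) * X.2 := h2
    push_cast at this
    have h3 : (5 : ℤ) * X.1 ≤ 4 * X.2 := by linarith
    exact_mod_cast h3
  have hx1 : 1 / 4 ≤ (X.1 : ℝ) / X.2 := by
    rw [le_div_iff₀ y0]; linarith
  have hx2 : (X.1 : ℝ) / X.2 ≤ 4 / 5 := by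
    rw [div_le_iff₀ y0]; linarith
  have hc := cert_ineq _ hx1 hx2
  have hm : ∀ c : ℝ, 0 < c → ∀ t : ℝ, t = X.2 * c →
      t ^ (-(141 / 100) : ℝ) = (X.2 : ℝ) ^ (-(141 / 100) : ℝ) * c ^ (-(141 / 100) : ℝ) := by
    intro c hc t ht
    rw [ht, Real.mul_rpow y0.le hc.le]
  have hxp : 0 < (X.1 : ℝ) / X.2 := by linarith
  have e0 : E4_phi X = (X.2 : ℝ) ^ (-(141 / 100) : ℝ) *
      (1 + (X.1 : ℝ) / X.2 / 2) ^ (-(141 / 100) : ℝ) := by
    refine hm _ (by linarith) _ ?_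
    field_simp
  have e1 : E4_phi (gl 1 X) = (X.2 : ℝ) ^ (-(141 / 100) : ℝ) *
      (3 / 2 + (X.1 : ℝ) / X.2) ^ (-(141 / 100) : ℝ) := by
    refine hm _ (by linarith) _ ?_
    simp only [gl]; push_cast; field_simp; ring
  have e2 : E4_phi (gl 2 X) = (X.2 : ℝ) ^ (-(141 / 100) : ℝ) *
      (5 / 2 + (X.1 : ℝ) / X.2) ^ (-(141 / 100) : ℝ) := by
    refine hm _ (by linarith) _ ?_
    simp only [gl]; push_cast; field_simp; ring
  have e3 : E4_phi (gl 3 X) = (X.2 : ℝ) ^ (-(141 / 100) : ℝ) *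
      (7 / 2 + (X.1 : ℝ) / X.2) ^ (-(141 / 100) : ℝ) := by
    refine hm _ (by linarith) _ ?_
    simp only [gl]; push_cast; field_simp; ring
  rw [e0, e1, e2, e3, ← mul_add, ← mul_add]
  exact mul_le_mul_of_nonneg_left hc (Real.rpow_nonneg y0.le _)

private theorem E4_sum (l : ℕ) (f : List ℕ → ℝ) :
    ∑ w ∈ wd (letters {1, 2, 3}) (l + 1), f w =
      ∑ w ∈ wd (letters {1, 2, 3}) l, (f (1 :: w) + f (2 :: w) + f (3 :: w)) := by
  have h1 : ∀ w : List ℕ, f (1 :: w) + f (2 :: w) + f (3 :: w) =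
      ∑ x ∈ ({1, 2, 3} : Finset ℕ), f (x :: w) := by
    intro w
    rw [Finset.sum_insert (by decide), Finset.sum_insert (by decide), Finset.sum_singleton,
      add_assoc]
  simp only [h1]
  rw [← Finset.sum_product']
  symm
  refine Finset.sum_bij (fun p _ => p.2 :: p.1) ?_ ?_ ?_ ?_
  · rintro ⟨w, x⟩ hp
    rw [Finset.mem_product] at hp
    rw [mem_wd_letters]
    have h2 := (mem_wd_letters _ _ _).1 hp.1
    refine ⟨by simp [h2.1], ?_⟩
    intro y hy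
    rcases List.mem_cons.1 hy with rfl | hy
    · exact hp.2
    · exact h2.2 y hy
  · rintro ⟨w, x⟩ _ ⟨w', x'⟩ _ h
    simp only [List.cons.injEq] at h
    exact Prod.ext h.2 h.1
  · intro w hw
    have h2 := (mem_wd_letters _ _ _).1 hw
    cases w with
    | nil => simp at h2
    | cons x w =>
      refine ⟨(w, x), ?_, rfl⟩
      rw [Finset.mem_product]
      refine ⟨?_, h2.2 x List.mem_cons_self⟩
      rw [mem_wd_letters]
      exact ⟨by simpa using h2.1, fun y hy => h2.2 y (List.mem_cons_of_mem _ hy)⟩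
  · rintro ⟨w, x⟩ _
    rfl

private theorem E4_dig (l : ℕ) (w : List ℕ) (hw : w ∈ wd (letters {1, 2, 3}) l) :
    ∀ x ∈ w, 1 ≤ x ∧ x < 4 := by
  intro x hx
  have h := ((mem_wd_letters _ _ _).1 hw).2 x hx
  fin_cases h <;> norm_num

private theorem E4_ind (l : ℕ) (X : ℤ × ℤ) (h : Good 4 X) :
    E4_phi X ≤ ∑ w ∈ wd (letters {1, 2, 3}) l, E4_phi (act w X) := by
  induction l with
  | zero => simp [wd, act]
  | succ l ih =>
    rw [E4_sum l (fun w => E4_phi (act w X))]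
    refine ih.trans (Finset.sum_le_sum fun w hw => ?_)
    exact E4_step _ (good_act 4 w (E4_dig l w hw) X h).1

private theorem E4_pos (w : List ℕ) (hw : ∀ x ∈ w, 1 ≤ x) :
    (act w (1, 2)).2 = (act w (1, 0)).2 + 2 * (act w (0, 1)).2 ∧
    (act w (1, 2)).1 = (act w (1, 0)).1 + 2 * (act w (0, 1)).1 ∧
    0 ≤ (act w (1, 0)).1 ∧ 0 ≤ (act w (1, 0)).2 ∧ 0 ≤ (act w (0, 1)).1 ∧
      1 ≤ (act w (0, 1)).2 := by
  induction w with
  | nil => simp [act]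
  | cons x w ih =>
    obtain ⟨a1, a2, a3, a4, a5, a6⟩ := ih fun y hy => hw y (List.mem_cons_of_mem _ hy)
    have hx : (1 : ℤ) ≤ x := by exact_mod_cast hw x List.mem_cons_self
    simp only [act, gl]
    refine ⟨?_, a1, a4, ?_, by linarith, ?_⟩
    · rw [a1, a2]; ring
    · positivity
    · nlinarith

/-- the certificate -/
theorem cert_sum3 (l : ℕ) :
    (1 / 4 : ℝ) ≤
      ∑ w ∈ wd (letters {1, 2, 3}) l, (((act w (0, 1)).2 : ℤ) : ℝ) ^ (-(141 / 100) : ℝ) := by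
  have h1 := E4_ind l (1, 2) (by refine ⟨?_, ?_, ?_⟩ <;> norm_num)
  have h2 : ∀ w ∈ wd (letters {1, 2, 3}) l,
      E4_phi (act w (1, 2)) ≤ (((act w (0, 1)).2 : ℤ) : ℝ) ^ (-(141 / 100) : ℝ) := by
    intro w hw
    obtain ⟨a1, a2, a3, a4, a5, a6⟩ := E4_pos w fun x hx => (E4_dig l w hw x hx).1
    have b1 : ((act w (1, 2)).2 : ℝ) = (act w (1, 0)).2 + 2 * (act w (0, 1)).2 := by
      exact_mod_cast a1
    have b2 : ((act w (1, 2)).1 : ℝ) = (act w (1, 0)).1 + 2 * (act w (0, 1)).1 := by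
      exact_mod_cast a2
    have b3 : (0 : ℝ) ≤ (act w (1, 0)).1 := by exact_mod_cast a3
    have b4 : (0 : ℝ) ≤ (act w (1, 0)).2 := by exact_mod_cast a4
    have b5 : (0 : ℝ) ≤ (act w (0, 1)).1 := by exact_mod_cast a5
    have b6 : (1 : ℝ) ≤ (act w (0, 1)).2 := by exact_mod_cast a6
    unfold E4_phi
    rw [b1, b2]
    refine Real.rpow_le_rpow_of_nonpos (by linarith) (by linarith) (by norm_num)
  have h3 : (1 / 4 : ℝ) ≤ E4_phi (1, 2) := by
    unfold E4_phi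
    have h4 : (((1, 2) : ℤ × ℤ).2 : ℝ) + (((1, 2) : ℤ × ℤ).1 : ℝ) / 2 = 5 / 2 := by norm_num
    rw [h4, Real.rpow_neg (by norm_num)]
    have h5 : (5 / 2 : ℝ) ^ (141 / 100 : ℝ) ≤ 4 := by
      have h6 : (5 / 2 : ℝ) ^ (141 / 100 : ℝ) ≤ (5 / 2 : ℝ) ^ (3 / 2 : ℝ) :=
        Real.rpow_le_rpow_of_exponent_le (by norm_num) (by norm_num)
      have h7 : (5 / 2 : ℝ) ^ (3 / 2 : ℝ) ≤ 4 := by
        have h8 : ((5 / 2 : ℝ) ^ (3 / 2 : ℝ)) ^ (2 : ℕ) ≤ 4 ^ 2 := by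
          rw [← Real.rpow_natCast, ← Real.rpow_mul (by norm_num)]
          norm_num
        exact (pow_le_pow_iff_left₀ (by positivity) (by norm_num) (by norm_num)).1 h8
      linarith
    have h9 : 0 < (5 / 2 : ℝ) ^ (141 / 100 : ℝ) := by positivity
    rw [one_div]
    exact inv_anti₀ h9 h5
  exact h3.trans (h1.trans (Finset.sum_le_sum h2))

end Pool.Agent.LibNW69
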