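import Pool.Agent.LibNW69.H1

set_option autoImplicit false

namespace Pool.Agent.LibNW69

open Pool.Agent.LibNZ69

private theorem H2_pos (w : List ℕ) (hw : ∀ x ∈ w, 1 ≤ x) :
    (0 : ℤ) ≤ (act w (0, 1)).1 ∧ (1 : ℤ) ≤ (act w (0, 1)).2 := by
  induction w with
  | nil => simp [act]
  | cons a w ih =>
    obtain ⟨h1, h2⟩ := ih (fun x hx => hw x (List.mem_cons_of_mem a hx))
    have ha : (1 : ℤ) ≤ (a : ℤ) := by exact_mod_cast hw a (List.mem_cons_self)
    refine ⟨?_, ?_⟩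
    · change 0 ≤ (act w (0, 1)).2
      linarith
    · change 1 ≤ (act w (0, 1)).1 + (a : ℤ) * (act w (0, 1)).2
      nlinarith

private theorem H2_dig {A : Finset ℕ} {l : ℕ} {w : List ℕ} (hw : w ∈ wd (letters A) l) :
    w.length = l ∧ ∀ x ∈ w, x ∈ A := (mem_wd_letters A l w).mp hw

private theorem H2_low {A : Finset ℕ} (hA : ∀ x ∈ A, 1 ≤ x) {l k : ℕ} (hk : 2 * k ≤ l)
    {w : List ℕ} (hw : w ∈ wd (letters A) l) :
    (2 : ℝ) ^ k ≤ (((act w (0, 1)).2 : ℤ) : ℝ) := by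
  obtain ⟨h1, h2⟩ := H2_dig hw
  have h3 : ∀ x ∈ w, 1 ≤ x ∧ x < A.sup id + 1 := by
    intro x hx
    refine ⟨hA x (h2 x hx), ?_⟩
    have h4 : id x ≤ A.sup id := Finset.le_sup (h2 x hx)
    have h5 : x ≤ A.sup id := h4
    omega
  have h4 := (cont_bounds (A.sup id + 1) w h3).1
  have h5 : (2 : ℤ) ^ k ≤ 2 ^ (w.length / 2) := by
    apply pow_le_pow_right₀ (by norm_num)
    rw [h1]
    omega
  have h6 : (2 : ℤ) ^ k ≤ (act w (0, 1)).2 := h5.trans h4
  exact_mod_cast h6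

private theorem H2_term {A : Finset ℕ} (hA : ∀ x ∈ A, 1 ≤ x) {l : ℕ} {σ : ℝ} (h0 : 0 < σ)
    {w : List ℕ} (hw : w ∈ wd (letters A) l) :
    Metric.ediam (cyl w) ^ (σ / 2) ≤
      ENNReal.ofReal ((((act w (0, 1)).2 : ℤ) : ℝ) ^ (-σ)) := by
  have h2 := (H2_dig hw).2
  have hw1 : ∀ x ∈ w, 1 ≤ x := fun x hx => hA x (h2 x hx)
  have h3 := ediam_cyl w hw1
  have h4 : (1 : ℝ) ≤ (((act w (0, 1)).2 : ℤ) : ℝ) := by exact_mod_cast (H2_pos w hw1).2
  set K : ℝ := (((act w (0, 1)).2 : ℤ) : ℝ) with hK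
  have hK0 : 0 < K := by linarith
  have h5 : (1 / K ^ 2) ^ (σ / 2) = K ^ (-σ) := by
    have e1 : 1 / K ^ 2 = K ^ (-2 : ℝ) := by
      rw [Real.rpow_neg hK0.le, one_div]
      congr 1
      exact_mod_cast (Real.rpow_natCast K 2).symm
    rw [e1, ← Real.rpow_mul hK0.le]
    congr 1
    ring
  calc Metric.ediam (cyl w) ^ (σ / 2) ≤ (ENNReal.ofReal (1 / K ^ 2)) ^ (σ / 2) :=
        ENNReal.rpow_le_rpow h3 (by linarith)
    _ = ENNReal.ofReal ((1 / K ^ 2) ^ (σ / 2)) :=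
        ENNReal.ofReal_rpow_of_pos (by positivity)
    _ = ENNReal.ofReal (K ^ (-σ)) := by rw [h5]

private theorem H2_seq (S : ℕ → ℝ) (hS : ∀ l, 0 < S l) (h : ∀ c : ℝ, 0 < c → ∃ l, S l < c)
    (k : ℕ) : ∃ l, 2 * k ≤ l ∧ S l < 1 / ((k : ℝ) + 1) := by
  have key : ∀ m : ℕ, ∃ c : ℝ, 0 < c ∧ c ≤ 1 / ((k : ℝ) + 1) ∧ ∀ j < m, c ≤ S j := by
    intro m
    induction m with
    | zero => exact ⟨1 / ((k : ℝ) + 1), by positivity, le_rfl, fun j hj => absurd hj (by omega)⟩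
    | succ m ih =>
      obtain ⟨c, h1, h2, h3⟩ := ih
      refine ⟨min c (S m), lt_min h1 (hS m), (min_le_left _ _).trans h2, ?_⟩
      intro j hj
      rcases Nat.lt_succ_iff_lt_or_eq.mp hj with h4 | h4
      · exact (min_le_left _ _).trans (h3 j h4)
      · rw [h4]
        exact min_le_right _ _
  obtain ⟨c, h1, h2, h3⟩ := key (2 * k)
  obtain ⟨l, hl⟩ := h c h1
  refine ⟨l, ?_, hl.trans_le h2⟩
  by_contra hcon
  have h4 := h3 l (by omega)
  linarith

/-- Row H2 (MEDIUM). If `dimH (E A) > σ / 2` then the sums over the words of length `l` of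
`K(w)^(-σ)` are bounded below. Suppose not. `A` is not empty (otherwise `E A = ∅`, `dimH = 0`), every
sum `Σ_l` is positive, so for each `k` there is `l_k ≥ k` with `Σ_{l_k} < 1/(k+1)` (take a bound that is
also below `Σ_0, …, Σ_{k-1}`). Apply `MeasureTheory.Measure.hausdorffMeasure_le_liminf_sum` with the
cylinders of the words of `wd (letters A) l_k` (`mem_cyl`), of diameter `≤ 1 / K(w)^2 ≤ 4^(-(l_k / 2))`
(`ediam_cyl`, `cont_bounds`) and `diam^(σ/2) ≤ K(w)^(-σ)`: `μH[σ/2] (E A) ≤ liminf 1/(k+1) = 0`, so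
`dimH (E A) ≤ σ/2` (`dimH_le_of_hausdorffMeasure_ne_top`). -/
theorem cert_of_dimH (A : Finset ℕ) (hA : ∀ x ∈ A, 1 ≤ x) (σ : ℝ) (h0 : 0 < σ)
    (h : ENNReal.ofReal (σ / 2) < dimH (E A)) :
    ∃ c : ℝ, 0 < c ∧ ∀ l : ℕ, c ≤ ∑ w ∈ wd (letters A) l, (((act w (0, 1)).2 : ℤ) : ℝ) ^ (-σ) := by
  by_contra hcon
  push Not at hcon
  -- the alphabet is not empty
  have hne : A.Nonempty := by
    rw [Finset.nonempty_iff_ne_empty]
    intro hA0
    have h1 : E A = ∅ := by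
      ext x
      simp only [Set.mem_empty_iff_false, iff_false]
      rintro ⟨-, -, -, h2⟩
      obtain ⟨k, hk, -⟩ := h2 0
      rw [hA0] at hk
      exact absurd hk (Finset.notMem_empty k)
    rw [h1, dimH_empty] at h
    exact absurd h (not_lt_bot)
  obtain ⟨a0, ha0⟩ := hne
  have hterm : ∀ l : ℕ, ∀ w ∈ wd (letters A) l,
      0 < (((act w (0, 1)).2 : ℤ) : ℝ) ^ (-σ) := by
    intro l w hw
    apply Real.rpow_pos_of_pos
    have h1 := (H2_pos w (fun x hx => hA x ((H2_dig hw).2 x hx))).2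
    have h2 : (1 : ℝ) ≤ (((act w (0, 1)).2 : ℤ) : ℝ) := by exact_mod_cast h1
    linarith
  have hpos : ∀ l : ℕ, 0 < ∑ w ∈ wd (letters A) l, (((act w (0, 1)).2 : ℤ) : ℝ) ^ (-σ) := by
    intro l
    apply Finset.sum_pos (hterm l)
    refine ⟨List.replicate l a0, (mem_wd_letters A l _).mpr ⟨by simp, ?_⟩⟩
    intro x hx
    rw [List.eq_of_mem_replicate hx]
    exact ha0
  choose L hL1 hL2 using H2_seq _ hpos hcon
  -- the covers
  have hbound := MeasureTheory.Measure.hausdorffMeasure_le_liminf_sum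
    (ι := fun k : ℕ => {w // w ∈ wd (letters A) (L k)}) (σ / 2) (E A) (l := Filter.atTop)
    (fun k : ℕ => ENNReal.ofReal ((1 / 2 : ℝ) ^ k))
    (by
      have h1 : Filter.Tendsto (fun k : ℕ => (1 / 2 : ℝ) ^ k) Filter.atTop (nhds 0) :=
        tendsto_pow_atTop_nhds_zero_of_lt_one (by norm_num) (by norm_num)
      have h2 := (ENNReal.continuous_ofReal.tendsto 0).comp h1
      rw [ENNReal.ofReal_zero] at h2
      exact h2)
    (fun k w => cyl w.1)
    (Filter.Eventually.of_forall (by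
      rintro k ⟨w, hw⟩
      refine (ediam_cyl w (fun x hx => hA x ((H2_dig hw).2 x hx))).trans ?_
      apply ENNReal.ofReal_le_ofReal
      have h1 := H2_low hA (hL1 k) hw
      have h2 : (1 : ℝ) ≤ (2 : ℝ) ^ k := one_le_pow₀ (by norm_num)
      rw [one_div_pow]
      apply one_div_le_one_div_of_le (by positivity)
      nlinarith))
    (Filter.Eventually.of_forall (by
      intro k x hx
      obtain ⟨w, hw, hxw⟩ := mem_cyl A hA (L k) x hx
      exact Set.mem_iUnion.mpr ⟨⟨w, hw⟩, hxw⟩))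
  have hzero : Filter.Tendsto (fun k : ℕ => ENNReal.ofReal (1 / ((k : ℝ) + 1)))
      Filter.atTop (nhds 0) := by
    have h1 : Filter.Tendsto (fun k : ℕ => 1 / ((k : ℝ) + 1)) Filter.atTop (nhds 0) :=
      tendsto_one_div_add_atTop_nhds_zero_nat
    have h2 := (ENNReal.continuous_ofReal.tendsto 0).comp h1
    rw [ENNReal.ofReal_zero] at h2
    exact h2
  have hle : ∀ k : ℕ, (∑ i : {w // w ∈ wd (letters A) (L k)}, Metric.ediam (cyl i.1) ^ (σ / 2)) ≤
      ENNReal.ofReal (1 / ((k : ℝ) + 1)) := by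
    intro k
    calc (∑ i : {w // w ∈ wd (letters A) (L k)}, Metric.ediam (cyl i.1) ^ (σ / 2))
        ≤ ∑ i : {w // w ∈ wd (letters A) (L k)},
          ENNReal.ofReal ((((act i.1 (0, 1)).2 : ℤ) : ℝ) ^ (-σ)) :=
          Finset.sum_le_sum (fun i _ => H2_term hA h0 i.2)
      _ = ∑ w ∈ wd (letters A) (L k), ENNReal.ofReal ((((act w (0, 1)).2 : ℤ) : ℝ) ^ (-σ)) :=
          Finset.sum_coe_sort (wd (letters A) (L k))
            (fun w => ENNReal.ofReal ((((act w (0, 1)).2 : ℤ) : ℝ) ^ (-σ)))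
      _ = ENNReal.ofReal (∑ w ∈ wd (letters A) (L k), (((act w (0, 1)).2 : ℤ) : ℝ) ^ (-σ)) :=
          (ENNReal.ofReal_sum_of_nonneg (fun w hw => (hterm (L k) w hw).le)).symm
      _ ≤ ENNReal.ofReal (1 / ((k : ℝ) + 1)) := ENNReal.ofReal_le_ofReal (hL2 k).le
  have hlim : Filter.liminf (fun k : ℕ => ∑ i : {w // w ∈ wd (letters A) (L k)},
      Metric.ediam (cyl i.1) ^ (σ / 2)) Filter.atTop ≤ 0 := by
    rw [← hzero.liminf_eq]
    exact Filter.liminf_le_liminf (Filter.Eventually.of_forall hle)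
  have hmeas : MeasureTheory.Measure.hausdorffMeasure (σ / 2) (E A) ≤ 0 := hbound.trans hlim
  have hdim : dimH (E A) ≤ ((σ / 2).toNNReal : ENNReal) := by
    apply dimH_le_of_hausdorffMeasure_ne_top
    rw [Real.coe_toNNReal (σ / 2) (by linarith)]
    exact ne_top_of_le_ne_top ENNReal.zero_ne_top hmeas
  exact absurd h (not_lt.mpr hdim)

end Pool.Agent.LibNW69
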