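import Pool.Agent.LibNW69.EA
import Pool.Agent.LibNW69.E2
import Pool.Agent.LibNZ69.A1
import Pool.Agent.LibNZ69.RES

set_option autoImplicit false

namespace Pool.Agent.LibNW69

open Pool.Agent.LibNZ69

/-! Row RES (SHORT). -/

/-- the end vector `act [x, x] (0, 1)` -/
theorem end_vec (a x : ℕ) (hx : 1 ≤ x) (hxa : x < a) :
    Good a ((x : ℤ), 1 + (x : ℤ) ^ 2) ∧ IsCoprime (x : ℤ) (1 + (x : ℤ) ^ 2) ∧
      1 + (x : ℤ) ^ 2 ≤ (a : ℤ) ^ 2 := by
  have h1 : (1 : ℤ) ≤ (x : ℤ) := by exact_mod_cast hx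
  have h2 : (x : ℤ) + 1 ≤ (a : ℤ) := by exact_mod_cast hxa
  refine ⟨⟨?_, ?_, ?_⟩, ⟨-(x : ℤ), 1, ?_⟩, ?_⟩
  · show (0 : ℤ) < 1 + (x : ℤ) ^ 2
    positivity
  · show 1 + (x : ℤ) ^ 2 ≤ (a : ℤ) * (x : ℤ)
    nlinarith
  · show ((a : ℤ) + 1) * (x : ℤ) ≤ (a : ℤ) * (1 + (x : ℤ) ^ 2)
    nlinarith [mul_nonneg (show (0 : ℤ) ≤ (a : ℤ) by linarith) (sq_nonneg ((x : ℤ) - 1)),
      mul_nonneg (show (0 : ℤ) ≤ (a : ℤ) - 1 by linarith) (show (0 : ℤ) ≤ (x : ℤ) by linarith)]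
  · ring
  · nlinarith

/-- denominator and numerator -/
private def RES_K : List ℕ → ℕ × ℕ
  | [] => (1, 0)
  | a :: l => (a * (RES_K l).1 + (RES_K l).2, (RES_K l).1)

private theorem RES_K_nil : RES_K [] = (1, 0) := rfl

private theorem RES_K_cons (a : ℕ) (l : List ℕ) :
    RES_K (a :: l) = (a * (RES_K l).1 + (RES_K l).2, (RES_K l).1) := rfl

private theorem RES_K_pos (l : List ℕ) (h : ∀ a ∈ l, 1 ≤ a) : 1 ≤ (RES_K l).1 := by
  induction l with
  | nil => exact le_rfl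
  | cons a l ih =>
    rw [RES_K_cons]
    have h1 := ih fun b hb => h b (List.mem_cons_of_mem _ hb)
    have h2 := h a List.mem_cons_self
    have h3 : 1 ≤ a * (RES_K l).1 := Nat.mul_pos h2 h1
    show 1 ≤ a * (RES_K l).1 + (RES_K l).2
    omega

private theorem RES_K_coprime (l : List ℕ) : Nat.Coprime (RES_K l).2 (RES_K l).1 := by
  induction l with
  | nil => exact Nat.coprime_zero_left 1 |>.2 rfl
  | cons a l ih =>
    rw [RES_K_cons]
    show Nat.Coprime (RES_K l).1 (a * (RES_K l).1 + (RES_K l).2)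
    rw [Nat.add_comm, Nat.coprime_add_mul_right_right]
    exact ih.symm

private theorem RES_K_num_pos (l : List ℕ) (h : ∀ a ∈ l, 1 ≤ a) (hl : l ≠ []) :
    1 ≤ (RES_K l).2 := by
  cases l with
  | nil => exact absurd rfl hl
  | cons a l => exact RES_K_pos l fun b hb => h b (List.mem_cons_of_mem _ hb)

private theorem RES_K_lt (l : List ℕ) (h : ∀ a ∈ l, 1 ≤ a) (hl : l ≠ [])
    (h2 : 2 ≤ l.getLast hl) : (RES_K l).2 < (RES_K l).1 := by
  cases l with
  | nil => exact absurd rfl hl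
  | cons a l =>
    rw [RES_K_cons]
    show (RES_K l).1 < a * (RES_K l).1 + (RES_K l).2
    by_cases hn : l = []
    · subst hn
      rw [List.getLast_singleton] at h2
      simp only [RES_K_nil]
      omega
    · have h3 := RES_K_num_pos l (fun b hb => h b (List.mem_cons_of_mem _ hb)) hn
      have h4 := h a List.mem_cons_self
      have h5 : (RES_K l).1 ≤ a * (RES_K l).1 := Nat.le_mul_of_pos_left _ h4
      omega

private theorem RES_cf_eq (l : List ℕ) (h : ∀ a ∈ l, 1 ≤ a) :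
    cf l = ((RES_K l).2 : ℚ) / (RES_K l).1 := by
  induction l with
  | nil => simp [cf, RES_K_nil]
  | cons a l ih =>
    have h1 := RES_K_pos l fun b hb => h b (List.mem_cons_of_mem _ hb)
    have h2 := RES_K_pos (a :: l) h
    have h3 : ((RES_K l).1 : ℚ) ≠ 0 := by positivity
    rw [cf, ih fun b hb => h b (List.mem_cons_of_mem _ hb)]
    rw [RES_K_cons] at h2 ⊢
    have h4 : (((a * (RES_K l).1 + (RES_K l).2 : ℕ)) : ℚ) ≠ 0 := by
      have : (0 : ℚ) < ((a * (RES_K l).1 + (RES_K l).2 : ℕ) : ℚ) := by exact_mod_cast h2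
      exact this.ne'
    show 1 / ((a : ℚ) + ((RES_K l).2 : ℚ) / (RES_K l).1) =
      ((RES_K l).1 : ℚ) / ((a * (RES_K l).1 + (RES_K l).2 : ℕ) : ℚ)
    have h5 : (a : ℚ) + ((RES_K l).2 : ℚ) / (RES_K l).1 =
        ((a * (RES_K l).1 + (RES_K l).2 : ℕ) : ℚ) / (RES_K l).1 := by
      push_cast
      field_simp
    rw [h5, one_div_div]

private theorem RES_vec (x : ℕ) (w : List ℕ) :
    vec ((x : ℤ), 1 + (x : ℤ) ^ 2) w =
      (((RES_K (w ++ [x, x])).2 : ℤ), ((RES_K (w ++ [x, x])).1 : ℤ)) := by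
  induction w with
  | nil =>
    show ((x : ℤ), 1 + (x : ℤ) ^ 2) =
      (((x * 1 + 0 : ℕ) : ℤ), ((x * (x * 1 + 0) + 1 : ℕ) : ℤ))
    ext
    · simp
    · push_cast
      ring
  | cons a w ih =>
    have h1 : vec ((x : ℤ), 1 + (x : ℤ) ^ 2) (a :: w) =
      gl a (vec ((x : ℤ), 1 + (x : ℤ) ^ 2) w) := rfl
    rw [h1, ih, List.cons_append, RES_K_cons]
    unfold gl
    push_cast
    ext
    · rfl
    · show ((RES_K (w ++ [x, x])).2 : ℤ) + a * ((RES_K (w ++ [x, x])).1 : ℤ) =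
        a * ((RES_K (w ++ [x, x])).1 : ℤ) + ((RES_K (w ++ [x, x])).2 : ℤ)
      ring

/-- the list `w ++ [x, x]` has continued fraction `(vec e w).1 / (vec e w).2`, `e = (x, 1 + x²)`;
as in LibNZ69/RES.lean (finished). -/
theorem mem_D (A : Finset ℕ) (hA : ∀ y ∈ A, 1 ≤ y) (x : ℕ) (hxA : x ∈ A) (hx : 2 ≤ x)
    (w : List ℕ) (hw : ∀ y ∈ w, y ∈ A) (d : ℕ)
    (h : (vec ((x : ℤ), 1 + (x : ℤ) ^ 2) w).2 = (d : ℤ)) : d ∈ D A := by
  have hd : (RES_K (w ++ [x, x])).1 = d := by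
    rw [RES_vec x w] at h
    have h' : ((RES_K (w ++ [x, x])).1 : ℤ) = (d : ℤ) := h
    exact_mod_cast h'
  have hne : w ++ [x, x] ≠ [] := by simp
  have hl : ∀ y ∈ w ++ [x, x], y ∈ A := by
    intro y hy
    rcases List.mem_append.1 hy with hy | hy
    · exact hw y hy
    · simp only [List.mem_cons, List.not_mem_nil, or_false, or_self] at hy
      rw [hy]
      exact hxA
  have h1 : ∀ y ∈ w ++ [x, x], 1 ≤ y := fun y hy => hA y (hl y hy)
  have hlast : 2 ≤ (w ++ [x, x]).getLast hne := by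
    have h0 : (w ++ [x, x]).getLast hne = x := by simp
    rw [h0]
    exact hx
  have h3 := RES_K_num_pos (w ++ [x, x]) h1 hne
  have h4 := RES_K_lt (w ++ [x, x]) h1 hne hlast
  rw [← hd]
  exact ⟨by omega, (RES_K (w ++ [x, x])).2, h3, h4, RES_K_coprime _, w ++ [x, x], hne, hl, hlast,
    (RES_cf_eq _ h1).symm⟩

/-- if all the letters are `1` then there is one word, of continuant `≥ 2^(l/2)`, and the sums tend
to `0`. -/
theorem exists_two_le (A : Finset ℕ) (hA : ∀ x ∈ A, 1 ≤ x) (σ c : ℝ) (h0 : 0 < σ) (hc0 : 0 < c)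
    (hc : ∀ l : ℕ, c ≤ ∑ w ∈ wd (letters A) l, (((act w (0, 1)).2 : ℤ) : ℝ) ^ (-σ)) :
    ∃ x ∈ A, 2 ≤ x := by
  by_contra hno
  push Not at hno
  have hA1 : ∀ x ∈ A, x = 1 := fun x hx => by
    have h1 := hA x hx
    have h2 := hno x hx
    omega
  have hr0 : (0 : ℝ) < (2 : ℝ) ^ (-σ) := by positivity
  have hr1 : (2 : ℝ) ^ (-σ) < 1 := Real.rpow_lt_one_of_one_lt_of_neg (by norm_num) (by linarith)
  obtain ⟨m, hm⟩ := exists_pow_lt_of_lt_one hc0 hr1
  have h1 := hc (2 * m)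
  have hsub : wd (letters A) (2 * m) ⊆ {List.replicate (2 * m) 1} := by
    intro w hw
    rw [mem_wd_letters] at hw
    rw [Finset.mem_singleton]
    exact List.eq_replicate_iff.2 ⟨hw.1, fun b hb => hA1 b (hw.2 b hb)⟩
  have hb := cont_bounds 2 (List.replicate (2 * m) 1) (fun x hx => by
    have := List.eq_of_mem_replicate hx
    omega)
  rw [List.length_replicate, Nat.mul_div_cancel_left m (by norm_num)] at hb
  have hb1 : ((2 : ℝ)) ^ m ≤ (((act (List.replicate (2 * m) 1) (0, 1)).2 : ℤ) : ℝ) := by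
    exact_mod_cast hb.1
  have hpos : (0 : ℝ) < (((act (List.replicate (2 * m) 1) (0, 1)).2 : ℤ) : ℝ) :=
    lt_of_lt_of_le (by positivity) hb1
  have h2 : ∑ w ∈ wd (letters A) (2 * m), (((act w (0, 1)).2 : ℤ) : ℝ) ^ (-σ) ≤
      (((act (List.replicate (2 * m) 1) (0, 1)).2 : ℤ) : ℝ) ^ (-σ) := by
    refine le_trans (Finset.sum_le_sum_of_subset_of_nonneg hsub ?_) ?_
    · intro w hw _
      rw [Finset.mem_singleton] at hw
      rw [hw]
      exact Real.rpow_nonneg hpos.le _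
    · rw [Finset.sum_singleton]
  have h3 : (((act (List.replicate (2 * m) 1) (0, 1)).2 : ℤ) : ℝ) ^ (-σ) ≤
      ((2 : ℝ) ^ m) ^ (-σ) :=
    Real.rpow_le_rpow_of_nonpos (by positivity) hb1 (by linarith)
  have h4 : ((2 : ℝ) ^ m) ^ (-σ) = ((2 : ℝ) ^ (-σ)) ^ m := by
    rw [← Real.rpow_natCast, ← Real.rpow_natCast, ← Real.rpow_mul (by norm_num),
      ← Real.rpow_mul (by norm_num), mul_comm]
  rw [h4] at h3
  linarith

end Pool.Agent.LibNW69
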