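import Pool.Agent.LibNW69.Z
import Pool.Agent.LibNW69.H2
import Pool.Agent.LibNW69.RES
import Pool.Agent.LibNW69.E4

set_option autoImplicit false

namespace Pool.Agent.LibNW69

open Pool.Agent.LibNZ69

/-! Row CLO (SHORT/MEDIUM). -/

/-- `countG` with `a = max A + 4`, `x ∈ A`, `x ≥ 2`, `e = (x, 1 + x²)`, and `mem_D`. -/
theorem countA (A : Finset ℕ) (hA : ∀ x ∈ A, 1 ≤ x) (σ c : ℝ) (h1 : 1 < σ) (h2 : σ ≤ 3 / 2)
    (hc0 : 0 < c)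
    (hc : ∀ l : ℕ, c ≤ ∑ w ∈ wd (letters A) l, (((act w (0, 1)).2 : ℤ) : ℝ) ^ (-σ))
    (ε : ℝ) (hε : 0 < ε) : ∃ N₀ : ℕ, ∀ N : ℕ, N₀ ≤ N →
    (N : ℝ) ^ (σ - 1 / 2 - ε) ≤ (Set.ncard {d : ℕ | d ∈ D A ∧ d ≤ N} : ℝ) := by
  obtain ⟨x, hxA, hx2⟩ := exists_two_le A hA σ c (by linarith) hc0 hc
  have hsup : ∀ y ∈ A, y ≤ A.sup id := fun y hy => Finset.le_sup (f := id) hy
  have hAa : ∀ y ∈ A, 1 ≤ y ∧ y < A.sup id + 4 := fun y hy =>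
    ⟨hA y hy, by have := hsup y hy; omega⟩
  obtain ⟨hg, hcop, hel⟩ := end_vec (A.sup id + 4) x (hA x hxA) (hAa x hxA).2
  obtain ⟨N₀, hN₀⟩ := countG (A.sup id + 4) σ ((x : ℤ), 1 + (x : ℤ) ^ 2) A c (by omega) h1 h2
    hg hcop hel hAa hc0 hc ε hε
  refine ⟨N₀, fun N hN => (hN₀ N hN).trans ?_⟩
  have hsub : {d : ℕ | d ≤ N ∧ ∃ w : List ℕ, (∀ y ∈ w, y ∈ A) ∧
      (vec ((x : ℤ), 1 + (x : ℤ) ^ 2) w).2 = (d : ℤ)} ⊆ {d : ℕ | d ∈ D A ∧ d ≤ N} := by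
    rintro d ⟨hd, w, hw, hv⟩
    exact ⟨mem_D A hA x hxA hx2 w hw d hv, hd⟩
  have hfin : {d : ℕ | d ∈ D A ∧ d ≤ N}.Finite :=
    (Set.finite_Iic N).subset fun d hd => hd.2
  exact_mod_cast Set.ncard_le_ncard hsub hfin

/-- `δ = dimH (E A)` is at most `1`, so finite; apply `cert_of_dimH` and `countA` with
`σ = min (3/2) (2δ - η)`, `η` small (`σ > 1`), with `ε / 2`. -/
theorem main_dim (A : Finset ℕ) (hA : ∀ x ∈ A, 1 ≤ x) (h : 1 / 2 < dimH (E A))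
    (ε : ℝ) (hε : 0 < ε) : ∃ N₀ : ℕ, ∀ N : ℕ, N₀ ≤ N →
    (N : ℝ) ^ (min 1 (2 * (dimH (E A)).toReal - 1 / 2) - ε) ≤
      (Set.ncard {d : ℕ | d ∈ D A ∧ d ≤ N} : ℝ) := by
  have hle : dimH (E A) ≤ 1 := by
    have h1 := dimH_mono (Set.subset_univ (E A))
    rwa [Real.dimH_univ] at h1
  have hne : dimH (E A) ≠ ⊤ := ne_top_of_le_ne_top ENNReal.one_ne_top hle
  have hd : 1 / 2 < (dimH (E A)).toReal := by
    have h3 := (ENNReal.toReal_lt_toReal (by simp) hne).2 h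
    simpa using h3
  set d : ℝ := (dimH (E A)).toReal with hdd
  set m : ℝ := min (3 / 2) (2 * d) with hm
  have hm1 : 1 < m := lt_min (by norm_num) (by linarith)
  have hm2 : m ≤ 3 / 2 := min_le_left _ _
  have hm3 : m ≤ 2 * d := min_le_right _ _
  obtain ⟨σ, hσ1, hσ2, hσ3⟩ : ∃ σ : ℝ, 1 < σ ∧ σ < m ∧ m - ε / 2 ≤ σ :=
    ⟨max ((1 + m) / 2) (m - ε / 2), lt_of_lt_of_le (by linarith) (le_max_left _ _),
      max_lt (by linarith) (by linarith), le_max_right _ _⟩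
  have hlt : ENNReal.ofReal (σ / 2) < dimH (E A) := by
    rw [ENNReal.ofReal_lt_iff_lt_toReal (by linarith) hne]
    linarith
  obtain ⟨c, hc0, hc⟩ := cert_of_dimH A hA σ (by linarith) hlt
  obtain ⟨N₀, hN₀⟩ := countA A hA σ c hσ1 (by linarith) hc0 hc (ε / 2) (by linarith)
  refine ⟨max N₀ 1, fun N hN => le_trans ?_ (hN₀ N (le_trans (le_max_left _ _) hN))⟩
  have hN1 : (1 : ℝ) ≤ (N : ℝ) := by exact_mod_cast le_trans (le_max_right _ _) hN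
  refine Real.rpow_le_rpow_of_exponent_le hN1 ?_
  have hmin : min 1 (2 * d - 1 / 2) ≤ m - 1 / 2 := by
    rw [hm, le_sub_iff_add_le]
    refine le_min ?_ ?_
    · have := min_le_left 1 (2 * d - 1 / 2)
      linarith
    · have := min_le_right 1 (2 * d - 1 / 2)
      linarith
  linarith

/-- `countA` with `σ = 141/100`, `c = 1/4` and `cert_sum3`. -/
theorem main_three (ε : ℝ) (hε : 0 < ε) : ∃ N₀ : ℕ, ∀ N : ℕ, N₀ ≤ N →
    (N : ℝ) ^ (91 / 100 - ε) ≤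
      (Set.ncard {d : ℕ | d ∈ D ({1, 2, 3} : Finset ℕ) ∧ d ≤ N} : ℝ) := by
  have hA : ∀ x ∈ ({1, 2, 3} : Finset ℕ), 1 ≤ x := by decide
  obtain ⟨N₀, hN₀⟩ := countA {1, 2, 3} hA (141 / 100) (1 / 4) (by norm_num) (by norm_num)
    (by norm_num) cert_sum3 ε hε
  refine ⟨N₀, fun N hN => ?_⟩
  have h := hN₀ N hN
  have e : (141 / 100 : ℝ) - 1 / 2 - ε = 91 / 100 - ε := by ring
  rwa [e] at h

end Pool.Agent.LibNW69
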