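import Pool.Agent.LibNZ69.Defs

set_option autoImplicit false

namespace Pool.Agent.LibNW69

open Pool.Agent.LibNZ69

/-- the vector of a word with end vector `e` -/
def vec (e : ℤ × ℤ) (w : List ℕ) : ℤ × ℤ := act w e

/-- good vectors: the ratio `X.1 / X.2` lies in `[1/a, a/(a+1)]` -/
def Good (a : ℕ) (X : ℤ × ℤ) : Prop := 0 < X.2 ∧ X.2 ≤ a * X.1 ∧ (a + 1) * X.1 ≤ a * X.2

/-- the ensembles of blocks: digits in `[1, a)`, `a ≥ 4`, common length `l`, continuants in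
`[B, 2B)`, at most `B^σ` blocks; `e` is the end vector -/
structure Ens (a : ℕ) (σ : ℝ) (e : ℤ × ℤ) (S : Finset (List ℕ)) (l B : ℕ) : Prop where
  a4 : 4 ≤ a
  s1 : 1 < σ
  s2 : σ ≤ 3 / 2
  good : Good a e
  cop : IsCoprime e.1 e.2
  ele : e.2 ≤ (a : ℤ) ^ 2
  lpos : 0 < l
  big : a ^ 8 ≤ B
  len : ∀ b ∈ S, b.length = l
  dig : ∀ b ∈ S, ∀ x ∈ b, 1 ≤ x ∧ x < a
  lo : ∀ b ∈ S, (B : ℤ) ≤ (act b (0, 1)).2
  hi : ∀ b ∈ S, (act b (0, 1)).2 < 2 * (B : ℤ)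
  ne : S.Nonempty
  cardle : (S.card : ℝ) ≤ (B : ℝ) ^ σ

/-- the one-letter words over the alphabet `A` -/
def letters (A : Finset ℕ) : Finset (List ℕ) := A.image (fun x => [x])

end Pool.Agent.LibNW69
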