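import Mathlib

set_option autoImplicit false

namespace Pool.Agent.LibNW69

/-! Row E1 (numerical). Certificate of the dimension of `E {1, 2, 3}` at `141 / 200`. -/

private theorem E1_tangent (r t y : ℝ) (hr : 0 < r) (ht : 0 < t) (h : t ^ 100 ≤ r ^ 141)
    (hy : r / 2 ≤ y) :
    t * (1 + 141 / 100 * (y / r - 1)) ≤ y ^ (141 / 100 : ℝ) := by
  have hy0 : 0 < y := by linarith
  have hq : 1 / 2 ≤ y / r := by
    rw [le_div_iff₀ hr]; linarith
  have h1 : t ≤ r ^ (141 / 100 : ℝ) := by
    have h2 : (t ^ 100) ^ (1 / 100 : ℝ) ≤ (r ^ 141) ^ (1 / 100 : ℝ) :=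
      Real.rpow_le_rpow (by positivity) h (by norm_num)
    have h3 : (t ^ 100) ^ (1 / 100 : ℝ) = t := by
      rw [← Real.rpow_natCast, ← Real.rpow_mul ht.le]
      norm_num
    have h4 : (r ^ 141) ^ (1 / 100 : ℝ) = r ^ (141 / 100 : ℝ) := by
      rw [← Real.rpow_natCast, ← Real.rpow_mul hr.le]
      norm_num
    rwa [h3, h4] at h2
  have h5 : 1 + 141 / 100 * (y / r - 1) ≤ (y / r) ^ (141 / 100 : ℝ) := by
    have h6 := one_add_mul_self_le_rpow_one_add (s := y / r - 1) (by linarith)
      (p := 141 / 100) (by norm_num)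
    have h7 : 1 + (y / r - 1) = y / r := by ring
    rwa [h7] at h6
  have h8 : 0 ≤ 1 + 141 / 100 * (y / r - 1) := by linarith
  have h9 : y ^ (141 / 100 : ℝ) = r ^ (141 / 100 : ℝ) * (y / r) ^ (141 / 100 : ℝ) := by
    rw [← Real.mul_rpow hr.le (by positivity)]
    congr 1
    field_simp
  rw [h9]
  exact mul_le_mul h1 h5 h8 (by positivity)

private theorem E1_piece (x u v r1 r2 r3 t1 t2 t3 b0 b1 b2 b3 : ℝ) (hu : u ≤ x) (hv : x ≤ v)
    (hx0 : 1 / 4 ≤ x) (hx1 : x ≤ 4 / 5)
    (hr1 : 0 < r1) (hr2 : 0 < r2) (hr3 : 0 < r3)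
    (hr1' : r1 ≤ 1) (hr2' : r2 ≤ 4 / 5) (hr3' : r3 ≤ 3 / 5)
    (ht1 : 0 < t1) (ht2 : 0 < t2) (ht3 : 0 < t3)
    (h1 : t1 ^ 100 ≤ r1 ^ 141) (h2 : t2 ^ 100 ≤ r2 ^ 141) (h3 : t3 ^ 100 ≤ r3 ^ 141)
    (hb0 : 0 ≤ b0) (hb1 : 0 ≤ b1) (hb2 : 0 ≤ b2) (hb3 : 0 ≤ b3)
    (hid : (2 + x) * (141 / 100 * t1 / r1 * ((5 + 2 * x) * (7 + 2 * x)) +
        141 / 100 * t2 / r2 * ((3 + 2 * x) * (7 + 2 * x)) +
        141 / 100 * t3 / r3 * ((3 + 2 * x) * (5 + 2 * x))) -
        (1 + 41 / 100 * (t1 + t2 + t3)) * ((3 + 2 * x) * (5 + 2 * x) * (7 + 2 * x)) =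
      b0 * (v - x) ^ 3 + b1 * (x - u) * (v - x) ^ 2 + b2 * (x - u) ^ 2 * (v - x) +
        b3 * (x - u) ^ 3) :
    1 ≤ ((2 + x) / (3 + 2 * x)) ^ (141 / 100 : ℝ) + ((2 + x) / (5 + 2 * x)) ^ (141 / 100 : ℝ) +
      ((2 + x) / (7 + 2 * x)) ^ (141 / 100 : ℝ) := by
  have k1 : r1 / 2 ≤ (2 + x) / (3 + 2 * x) := by
    rw [le_div_iff₀ (by linarith)]; nlinarith
  have k2 : r2 / 2 ≤ (2 + x) / (5 + 2 * x) := by
    rw [le_div_iff₀ (by linarith)]; nlinarith
  have k3 : r3 / 2 ≤ (2 + x) / (7 + 2 * x) := by
    rw [le_div_iff₀ (by linarith)]; nlinarith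
  have e1 := E1_tangent r1 t1 _ hr1 ht1 h1 k1
  have e2 := E1_tangent r2 t2 _ hr2 ht2 h2 k2
  have e3 := E1_tangent r3 t3 _ hr3 ht3 h3 k3
  have hvx : 0 ≤ v - x := by linarith
  have hxu : 0 ≤ x - u := by linarith
  have hpos : 0 ≤ b0 * (v - x) ^ 3 + b1 * (x - u) * (v - x) ^ 2 + b2 * (x - u) ^ 2 * (v - x) +
      b3 * (x - u) ^ 3 := by positivity
  rw [← hid] at hpos
  have d1 : 0 < 3 + 2 * x := by linarith
  have d2 : 0 < 5 + 2 * x := by linarith
  have d3 : 0 < 7 + 2 * x := by linarith
  have hsum : 1 ≤ t1 * (1 + 141 / 100 * ((2 + x) / (3 + 2 * x) / r1 - 1)) +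
      t2 * (1 + 141 / 100 * ((2 + x) / (5 + 2 * x) / r2 - 1)) +
      t3 * (1 + 141 / 100 * ((2 + x) / (7 + 2 * x) / r3 - 1)) := by
    have key : t1 * (1 + 141 / 100 * ((2 + x) / (3 + 2 * x) / r1 - 1)) +
      t2 * (1 + 141 / 100 * ((2 + x) / (5 + 2 * x) / r2 - 1)) +
      t3 * (1 + 141 / 100 * ((2 + x) / (7 + 2 * x) / r3 - 1)) - 1 =
      ((2 + x) * (141 / 100 * t1 / r1 * ((5 + 2 * x) * (7 + 2 * x)) +
        141 / 100 * t2 / r2 * ((3 + 2 * x) * (7 + 2 * x)) +
        141 / 100 * t3 / r3 * ((3 + 2 * x) * (5 + 2 * x))) -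
        (1 + 41 / 100 * (t1 + t2 + t3)) * ((3 + 2 * x) * (5 + 2 * x) * (7 + 2 * x))) /
        ((3 + 2 * x) * (5 + 2 * x) * (7 + 2 * x)) := by
      field_simp
      ring
    have hq := div_nonneg hpos (by positivity : 0 ≤ (3 + 2 * x) * (5 + 2 * x) * (7 + 2 * x))
    rw [← key] at hq
    linarith
  linarith

private theorem E1_all (x : ℝ) (h1 : 1 / 4 ≤ x) (h2 : x ≤ 4 / 5) :
    1 ≤ ((2 + x) / (3 + 2 * x)) ^ (141 / 100 : ℝ) + ((2 + x) / (5 + 2 * x)) ^ (141 / 100 : ℝ) +
      ((2 + x) / (7 + 2 * x)) ^ (141 / 100 : ℝ) := by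
  rcases le_or_gt x (3/10) with c0 | c0
  · exact E1_piece x (1/4) (3/10) (91/142) (91/222) (91/302) (66747/125000) (568749/2000000) (1842631/10000000)
      (79731375687/22750000) (84954430431/8750000) (2541174419313/284375000)
      (194254329933/71093750)
      (by linarith) (by linarith) h1 h2
      (by norm_num) (by norm_num) (by norm_num) (by norm_num) (by norm_num) (by norm_num)
      (by norm_num) (by norm_num) (by norm_num) (by norm_num) (by norm_num) (by norm_num)
      (by norm_num) (by norm_num) (by norm_num) (by norm_num) (by ring)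
  rcases le_or_gt x (7/20) with c1 | c1
  · exact E1_piece x (3/10) (7/20) (93/146) (93/226) (31/102) (5294481/10000000) (1429677/5000000) (233133/1250000)
      (6617906178/2421875) (145026593627/19375000) (527620219117/77500000)
      (31869484653/15500000)
      (by linarith) (by linarith) h1 h2
      (by norm_num) (by norm_num) (by norm_num) (by norm_num) (by norm_num) (by norm_num)
      (by norm_num) (by norm_num) (by norm_num) (by norm_num) (by norm_num) (by norm_num)
      (by norm_num) (by norm_num) (by norm_num) (by norm_num) (by ring)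
  rcases le_or_gt x (2/5) with c2 | c2
  · exact E1_piece x (7/20) (2/5) (19/30) (19/46) (19/62) (131293/250000) (574889/2000000) (1886993/10000000)
      (305232539853/148437500) (824568473151/148437500) (1478301505653/296875000)
      (219932132607/148437500)
      (by linarith) (by linarith) h1 h2
      (by norm_num) (by norm_num) (by norm_num) (by norm_num) (by norm_num) (by norm_num)
      (by norm_num) (by norm_num) (by norm_num) (by norm_num) (by norm_num) (by norm_num)
      (by norm_num) (by norm_num) (by norm_num) (by norm_num) (by ring)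
  rcases le_or_gt x (9/20) with c3 | c3
  · exact E1_piece x (2/5) (9/20) (97/154) (97/234) (97/314) (2605637/5000000) (2889041/10000000) (954217/5000000)
      (449126831991/303125000) (5964765019/1515625) (4204737774487/1212500000)
      (1230401239239/1212500000)
      (by linarith) (by linarith) h1 h2
      (by norm_num) (by norm_num) (by norm_num) (by norm_num) (by norm_num) (by norm_num)
      (by norm_num) (by norm_num) (by norm_num) (by norm_num) (by norm_num) (by norm_num)
      (by norm_num) (by norm_num) (by norm_num) (by norm_num) (by ring)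
  rcases le_or_gt x (1/2) with c4 | c4
  · exact E1_piece x (9/20) (1/2) (99/158) (99/238) (33/106) (32331/62500) (2903167/10000000) (482351/2500000)
      (139545548519/137500000) (1091334748693/412500000) (23633414023/10312500)
      (341213768/515625)
      (by linarith) (by linarith) h1 h2
      (by norm_num) (by norm_num) (by norm_num) (by norm_num) (by norm_num) (by norm_num)
      (by norm_num) (by norm_num) (by norm_num) (by norm_num) (by norm_num) (by norm_num)
      (by norm_num) (by norm_num) (by norm_num) (by norm_num) (by ring)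
  rcases le_or_gt x (11/20) with c5 | c5
  · exact E1_piece x (1/2) (11/20) (101/162) (101/242) (101/322) (2568307/5000000) (583369/2000000) (974959/5000000)
      (1044613722/1578125) (53761521929/31562500) (370965301823/252500000)
      (108216735219/252500000)
      (by linarith) (by linarith) h1 h2
      (by norm_num) (by norm_num) (by norm_num) (by norm_num) (by norm_num) (by norm_num)
      (by norm_num) (by norm_num) (by norm_num) (by norm_num) (by norm_num) (by norm_num)
      (by norm_num) (by norm_num) (by norm_num) (by norm_num) (by ring)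
  rcases le_or_gt x (3/5) with c6 | c6
  · exact E1_piece x (11/20) (3/5) (103/166) (103/246) (103/326) (5102089/10000000) (183131/625000) (492497/2500000)
      (551797937019/1287500000) (1449470525087/1287500000) (65496147467/64375000)
      (103326676821/321875000)
      (by linarith) (by linarith) h1 h2
      (by norm_num) (by norm_num) (by norm_num) (by norm_num) (by norm_num) (by norm_num)
      (by norm_num) (by norm_num) (by norm_num) (by norm_num) (by norm_num) (by norm_num)
      (by norm_num) (by norm_num) (by norm_num) (by norm_num) (by ring)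
  rcases le_or_gt x (13/20) with c7 | c7
  · exact E1_piece x (3/5) (13/20) (21/34) (21/50) (7/22) (1267313/2500000) (147147/500000) (1989629/10000000)
      (7024587181/21875000) (20387609449/21875000) (11942984173/12500000)
      (4317309717/12500000)
      (by linarith) (by linarith) h1 h2
      (by norm_num) (by norm_num) (by norm_num) (by norm_num) (by norm_num) (by norm_num)
      (by norm_num) (by norm_num) (by norm_num) (by norm_num) (by norm_num) (by norm_num)
      (by norm_num) (by norm_num) (by norm_num) (by norm_num) (by ring)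
  rcases le_or_gt x (7/10) with c8 | c8
  · exact E1_piece x (13/20) (7/10) (107/174) (107/254) (107/334) (2518991/5000000) (591079/2000000) (401771/2000000)
      (231117916569/668750000) (152482781877/133750000) (435144198951/334375000)
      (42443712513/83593750)
      (by linarith) (by linarith) h1 h2
      (by norm_num) (by norm_num) (by norm_num) (by norm_num) (by norm_num) (by norm_num)
      (by norm_num) (by norm_num) (by norm_num) (by norm_num) (by norm_num) (by norm_num)
      (by norm_num) (by norm_num) (by norm_num) (by norm_num) (by ring)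
  rcases le_or_gt x (3/4) with c9 | c9
  · exact E1_piece x (7/10) (3/4) (109/178) (109/258) (109/338) (5008171/10000000) (1483739/5000000) (2027677/10000000)
      (21626956311/42578125) (301073320901/170312500) (56489385547/27250000)
      (4436355507/5450000)
      (by linarith) (by linarith) h1 h2
      (by norm_num) (by norm_num) (by norm_num) (by norm_num) (by norm_num) (by norm_num)
      (by norm_num) (by norm_num) (by norm_num) (by norm_num) (by norm_num) (by norm_num)
      (by norm_num) (by norm_num) (by norm_num) (by norm_num) (by ring)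
  exact E1_piece x (3/4) (4/5) (111/182) (111/262) (37/114) (4979717/10000000) (1489603/5000000) (511527/2500000)
      (15058525607/18500000) (262019512607/92500000) (380159093191/115625000)
      (146848191449/115625000)
      (by linarith) (by linarith) h1 h2
      (by norm_num) (by norm_num) (by norm_num) (by norm_num) (by norm_num) (by norm_num)
      (by norm_num) (by norm_num) (by norm_num) (by norm_num) (by norm_num) (by norm_num)
      (by norm_num) (by norm_num) (by norm_num) (by norm_num) (by ring)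

theorem cert_ineq (x : ℝ) (h1 : 1 / 4 ≤ x) (h2 : x ≤ 4 / 5) :
    (1 + x / 2) ^ (-(141 / 100) : ℝ) ≤ (3 / 2 + x) ^ (-(141 / 100) : ℝ) +
      (5 / 2 + x) ^ (-(141 / 100) : ℝ) + (7 / 2 + x) ^ (-(141 / 100) : ℝ) := by
  have h := E1_all x h1 h2
  have hp : 0 < 1 + x / 2 := by linarith
  have key : ∀ c : ℝ, 0 < c → (c / 2 + x) ^ (-(141 / 100) : ℝ) =
      (1 + x / 2) ^ (-(141 / 100) : ℝ) * ((2 + x) / (c + 2 * x)) ^ (141 / 100 : ℝ) := by
    intro c hc
    have hc' : 0 < c / 2 + x := by linarith
    have h3 : (2 + x) / (c + 2 * x) = (1 + x / 2) / (c / 2 + x) := by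
      rw [div_eq_div_iff (by linarith) (by linarith)]
      ring
    rw [h3, Real.div_rpow hp.le hc'.le, Real.rpow_neg hp.le, Real.rpow_neg hc'.le]
    have h4 : (1 + x / 2) ^ (141 / 100 : ℝ) ≠ 0 := (Real.rpow_pos_of_pos hp _).ne'
    field_simp
  rw [key 3 (by norm_num), key 5 (by norm_num), key 7 (by norm_num), ← mul_add, ← mul_add]
  exact le_mul_of_one_le_right (Real.rpow_nonneg hp.le _) h

end Pool.Agent.LibNW69
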