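import Pool.Agent.LibNW69.E2

set_option autoImplicit false

namespace Pool.Agent.LibNW69

open Pool.Agent.LibNZ69

private theorem E3_large (a : ℕ) (c ε : ℝ) (hc0 : 0 < c) (hε : 0 < ε) : ∃ N : ℕ, 1 ≤ N ∧
    ∀ i : ℕ, N ≤ i → (a : ℝ) * (2 * i + 1) + 1 ≤ c * ((2 : ℝ) ^ ε) ^ i ∧
      2 ≤ ((2 : ℝ) ^ ε) ^ i := by
  have hr : 1 < (2 : ℝ) ^ ε := Real.one_lt_rpow (by norm_num) hε
  have hr0 : 0 < (2 : ℝ) ^ ε := by positivity
  have ht := tendsto_pow_const_div_const_pow_of_one_lt 1 hr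
  have hm : 0 < min (c / (3 * a + 1)) (1 / 2) := by
    apply lt_min
    · positivity
    · norm_num
  have hev := ht.eventually (gt_mem_nhds hm)
  obtain ⟨N, hN⟩ := Filter.eventually_atTop.1 hev
  refine ⟨max N 1, le_max_right _ _, fun i hi => ?_⟩
  have hNi : N ≤ i := le_trans (le_max_left _ _) hi
  have h1i : 1 ≤ i := le_trans (le_max_right _ _) hi
  have h := hN i hNi
  have hri : 0 < ((2 : ℝ) ^ ε) ^ i := pow_pos hr0 i
  have hA := lt_of_lt_of_le h (min_le_left _ _)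
  have hB := lt_of_lt_of_le h (min_le_right _ _)
  rw [pow_one, div_lt_iff₀ hri] at hA hB
  have h1 : (1 : ℝ) ≤ i := by exact_mod_cast h1i
  have ha0 : (0 : ℝ) ≤ a := Nat.cast_nonneg a
  constructor
  · have h3 : (0 : ℝ) < 3 * a + 1 := by positivity
    have h4 : (3 * (a : ℝ) + 1) * i < c * ((2 : ℝ) ^ ε) ^ i := by
      have := mul_lt_mul_of_pos_left hA h3
      have h5 : (3 * (a : ℝ) + 1) * (c / (3 * a + 1) * ((2 : ℝ) ^ ε) ^ i)
          = c * ((2 : ℝ) ^ ε) ^ i := by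
        field_simp
      rwa [h5] at this
    nlinarith [mul_nonneg ha0 (sub_nonneg.2 h1)]
  · nlinarith

/-- Row E3 (MEDIUM). Existence of the ensembles, as in row E3 of NZ69. With `a ≤ 2^L` (`L = a`
works: `a < 2^a`), the words of length `l` over `A` fall into the `L l + 1` dyadic classes
`2^i ≤ K(w) < 2^(i+1)`, so by `hc` one class has at least `c 2^(i σ) / (L l + 1)` elements; as it is
not empty `l / 2 ≤ i + 1`, so `L l + 1 ≤ L (2 i + 4) + 1`, hence for `i` large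
`c / (L l + 1) ≥ 2^(-i ε)`; put `B = 2^i` and cut the class down to at most `B^σ` elements. -/
theorem exists_ens (a : ℕ) (σ : ℝ) (e : ℤ × ℤ) (A : Finset ℕ) (c : ℝ) (ha : 4 ≤ a) (h1 : 1 < σ)
    (h2 : σ ≤ 3 / 2) (hg : Good a e) (hcop : IsCoprime e.1 e.2) (hel : e.2 ≤ (a : ℤ) ^ 2)
    (hA : ∀ x ∈ A, 1 ≤ x ∧ x < a) (hc0 : 0 < c)
    (hc : ∀ l : ℕ, c ≤ ∑ w ∈ wd (letters A) l, (((act w (0, 1)).2 : ℤ) : ℝ) ^ (-σ))
    (ε : ℝ) (hε : 0 < ε) (B₀ : ℕ) : ∃ (S : Finset (List ℕ)) (l B : ℕ),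
    Ens a σ e S l B ∧ B₀ ≤ B ∧ (B : ℝ) ^ (σ - ε) ≤ S.card ∧ ∀ b ∈ S, ∀ x ∈ b, x ∈ A := by
  obtain ⟨N, hN1, hN⟩ := E3_large a c ε hc0 hε
  set l' : ℕ := max (max B₀ (8 * a)) N with hl'
  set l : ℕ := 2 * l' with hl
  have hl'1 : 1 ≤ l' := le_trans hN1 (le_max_right _ _)
  have hl'B : B₀ ≤ l' := le_trans (le_max_left _ _) (le_max_left _ _)
  have hl'a : 8 * a ≤ l' := le_trans (le_max_right _ _) (le_max_left _ _)
  have hl'N : N ≤ l' := le_max_right _ _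
  have hσ0 : 0 < σ := by linarith
  -- the words
  have hmem : ∀ w ∈ wd (letters A) l, w.length = l ∧ ∀ x ∈ w, x ∈ A := fun w hw =>
    (mem_wd_letters A l w).1 hw
  have hdig : ∀ w ∈ wd (letters A) l, ∀ x ∈ w, 1 ≤ x ∧ x < a := fun w hw x hx =>
    hA x ((hmem w hw).2 x hx)
  have hb : ∀ w ∈ wd (letters A) l,
      (2 : ℤ) ^ l' ≤ (act w (0, 1)).2 ∧ (act w (0, 1)).2 ≤ (a : ℤ) ^ l := fun w hw => by
    have h := cont_bounds a w (hdig w hw)
    rw [(hmem w hw).1] at h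
    have h2 : l / 2 = l' := by omega
    rw [h2] at h
    exact h
  -- the classes
  let f : List ℕ → ℕ := fun w => Nat.log 2 (act w (0, 1)).2.toNat
  have hf : ∀ w ∈ wd (letters A) l, (2 : ℤ) ^ f w ≤ (act w (0, 1)).2 ∧
      (act w (0, 1)).2 < 2 * (2 : ℤ) ^ f w := fun w hw => by
    have h := (hb w hw).1
    have h0 : (0 : ℤ) < (act w (0, 1)).2 := lt_of_lt_of_le (by positivity) h
    obtain ⟨n, hn⟩ := Int.eq_ofNat_of_zero_le h0.le
    have hn0 : n ≠ 0 := by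
      rintro rfl
      simp [hn] at h0
    have hfn : f w = Nat.log 2 n := by
      simp only [f, hn, Int.toNat_natCast]
    rw [hfn, hn]
    constructor
    · exact_mod_cast Nat.pow_log_le_self 2 hn0
    · have := Nat.lt_pow_succ_log_self (b := 2) (by norm_num) n
      rw [Nat.pow_succ, mul_comm] at this
      exact_mod_cast this
  have hfr : ∀ w ∈ wd (letters A) l, f w ∈ Finset.range (a * l + 1) := fun w hw => by
    rw [Finset.mem_range, Nat.lt_succ_iff]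
    have h1 : (2 : ℤ) ^ f w ≤ (a : ℤ) ^ l := le_trans (hf w hw).1 (hb w hw).2
    have h2 : 2 ^ f w ≤ a ^ l := by exact_mod_cast h1
    have h3 : a ^ l ≤ (2 ^ a) ^ l := Nat.pow_le_pow_left Nat.lt_two_pow_self.le l
    rw [← pow_mul] at h3
    exact (Nat.pow_le_pow_iff_right (by norm_num)).1 (le_trans h2 h3)
  have hsum := hc l
  rw [← Finset.sum_fiberwise_of_maps_to hfr] at hsum
  -- pigeonhole
  have hne : (Finset.range (a * l + 1)).Nonempty := ⟨0, by simp⟩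
  obtain ⟨i, hi, hci⟩ : ∃ i ∈ Finset.range (a * l + 1), c / (a * l + 1) ≤
      ∑ w ∈ (wd (letters A) l).filter (fun w => f w = i),
        (((act w (0, 1)).2 : ℤ) : ℝ) ^ (-σ) := by
    apply Finset.exists_le_of_sum_le hne
    rw [Finset.sum_const, Finset.card_range, nsmul_eq_mul]
    refine le_trans (le_of_eq ?_) hsum
    push_cast
    field_simp
  set W := (wd (letters A) l).filter (fun w => f w = i) with hW
  have hWm : ∀ w ∈ W, w ∈ wd (letters A) l ∧ f w = i := fun w hw => by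
    rw [hW, Finset.mem_filter] at hw
    exact hw
  have hden : (0 : ℝ) < (a : ℝ) * l + 1 := by positivity
  have hcpos : 0 < c / ((a : ℝ) * l + 1) := div_pos hc0 hden
  have hWne : W.Nonempty := by
    rw [Finset.nonempty_iff_ne_empty]
    intro h0
    rw [h0, Finset.sum_empty] at hci
    linarith
  have hil : l' ≤ i := by
    obtain ⟨w, hw⟩ := hWne
    obtain ⟨hw1, hw2⟩ := hWm w hw
    have h1 := (hb w hw1).1
    have h2 := (hf w hw1).2
    rw [hw2] at h2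
    have h3 : (2 : ℤ) ^ l' < 2 ^ (i + 1) := by
      rw [pow_succ]
      linarith
    have h4 := (pow_lt_pow_iff_right₀ (by norm_num : (1 : ℤ) < 2)).1 h3
    omega
  have h2i : (0 : ℝ) < (2 : ℝ) ^ i := by positivity
  -- the sum over the class
  have hcard : c / ((a : ℝ) * l + 1) ≤ W.card * ((2 : ℝ) ^ i) ^ (-σ) := by
    refine le_trans hci ?_
    rw [← nsmul_eq_mul]
    apply Finset.sum_le_card_nsmul
    intro w hw
    obtain ⟨hw1, hw2⟩ := hWm w hw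
    have h1 := (hf w hw1).1
    rw [hw2] at h1
    apply Real.rpow_le_rpow_of_nonpos h2i _ (by linarith)
    exact_mod_cast h1
  have hBσ : (0 : ℝ) < ((2 : ℝ) ^ i) ^ σ := Real.rpow_pos_of_pos h2i σ
  have hcard2 : c * ((2 : ℝ) ^ i) ^ σ ≤ W.card * ((a : ℝ) * l + 1) := by
    rw [Real.rpow_neg h2i.le, ← div_eq_mul_inv, div_le_div_iff₀ hden hBσ] at hcard
    exact hcard
  obtain ⟨hN2, hN3⟩ := hN i (le_trans hl'N hil)
  have hre : ((2 : ℝ) ^ ε) ^ i = ((2 : ℝ) ^ i) ^ ε := by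
    rw [← Real.rpow_natCast ((2 : ℝ) ^ ε) i, ← Real.rpow_mul (by norm_num),
      ← Real.rpow_natCast (2 : ℝ) i, ← Real.rpow_mul (by norm_num), mul_comm]
  rw [hre] at hN2 hN3
  have hsplit : ((2 : ℝ) ^ i) ^ σ = ((2 : ℝ) ^ i) ^ (σ - ε) * ((2 : ℝ) ^ i) ^ ε := by
    rw [← Real.rpow_add h2i]
    congr 1
    ring
  have hBe : (0 : ℝ) < ((2 : ℝ) ^ i) ^ (σ - ε) := Real.rpow_pos_of_pos h2i _
  have hlast : ((2 : ℝ) ^ i) ^ (σ - ε) ≤ W.card := by
    have hl2 : (a : ℝ) * l + 1 ≤ a * (2 * i + 1) + 1 := by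
      have h1 : (l : ℝ) ≤ 2 * i + 1 := by
        have : l ≤ 2 * i + 1 := by omega
        exact_mod_cast this
      have h2 : (0 : ℝ) ≤ a := Nat.cast_nonneg a
      nlinarith [mul_le_mul_of_nonneg_left h1 h2]
    have h5 : (a : ℝ) * l + 1 ≤ c * ((2 : ℝ) ^ i) ^ ε := le_trans hl2 hN2
    have h6 : ((2 : ℝ) ^ i) ^ (σ - ε) * ((a : ℝ) * l + 1) ≤ W.card * ((a : ℝ) * l + 1) := by
      refine le_trans (mul_le_mul_of_nonneg_left h5 hBe.le) (le_trans (le_of_eq ?_) hcard2)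
      rw [hsplit]
      ring
    exact le_of_mul_le_mul_right h6 hden
  -- the cardinality of the ensemble
  have hone : 1 ≤ ((2 : ℝ) ^ i) ^ σ / 2 := by
    have h1 : (2 : ℝ) ^ i ≤ ((2 : ℝ) ^ i) ^ σ := by
      have h2 : (1 : ℝ) ≤ (2 : ℝ) ^ i := one_le_pow₀ (by norm_num)
      calc (2 : ℝ) ^ i = ((2 : ℝ) ^ i) ^ (1 : ℝ) := (Real.rpow_one _).symm
        _ ≤ ((2 : ℝ) ^ i) ^ σ := Real.rpow_le_rpow_of_exponent_le h2 h1.le
    have h3 : (2 : ℝ) ≤ (2 : ℝ) ^ i := by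
      calc (2 : ℝ) = (2 : ℝ) ^ 1 := (pow_one _).symm
        _ ≤ (2 : ℝ) ^ i := pow_le_pow_right₀ (by norm_num) (by omega)
    linarith
  have hhalf : ((2 : ℝ) ^ i) ^ (σ - ε) ≤ ((2 : ℝ) ^ i) ^ σ / 2 := by
    rw [hsplit]
    have := mul_le_mul_of_nonneg_left hN3 hBe.le
    linarith
  have hm1 : ((2 : ℝ) ^ i) ^ (σ - ε) ≤ (⌊((2 : ℝ) ^ i) ^ σ⌋₊ : ℕ) := by
    have := Nat.lt_floor_add_one (((2 : ℝ) ^ i) ^ σ)
    linarith
  obtain ⟨S, hSW, hSc⟩ := Finset.exists_subset_card_eq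
    (min_le_left W.card ⌊((2 : ℝ) ^ i) ^ σ⌋₊)
  have hSlow : ((2 : ℝ) ^ i) ^ (σ - ε) ≤ S.card := by
    rw [hSc]
    push_cast
    exact le_min hlast hm1
  have hBcast : (((2 ^ i : ℕ) : ℕ) : ℝ) = (2 : ℝ) ^ i := by push_cast; rfl
  refine ⟨S, l, 2 ^ i, ⟨ha, h1, h2, hg, hcop, hel, by omega, ?_, ?_, ?_, ?_, ?_, ?_, ?_⟩,
    ?_, ?_, ?_⟩
  · have h3 : a ^ 8 ≤ (2 ^ a) ^ 8 := Nat.pow_le_pow_left Nat.lt_two_pow_self.le 8
    rw [← pow_mul] at h3
    exact le_trans h3 (Nat.pow_le_pow_right (by norm_num) (by omega))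
  · exact fun b hb' => (hmem b (hWm b (hSW hb')).1).1
  · exact fun b hb' => hdig b (hWm b (hSW hb')).1
  · intro b hb'
    obtain ⟨hw1, hw2⟩ := hWm b (hSW hb')
    have := (hf b hw1).1
    rw [hw2] at this
    push_cast
    exact this
  · intro b hb'
    obtain ⟨hw1, hw2⟩ := hWm b (hSW hb')
    have := (hf b hw1).2
    rw [hw2] at this
    push_cast
    exact this
  · rw [← Finset.card_pos]
    have : (0 : ℝ) < S.card := lt_of_lt_of_le hBe hSlow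
    exact_mod_cast this
  · rw [hBcast, hSc]
    push_cast
    exact le_trans (min_le_right _ _) (Nat.floor_le hBσ.le)
  · exact le_trans (le_trans hl'B hil) Nat.lt_two_pow_self.le
  · rw [hBcast]
    exact hSlow
  · exact fun b hb' => (hmem b (hWm b (hSW hb')).1).2

end Pool.Agent.LibNW69
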