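import Pool.Agent.LibNW69.Defs

set_option autoImplicit false

namespace Pool.Agent.LibNW69

open Pool.Agent.LibNZ69

/-- The value of the continued fraction `[a_1, ..., a_k]`. -/
def cf : List ℕ → ℚ
  | [] => 0
  | a :: l => 1 / ((a : ℚ) + cf l)

/-- The integers `d ≥ 2` for which some `b` with `1 ≤ b < d`, prime to `d`, has
`b / d = [a_1, ..., a_k]` with all `a_j` in `A` and with `a_k ≥ 2`. -/
def D (A : Finset ℕ) : Set ℕ :=
  {d | 2 ≤ d ∧ ∃ b : ℕ, 1 ≤ b ∧ b < d ∧ b.Coprime d ∧ ∃ (l : List ℕ) (h : l ≠ []),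
    (∀ x ∈ l, x ∈ A) ∧ 2 ≤ l.getLast h ∧ (b : ℚ) / d = cf l}

/-- the Gauss map -/
noncomputable def gauss (x : ℝ) : ℝ := Int.fract x⁻¹

/-- the irrationals in `(0, 1)` with all partial quotients in `A` -/
def E (A : Finset ℕ) : Set ℝ :=
  {x | 0 < x ∧ x < 1 ∧ Irrational x ∧ ∀ n : ℕ, ∃ k ∈ A, ⌊(gauss^[n] x)⁻¹⌋ = (k : ℤ)}

end Pool.Agent.LibNW69
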