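import Pool.Agent.LibNW69.Defs
import Pool.Agent.LibNZ69.G1

set_option autoImplicit false

namespace Pool.Agent.LibNW69

open Pool.Agent.LibNZ69

/-- one coordinate of the size of `z` -/
private theorem G1_coord {M H k q : ℕ} {b : ℤ} {k' q' : ℕ} {b' : ℤ} (a B n₁ n₂ i j : ℕ)
    (ha : 4 ≤ a) (hB : a ^ 8 ≤ B)
    (hM : M = a ^ 4 * (a * B) ^ (n₁ + n₂) + 1) (hH : 8 * (H * (a * B) ^ n₁) ≤ M)
    (hk : Fr M B i j k q b) (hk' : Fr M B i j k' q' b') {v v' z t : ℤ}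
    (hv : |v| ≤ (a : ℤ) ^ 2 * (a * B) ^ n₂) (hv' : |v'| ≤ (a : ℤ) ^ 2 * (a * B) ^ n₂)
    (ht : |t| < H)
    (h : (M : ℤ) * z = ((q : ℤ) * q') * t - ((q' : ℤ) * ((q : ℤ) * k - b * M)) * v +
      ((q : ℤ) * ((q' : ℤ) * k' - b' * M)) * v') :
    |z| ≤ ((2 * B ^ (3 + 2 * i + j) / (a * B) ^ n₁ : ℕ) : ℤ) := by
  have hap : (4 : ℤ) ≤ a := by exact_mod_cast ha
  have ha0 : (0 : ℤ) < a := by linarith
  have hB1n : 1 ≤ B := le_trans (Nat.one_le_pow _ _ (by omega)) hB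
  have hB1 : (1 : ℤ) ≤ B := by exact_mod_cast hB1n
  have hBp : (0 : ℤ) < B := by linarith
  have hMp : (0 : ℤ) < M := by
    rw [hM]
    positivity
  have hMz : (M : ℤ) = (a : ℤ) ^ 4 * (a * B) ^ (n₁ + n₂) + 1 := by rw [hM]; push_cast; ring
  have hHz : 8 * ((H : ℤ) * (a * B) ^ n₁) ≤ M := by exact_mod_cast hH
  have hq : (q : ℤ) ≤ (B : ℤ) ^ (i + 1) := by exact_mod_cast hk.qhi.le
  have hq' : (q' : ℤ) ≤ (B : ℤ) ^ (i + 1) := by exact_mod_cast hk'.qhi.le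
  have hq0 : (0 : ℤ) ≤ q := Int.natCast_nonneg q
  have hq0' : (0 : ℤ) ≤ q' := Int.natCast_nonneg q'
  have hP : (0 : ℤ) < ((a : ℤ) * B) ^ n₁ := by positivity
  have hP2 : (0 : ℤ) < ((a : ℤ) * B) ^ n₂ := by positivity
  have hBj : (0 : ℤ) < (B : ℤ) ^ (j + 1) := by positivity
  -- the bound of the right side
  have h1 : |(M : ℤ) * z| ≤
      ((q : ℤ) * q') * (H + 2 * ((B : ℤ) ^ (j + 1) * ((a : ℤ) ^ 2 * (a * B) ^ n₂))) := by
    rw [h]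
    have b1 : |((q : ℤ) * q') * t| ≤ ((q : ℤ) * q') * H := by
      rw [abs_mul, abs_of_nonneg (mul_nonneg hq0 hq0')]
      exact mul_le_mul_of_nonneg_left ht.le (mul_nonneg hq0 hq0')
    have b2 : |((q' : ℤ) * ((q : ℤ) * k - b * M)) * v| ≤
        ((q : ℤ) * q') * ((B : ℤ) ^ (j + 1) * ((a : ℤ) ^ 2 * (a * B) ^ n₂)) := by
      rw [abs_mul, abs_mul, abs_of_nonneg hq0']
      calc (q' : ℤ) * |(q : ℤ) * k - b * M| * |v|
          ≤ (q' : ℤ) * ((B : ℤ) ^ (j + 1) * q) * ((a : ℤ) ^ 2 * (a * B) ^ n₂) := by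
            refine mul_le_mul (mul_le_mul_of_nonneg_left hk.rhi.le hq0') hv (abs_nonneg _) ?_
            positivity
        _ = _ := by ring
    have b3 : |((q : ℤ) * ((q' : ℤ) * k' - b' * M)) * v'| ≤
        ((q : ℤ) * q') * ((B : ℤ) ^ (j + 1) * ((a : ℤ) ^ 2 * (a * B) ^ n₂)) := by
      rw [abs_mul, abs_mul, abs_of_nonneg hq0]
      calc (q : ℤ) * |(q' : ℤ) * k' - b' * M| * |v'|
          ≤ (q : ℤ) * ((B : ℤ) ^ (j + 1) * q') * ((a : ℤ) ^ 2 * (a * B) ^ n₂) := by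
            refine mul_le_mul (mul_le_mul_of_nonneg_left hk'.rhi.le hq0) hv' (abs_nonneg _) ?_
            positivity
        _ = _ := by ring
    have b4 := abs_add_le (((q : ℤ) * q') * t - ((q' : ℤ) * ((q : ℤ) * k - b * M)) * v)
      (((q : ℤ) * ((q' : ℤ) * k' - b' * M)) * v')
    have b5 : |((q : ℤ) * q') * t - ((q' : ℤ) * ((q : ℤ) * k - b * M)) * v| ≤
        |((q : ℤ) * q') * t| + |((q' : ℤ) * ((q : ℤ) * k - b * M)) * v| := by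
      have := abs_add_le (((q : ℤ) * q') * t) (-(((q' : ℤ) * ((q : ℤ) * k - b * M)) * v))
      rwa [abs_neg, ← sub_eq_add_neg] at this
    calc _ ≤ _ := b4
      _ ≤ ((q : ℤ) * q') * H + ((q : ℤ) * q') * ((B : ℤ) ^ (j + 1) * ((a : ℤ) ^ 2 * (a * B) ^ n₂)) +
          ((q : ℤ) * q') * ((B : ℤ) ^ (j + 1) * ((a : ℤ) ^ 2 * (a * B) ^ n₂)) :=
        add_le_add (b5.trans (add_le_add b1 b2)) b3
      _ = _ := by ring
  have h2 : ((q : ℤ) * q') ≤ (B : ℤ) ^ (2 * i + 2) := by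
    calc (q : ℤ) * q' ≤ (B : ℤ) ^ (i + 1) * (B : ℤ) ^ (i + 1) :=
          mul_le_mul hq hq' hq0' (by positivity)
      _ = (B : ℤ) ^ (2 * i + 2) := by ring
  have h3 : (M : ℤ) * (|z| * (a * B) ^ n₁) ≤
      M * (2 * (B : ℤ) ^ (3 + 2 * i + j)) := by
    have c1 : (M : ℤ) * (|z| * (a * B) ^ n₁) = |(M : ℤ) * z| * (a * B) ^ n₁ := by
      rw [abs_mul, abs_of_pos hMp]
      ring
    rw [c1]
    have c2 : |(M : ℤ) * z| * (a * B) ^ n₁ ≤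
        ((B : ℤ) ^ (2 * i + 2) * (H + 2 * ((B : ℤ) ^ (j + 1) * ((a : ℤ) ^ 2 * (a * B) ^ n₂)))) *
          (a * B) ^ n₁ := by
      refine mul_le_mul_of_nonneg_right (h1.trans ?_) hP.le
      refine mul_le_mul_of_nonneg_right h2 ?_
      positivity
    refine c2.trans ?_
    have c3 : ((B : ℤ) ^ (2 * i + 2) *
        (H + 2 * ((B : ℤ) ^ (j + 1) * ((a : ℤ) ^ 2 * (a * B) ^ n₂)))) *
        (a * B) ^ n₁ = (B : ℤ) ^ (2 * i + 2) * ((H * (a * B) ^ n₁) +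
          (B : ℤ) ^ (j + 1) * (2 * (a : ℤ) ^ 2 * (a * B) ^ (n₁ + n₂))) := by
      rw [pow_add ((a : ℤ) * (B : ℤ)) n₁ n₂]
      ring
    rw [c3]
    have c4 : (H : ℤ) * (a * B) ^ n₁ + (B : ℤ) ^ (j + 1) * (2 * (a : ℤ) ^ 2 * (a * B) ^ (n₁ + n₂)) ≤
        M * (2 * (B : ℤ) ^ (j + 1)) := by
      have e0 : (2 : ℤ) ≤ (a : ℤ) ^ 2 := by nlinarith
      have d0 : 2 * (a : ℤ) ^ 2 ≤ (a : ℤ) ^ 4 := by
        calc 2 * (a : ℤ) ^ 2 ≤ (a : ℤ) ^ 2 * (a : ℤ) ^ 2 :=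
              mul_le_mul_of_nonneg_right e0 (by positivity)
          _ = (a : ℤ) ^ 4 := by ring
      have d1 : 2 * (a : ℤ) ^ 2 * (a * B) ^ (n₁ + n₂) ≤ M := by
        rw [hMz]
        have : 2 * (a : ℤ) ^ 2 * (a * B) ^ (n₁ + n₂) ≤ (a : ℤ) ^ 4 * (a * B) ^ (n₁ + n₂) :=
          mul_le_mul_of_nonneg_right d0 (by positivity)
        linarith
      have d2 : (B : ℤ) ^ (j + 1) * (2 * (a : ℤ) ^ 2 * (a * B) ^ (n₁ + n₂)) ≤
          (B : ℤ) ^ (j + 1) * M :=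
        mul_le_mul_of_nonneg_left d1 hBj.le
      have d3 : (1 : ℤ) ≤ (B : ℤ) ^ (j + 1) := one_le_pow₀ hB1
      have d4 : (M : ℤ) * 1 ≤ M * (B : ℤ) ^ (j + 1) := mul_le_mul_of_nonneg_left d3 hMp.le
      have d5 : (0 : ℤ) ≤ (H : ℤ) * (a * B) ^ n₁ := by positivity
      linarith
    calc (B : ℤ) ^ (2 * i + 2) * ((H * (a * B) ^ n₁) +
          (B : ℤ) ^ (j + 1) * (2 * (a : ℤ) ^ 2 * (a * B) ^ (n₁ + n₂)))
        ≤ (B : ℤ) ^ (2 * i + 2) * (M * (2 * (B : ℤ) ^ (j + 1))) :=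
          mul_le_mul_of_nonneg_left c4 (by positivity)
      _ = M * (2 * (B : ℤ) ^ (3 + 2 * i + j)) := by
          have : (B : ℤ) ^ (3 + 2 * i + j) = (B : ℤ) ^ (2 * i + 2) * (B : ℤ) ^ (j + 1) := by
            rw [← pow_add]
            congr 1
            ring
          rw [this]
          ring
  have h4 : |z| * (a * B) ^ n₁ ≤ 2 * (B : ℤ) ^ (3 + 2 * i + j) := le_of_mul_le_mul_left h3 hMp
  rw [Int.natCast_div]
  push_cast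
  rw [Int.le_ediv_iff_mul_le hP]
  exact h4

/-- Row G1 (SHORT). Size of `z`; the same as `nm_rel_le` of LibNZ69/G1.lean (finished) with other
constants. `M z = q q' t - q' r v + q r' v'` with `|r| ≤ B^(j+1) q`, `q, q' ≤ B^(i+1)`,
`nm v, nm v' ≤ a^2 (aB)^n₂`, so `M nm z ≤ B^(2i+2) (H + 2 a^2 B^(j+1) (aB)^n₂)`; multiply by
`(aB)^n₁`: `8 H (aB)^n₁ ≤ M` and `a^4 (aB)^(n₁+n₂) ≤ M`. -/
theorem nm_rel_le {M H k q : ℕ} {b : ℤ} {v : ℤ × ℤ} {k' q' : ℕ} {b' : ℤ} {v' z : ℤ × ℤ}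
    (h : Rel M H k q b v k' q' b' v' z) (a B n₁ n₂ i j : ℕ) (ha : 4 ≤ a) (hB : a ^ 8 ≤ B)
    (hM : M = a ^ 4 * (a * B) ^ (n₁ + n₂) + 1) (hH : 8 * (H * (a * B) ^ n₁) ≤ M)
    (hk : Fr M B i j k q b) (hk' : Fr M B i j k' q' b')
    (hv : nm v ≤ a ^ 2 * (a * B) ^ n₂) (hv' : nm v' ≤ a ^ 2 * (a * B) ^ n₂) :
    nm z ≤ ((2 * B ^ (3 + 2 * i + j) / (a * B) ^ n₁ : ℕ) : ℤ) := by
  obtain ⟨c, t, ht, -, h2⟩ := h
  have e1 := congrArg Prod.fst h2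
  have e2 := congrArg Prod.snd h2
  simp only [Prod.smul_fst, Prod.fst_sub, Prod.fst_add, smul_eq_mul] at e1
  simp only [Prod.smul_snd, Prod.snd_sub, Prod.snd_add, smul_eq_mul] at e2
  unfold nm at *
  refine max_le ?_ ?_
  · exact G1_coord a B n₁ n₂ i j ha hB hM hH hk hk' ((le_max_left _ _).trans hv)
      ((le_max_left _ _).trans hv') ((le_max_left _ _).trans_lt ht) e1
  · exact G1_coord a B n₁ n₂ i j ha hB hM hH hk hk' ((le_max_right _ _).trans hv)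
      ((le_max_right _ _).trans hv') ((le_max_right _ _).trans_lt ht) e2

end Pool.Agent.LibNW69
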