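import Pool.Agent.LibNW69.Defs
import Pool.Agent.LibNZ69.G3

set_option autoImplicit false

namespace Pool.Agent.LibNW69

open Pool.Agent.LibNZ69

/-! Row G3 (SHORT). The same as LibNZ69/G3.lean (finished; `rel_sub` is available from it) with other
constants. -/

/-- `|r''| |v' ∧ v''| ≤ q' · 2 nm v' nm τ ≤ q' 4 a^6 (aB)^(2 n₂)` and `B^j q' ≤ |r''|`; for `j = 0` use
`abs_wdg_le`. -/
theorem rel_wdg {M H k q : ℕ} {b : ℤ} {v : ℤ × ℤ} {q' : ℕ} {z : ℤ × ℤ} (hq : 1 ≤ q)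
    {k' : ℕ} {b' : ℤ} {v' : ℤ × ℤ} {k'' : ℕ} {b'' : ℤ} {v'' : ℤ × ℤ}
    (h' : Rel M H k q b v k' q' b' v' z) (h'' : Rel M H k q b v k'' q' b'' v'' z)
    (a B n₂ i j : ℕ) (ha : 4 ≤ a) (hB : a ^ 8 ≤ B)
    (hk' : Fr M B i j k' q' b') (hk'' : Fr M B i j k'' q' b'')
    (hH : H ≤ a ^ 4 * (a * B) ^ n₂) (hv' : nm v' ≤ a ^ 2 * (a * B) ^ n₂)
    (hv'' : nm v'' ≤ a ^ 2 * (a * B) ^ n₂) :
    (q' : ℤ) ∣ wdg v' v'' ∧ |wdg v' v''| * (B : ℤ) ^ j ≤ a ^ 7 * (a * B) ^ (2 * n₂) := by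
  obtain ⟨⟨ζ, hζ⟩, τ, hτ, hτe⟩ := rel_sub hq h' h''
  have h1 := congrArg Prod.fst hζ
  have h2 := congrArg Prod.snd hζ
  have h3 := congrArg Prod.fst hτe
  have h4 := congrArg Prod.snd hτe
  simp only [Prod.smul_fst, Prod.smul_snd, Prod.fst_sub, Prod.snd_sub, smul_eq_mul] at h1 h2 h3 h4
  have hPP : ((a : ℤ) * B) ^ (2 * n₂) = ((a : ℤ) * B) ^ n₂ * ((a : ℤ) * B) ^ n₂ := by
    rw [two_mul, pow_add]
  have haz : (4 : ℤ) ≤ a := by exact_mod_cast ha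
  have hP : (0 : ℤ) ≤ ((a : ℤ) * B) ^ n₂ := by positivity
  have hPP0 : (0 : ℤ) ≤ ((a : ℤ) * B) ^ n₂ * ((a : ℤ) * B) ^ n₂ := mul_nonneg hP hP
  have ha6 : (0 : ℤ) ≤ (a : ℤ) ^ 6 := by positivity
  have hn1 := nm_nonneg v'
  have hn2 := nm_nonneg v''
  constructor
  · have e : b'' * wdg v' v'' = (q' : ℤ) * wdg ζ v' := by
      unfold wdg
      linear_combination v'.2 * h1 - v'.1 * h2
    exact hk''.cop.symm.dvd_of_dvd_mul_left ⟨_, e⟩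
  · rcases hk''.rlo with hj | hj
    · subst hj
      rw [pow_zero, mul_one, hPP]
      refine (abs_wdg_le v' v'').trans ?_
      have h5 := mul_le_mul hv' hv'' hn2 (by positivity)
      have h6 : (2 : ℤ) * (a : ℤ) ^ 4 ≤ (a : ℤ) ^ 7 := by
        have h8 : (4 : ℤ) ^ 3 ≤ (a : ℤ) ^ 3 := pow_le_pow_left₀ (by norm_num) haz 3
        have h9 : (0 : ℤ) ≤ (a : ℤ) ^ 4 := by positivity
        nlinarith
      calc 2 * (nm v' * nm v'')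
          ≤ 2 * ((a : ℤ) ^ 2 * ((a : ℤ) * B) ^ n₂ * ((a : ℤ) ^ 2 * ((a : ℤ) * B) ^ n₂)) := by
            linarith
        _ = 2 * (a : ℤ) ^ 4 * (((a : ℤ) * B) ^ n₂ * ((a : ℤ) * B) ^ n₂) := by ring
        _ ≤ (a : ℤ) ^ 7 * (((a : ℤ) * B) ^ n₂ * ((a : ℤ) * B) ^ n₂) :=
            mul_le_mul_of_nonneg_right h6 hPP0
    · have hqp : (0 : ℤ) < q' := by
        have hB1 : 1 ≤ B := (Nat.one_le_pow 8 a (by omega)).trans hB
        have h5 : 1 ≤ q' := (Nat.one_le_pow _ _ (by omega)).trans hk''.qlo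
        exact_mod_cast h5
      have e : ((q' : ℤ) * k'' - b'' * M) * wdg v' v'' = (q' : ℤ) * wdg τ v' := by
        unfold wdg
        linear_combination v'.2 * h3 - v'.1 * h4
      have e' : |(q' : ℤ) * k'' - b'' * M| * |wdg v' v''| = (q' : ℤ) * |wdg τ v'| := by
        rw [← abs_mul, e, abs_mul, abs_of_pos hqp]
      have h6 : |wdg τ v'| ≤ 2 * (nm τ * nm v') := abs_wdg_le τ v'
      have hHz : (H : ℤ) ≤ (a : ℤ) ^ 4 * ((a : ℤ) * B) ^ n₂ := by exact_mod_cast hH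
      have h7 : nm τ * nm v' ≤ (2 * ((a : ℤ) ^ 4 * ((a : ℤ) * B) ^ n₂)) *
          ((a : ℤ) ^ 2 * ((a : ℤ) * B) ^ n₂) :=
        mul_le_mul (by linarith) hv' hn1 (by positivity)
      have h8 : |wdg τ v'| ≤ (a : ℤ) ^ 7 * ((a : ℤ) * B) ^ (2 * n₂) := by
        rw [hPP]
        calc |wdg τ v'| ≤ 2 * ((2 * ((a : ℤ) ^ 4 * ((a : ℤ) * B) ^ n₂)) *
              ((a : ℤ) ^ 2 * ((a : ℤ) * B) ^ n₂)) := h6.trans (by linarith)
          _ = 4 * (a : ℤ) ^ 6 * (((a : ℤ) * B) ^ n₂ * ((a : ℤ) * B) ^ n₂) := by ring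
          _ ≤ (a : ℤ) ^ 7 * (((a : ℤ) * B) ^ n₂ * ((a : ℤ) * B) ^ n₂) := by
              refine mul_le_mul_of_nonneg_right ?_ hPP0
              nlinarith
      have h9 : (B : ℤ) ^ j * q' * |wdg v' v''| ≤
          (q' : ℤ) * ((a : ℤ) ^ 7 * ((a : ℤ) * B) ^ (2 * n₂)) := by
        calc (B : ℤ) ^ j * q' * |wdg v' v''|
            ≤ |(q' : ℤ) * k'' - b'' * M| * |wdg v' v''| :=
              mul_le_mul_of_nonneg_right hj (abs_nonneg _)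
          _ = (q' : ℤ) * |wdg τ v'| := e'
          _ ≤ _ := mul_le_mul_of_nonneg_left h8 hqp.le
      refine le_of_mul_le_mul_left ?_ hqp
      calc (q' : ℤ) * (|wdg v' v''| * (B : ℤ) ^ j) = (B : ℤ) ^ j * q' * |wdg v' v''| := by ring
        _ ≤ _ := h9

/-- the same vector: `|k' - k'' - c M| nm v' ≤ 2 H ≤ 2 a^4 (aB)^n₂`. -/
theorem rel_same {M H k q : ℕ} {b : ℤ} {v : ℤ × ℤ} {q' : ℕ} {z : ℤ × ℤ} (hq : 1 ≤ q)
    (hq' : 1 ≤ q') {k' : ℕ} {b' : ℤ} {v' : ℤ × ℤ} {k'' : ℕ} {b'' : ℤ}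
    (h' : Rel M H k q b v k' q' b' v' z) (h'' : Rel M H k q b v k'' q' b'' v' z)
    (a B n₂ : ℕ) (ha : 4 ≤ a) (hB : a ^ 8 ≤ B) (hv : IsCoprime v'.1 v'.2)
    (hH : H ≤ a ^ 4 * (a * B) ^ n₂) (hv' : (B : ℤ) ^ n₂ ≤ a ^ n₂ * nm v') :
    ∃ c : ℤ, |(k' : ℤ) - k'' - c * M| ≤ a ^ (2 * n₂ + 5) := by
  obtain ⟨⟨ζ, hζ⟩, τ, hτ, hτe⟩ := rel_sub hq h' h''
  have h1 := congrArg Prod.fst hζ
  have h2 := congrArg Prod.snd hζ
  have h3 := congrArg Prod.fst hτe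
  have h4 := congrArg Prod.snd hτe
  simp only [Prod.smul_fst, Prod.smul_snd, Prod.fst_sub, Prod.snd_sub, smul_eq_mul] at h1 h2 h3 h4
  have haz : (4 : ℤ) ≤ a := by exact_mod_cast ha
  have hq0 : (q' : ℤ) ≠ 0 := by
    have : (1 : ℤ) ≤ q' := by exact_mod_cast hq'
    omega
  obtain ⟨s, t, hst⟩ := hv
  have hc : b' - b'' = (q' : ℤ) * (s * ζ.1 + t * ζ.2) := by
    linear_combination (-(b' - b'')) * hst + s * h1 + t * h2
  refine ⟨s * ζ.1 + t * ζ.2, ?_⟩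
  generalize s * ζ.1 + t * ζ.2 = c at hc
  have e1 : ((k' : ℤ) - k'' - c * M) * v'.1 = τ.1 := by
    refine mul_left_cancel₀ hq0 ?_
    linear_combination h3 + M * v'.1 * hc
  have e2 : ((k' : ℤ) - k'' - c * M) * v'.2 = τ.2 := by
    refine mul_left_cancel₀ hq0 ?_
    linear_combination h4 + M * v'.2 * hc
  have e : ((k' : ℤ) - k'' - c * M) • v' = τ := Prod.ext e1 e2
  have en : |(k' : ℤ) - k'' - c * M| * nm v' ≤ 2 * H := by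
    rw [← nm_smul, e]
    exact hτ
  have hHz : (H : ℤ) ≤ (a : ℤ) ^ 4 * ((a : ℤ) * B) ^ n₂ := by exact_mod_cast hH
  have hBp : (0 : ℤ) < (B : ℤ) ^ n₂ := by
    have hB1 : 1 ≤ B := (Nat.one_le_pow 8 a (by omega)).trans hB
    have : (0 : ℤ) < B := by exact_mod_cast hB1
    positivity
  refine le_of_mul_le_mul_right ?_ hBp
  calc |(k' : ℤ) - k'' - c * M| * (B : ℤ) ^ n₂
      ≤ |(k' : ℤ) - k'' - c * M| * ((a : ℤ) ^ n₂ * nm v') :=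
        mul_le_mul_of_nonneg_left hv' (abs_nonneg _)
    _ = (a : ℤ) ^ n₂ * (|(k' : ℤ) - k'' - c * M| * nm v') := by ring
    _ ≤ (a : ℤ) ^ n₂ * (2 * ((a : ℤ) ^ 4 * ((a : ℤ) * B) ^ n₂)) :=
        mul_le_mul_of_nonneg_left (by linarith) (by positivity)
    _ = 2 * ((a : ℤ) ^ (2 * n₂ + 4) * (B : ℤ) ^ n₂) := by
        rw [mul_pow]
        ring
    _ ≤ (a : ℤ) * ((a : ℤ) ^ (2 * n₂ + 4) * (B : ℤ) ^ n₂) :=
        mul_le_mul_of_nonneg_right (by linarith) (by positivity)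
    _ = (a : ℤ) ^ (2 * n₂ + 5) * (B : ℤ) ^ n₂ := by ring

end Pool.Agent.LibNW69
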