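import Pool.Agent.LibNW69.S1

set_option autoImplicit false

namespace Pool.Agent.LibNW69

open Pool.Agent.LibNZ69

private lemma S2_wdg_le (x y : ℤ × ℤ) : |wdg x y| ≤ 2 * (nm x * nm y) := by
  have h1 : |x.1| ≤ nm x := le_max_left _ _
  have h2 : |x.2| ≤ nm x := le_max_right _ _
  have h3 : |y.1| ≤ nm y := le_max_left _ _
  have h4 : |y.2| ≤ nm y := le_max_right _ _
  have h5 : |x.1 * y.2| ≤ nm x * nm y := by
    rw [abs_mul]
    exact mul_le_mul h1 h4 (abs_nonneg _) (le_trans (abs_nonneg _) h1)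
  have h6 : |x.2 * y.1| ≤ nm x * nm y := by
    rw [abs_mul]
    exact mul_le_mul h2 h3 (abs_nonneg _) (le_trans (abs_nonneg _) h2)
  have h7 : |wdg x y| ≤ |x.1 * y.2| + |x.2 * y.1| := abs_sub _ _
  linarith

/-- the last `t` blocks are determined by the class modulo `q` and the first blocks -/
private lemma S2_last {a : ℕ} {σ : ℝ} {e : ℤ × ℤ} {S : Finset (List ℕ)} {l B : ℕ}
    (hE : Ens a σ e S l B) (t q : ℕ)
    (ht : t = 0 ∨ 2 * (a : ℤ) ^ 4 * ((a : ℤ) * (B : ℤ)) ^ (2 * t) < q) (u s s' : List ℕ)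
    (hs : s ∈ wd S t)
    (hs' : s' ∈ wd S t) (h : (q : ℤ) ∣ wdg (vec e (u ++ s)) (vec e (u ++ s'))) : s = s' := by
  rcases ht with ht | ht
  · subst ht
    simp only [wd, Finset.mem_singleton] at hs hs'
    rw [hs, hs']
  · have h1 : (q : ℤ) ∣ wdg (vec e s) (vec e s') := by
      rw [vec_append, vec_append] at h
      exact (dvd_wdg_act _ _ _ _).1 h
    have hn : nm (vec e s) ≤ a ^ 2 * (a * B) ^ t := nm_vec_le hE hs
    have hn' : nm (vec e s') ≤ a ^ 2 * (a * B) ^ t := nm_vec_le hE hs'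
    have h0 : 0 ≤ nm (vec e s) := le_trans (abs_nonneg _) (le_max_left _ _)
    have h0' : 0 ≤ nm (vec e s') := le_trans (abs_nonneg _) (le_max_left _ _)
    have h2 : |wdg (vec e s) (vec e s')| < q := by
      have h3 := S2_wdg_le (vec e s) (vec e s')
      have h4 : nm (vec e s) * nm (vec e s') ≤ ((a : ℤ) ^ 2 * ((a : ℤ) * (B : ℤ)) ^ t) *
          ((a : ℤ) ^ 2 * ((a : ℤ) * (B : ℤ)) ^ t) :=
        mul_le_mul hn hn' h0' (le_trans h0 hn)
      have h5 : ((a : ℤ) ^ 2 * ((a : ℤ) * (B : ℤ)) ^ t) * ((a : ℤ) ^ 2 * ((a : ℤ) * (B : ℤ)) ^ t) =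
          (a : ℤ) ^ 4 * ((a : ℤ) * (B : ℤ)) ^ (2 * t) := by
        rw [two_mul t, pow_add]
        ring
      rw [h5] at h4
      linarith
    have h3 : wdg (vec e s) (vec e s') = 0 := Int.eq_zero_of_abs_lt_dvd h1 h2
    have hl : s.length = s'.length := by rw [wd_len hE hs, wd_len hE hs']
    exact eq_of_wdg_vec a e hE.good s s' hl (wd_dig hE hs) (wd_dig hE hs') h3

/-- Row S2 (MEDIUM). The same as LibNZ69/S2.lean (finished) with other constants.
Let `m` be the least natural number with `a^(2m+1) Y < B^(2m)` and `m' = min m n`. By `sep_wd` all the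
words of `T` have the same first `n - m'` blocks. By minimality `B^(2m') ≤ B^2 a^(2n+1) Y` or
`m' = 0`. Let `t ≤ m'` be the largest number with `t = 0` or `2 (a^2 (aB)^t)^2 < q`. Given the first
`n - t` blocks, the last `t` blocks are determined: `q ∣ vec s ∧ vec s'`, and
`|vec s ∧ vec s'| ≤ 2 (a^2 (aB)^t)^2 < q` (`nm_vec_le`), so `s = s'` (`eq_of_wdg_vec`). So
`card T ≤ card (wd S (m' - t)) ≤ (B^(2 (m' - t)))^(σ/2)`; if `t = m'` this is `1`; if `t < m'` then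
`q ≤ 2 a^4 (aB)^(2t+2)` and so `B^(2(m'-t)) ≤ a^(2n+1) B^2 Y · 2 a^4 · a^(2n+2) B^2 / q`. -/
theorem countS {a : ℕ} {σ : ℝ} {e : ℤ × ℤ} {S : Finset (List ℕ)} {l B : ℕ}
    (hE : Ens a σ e S l B) (n q : ℕ) (hq : 1 ≤ q) (Y : ℝ)
    (hY : 0 ≤ Y) (T : Finset (List ℕ)) (hT : T ⊆ wd S n)
    (h1 : ∀ w ∈ T, ∀ w' ∈ T, (q : ℤ) ∣ wdg (vec e w) (vec e w'))
    (h2 : ∀ w ∈ T, ∀ w' ∈ T, (|wdg (vec e w) (vec e w')| : ℝ) ≤ Y) :
    (T.card : ℝ) ≤ (a : ℝ) ^ (20 * (n + 1)) * (B : ℝ) ^ 4 * max 1 ((Y / q) ^ (σ / 2)) := by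
  classical
  have ha4 : (4 : ℝ) ≤ a := by exact_mod_cast hE.a4
  have ha1 : (1 : ℝ) ≤ a := by linarith
  have ha0 : (0 : ℝ) < a := by linarith
  have hB8 : (a : ℝ) ^ 8 ≤ (B : ℝ) := by exact_mod_cast hE.big
  have haB : (a : ℝ) ≤ B := by
    have : (a : ℝ) ^ 1 ≤ (a : ℝ) ^ 8 := pow_le_pow_right₀ ha1 (by norm_num)
    linarith
  have hB1 : (1 : ℝ) ≤ (B : ℝ) := ha1.trans haB
  have hB0 : (0 : ℝ) < (B : ℝ) := lt_of_lt_of_le one_pos hB1
  have hq0 : (0 : ℝ) < (q : ℝ) := by exact_mod_cast hq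
  have hs1 := hE.s1
  have hs2 := hE.s2
  -- the number of blocks which may differ
  obtain ⟨m', hm'n, hsame, hm'B⟩ : ∃ m' ≤ n,
      (∀ w ∈ T, ∀ w' ∈ T, w.take ((n - m') * l) = w'.take ((n - m') * l)) ∧
      (m' = 0 ∨ (B : ℝ) ^ (2 * m') ≤ (B : ℝ) ^ 2 * (a : ℝ) ^ (2 * n + 1) * Y) := by
    have hex : ∃ m : ℕ, (a : ℝ) ^ (2 * m + 1) * Y < (B : ℝ) ^ (2 * m) := by
      have hgt : (1 : ℝ) < (B : ℝ) ^ 2 / (a : ℝ) ^ 2 := by
        rw [lt_div_iff₀ (by positivity), one_mul]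
        have h3 : (a : ℝ) ^ 2 < (a : ℝ) ^ 8 := pow_lt_pow_right₀ (by linarith) (by norm_num)
        have h4 : (B : ℝ) ≤ (B : ℝ) ^ 2 := by nlinarith
        linarith
      obtain ⟨m, hm⟩ := pow_unbounded_of_one_lt (a * Y) hgt
      refine ⟨m, ?_⟩
      rw [div_pow, lt_div_iff₀ (by positivity), ← pow_mul, ← pow_mul] at hm
      have e1 : (a : ℝ) ^ (2 * m + 1) * Y = a * Y * (a : ℝ) ^ (2 * m) := by
        rw [pow_succ]; ring
      rw [e1]
      exact hm
    set m := Nat.find hex with hmdef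
    have hm : (a : ℝ) ^ (2 * m + 1) * Y < (B : ℝ) ^ (2 * m) := Nat.find_spec hex
    have hmin : ∀ k < m, (B : ℝ) ^ (2 * k) ≤ (a : ℝ) ^ (2 * k + 1) * Y := by
      intro k hk
      exact not_lt.1 (Nat.find_min hex hk)
    rcases le_total m n with hmn | hmn
    · refine ⟨m, hmn, ?_, ?_⟩
      · intro w hw w' hw'
        by_contra hne
        have hw1 : w ∈ wd S ((n - m) + m) := by rw [Nat.sub_add_cancel hmn]; exact hT hw
        have hw1' : w' ∈ wd S ((n - m) + m) := by rw [Nat.sub_add_cancel hmn]; exact hT hw'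
        obtain ⟨a1, a2, a3⟩ := wd_split hE hw1
        obtain ⟨b1, b2, b3⟩ := wd_split hE hw1'
        have h3 := sep_wd hE a1 b1 a2 b2 hne
        rw [a3, b3] at h3
        have h4 : ((B : ℝ)) ^ (2 * m) ≤
            (a : ℝ) ^ (2 * m + 1) * |(wdg (vec e w) (vec e w') : ℝ)| := by
          exact_mod_cast h3
        have h5 := h2 w hw w' hw'
        have h6 : (a : ℝ) ^ (2 * m + 1) * |(wdg (vec e w) (vec e w') : ℝ)| ≤
            (a : ℝ) ^ (2 * m + 1) * Y :=
          mul_le_mul_of_nonneg_left h5 (by positivity)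
        linarith
      · rcases Nat.eq_zero_or_pos m with h0 | h0
        · exact Or.inl h0
        · right
          have h3 := hmin (m - 1) (by omega)
          have e1 : 2 * m = 2 + 2 * (m - 1) := by omega
          rw [e1, pow_add, mul_assoc]
          apply mul_le_mul_of_nonneg_left _ (by positivity)
          refine le_trans h3 (mul_le_mul_of_nonneg_right ?_ hY)
          exact pow_le_pow_right₀ ha1 (by omega)
    · refine ⟨n, le_refl _, ?_, ?_⟩
      · intro w _ w' _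
        simp
      · rcases eq_or_lt_of_le hmn with h0 | h0
        · rcases Nat.eq_zero_or_pos m with h00 | h00
          · left
            omega
          · right
            have h3 := hmin (m - 1) (by omega)
            have e1 : 2 * n = 2 + 2 * (m - 1) := by omega
            have e2 : (B : ℝ) ^ (2 * n) = (B : ℝ) ^ 2 * (B : ℝ) ^ (2 * (m - 1)) := by
              rw [e1, pow_add]
            rw [e2, mul_assoc]
            apply mul_le_mul_of_nonneg_left _ (by positivity)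
            refine le_trans h3 (mul_le_mul_of_nonneg_right ?_ hY)
            exact pow_le_pow_right₀ ha1 (by omega)
        · right
          have h3 := hmin n h0
          have h4 : (a : ℝ) ^ (2 * n + 1) * Y ≤ (B : ℝ) ^ 2 * ((a : ℝ) ^ (2 * n + 1) * Y) := by
            have h5 : (1 : ℝ) ≤ (B : ℝ) ^ 2 := one_le_pow₀ hB1
            have h6 : 0 ≤ (a : ℝ) ^ (2 * n + 1) * Y := by positivity
            nlinarith
          rw [mul_assoc]
          linarith
  -- the number of determined last blocks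
  obtain ⟨t, htm, ht, htmax⟩ : ∃ t ≤ m',
      (t = 0 ∨ 2 * (a : ℤ) ^ 4 * ((a : ℤ) * (B : ℤ)) ^ (2 * t) < q) ∧
      (t = m' ∨ (q : ℤ) ≤ 2 * (a : ℤ) ^ 4 * ((a : ℤ) * (B : ℤ)) ^ (2 * (t + 1))) := by
    let P : ℕ → Prop := fun t => t = 0 ∨ 2 * (a : ℤ) ^ 4 * ((a : ℤ) * (B : ℤ)) ^ (2 * t) < q
    have hP0 : P 0 := Or.inl rfl
    refine ⟨Nat.findGreatest P m', Nat.findGreatest_le _, ?_, ?_⟩
    · exact Nat.findGreatest_spec (P := P) (Nat.zero_le _) hP0
    · by_cases hc : Nat.findGreatest P m' = m'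
      · exact Or.inl hc
      · right
        have hlt : Nat.findGreatest P m' < m' := lt_of_le_of_ne (Nat.findGreatest_le _) hc
        have hnot : ¬ P (Nat.findGreatest P m' + 1) :=
          Nat.findGreatest_is_greatest (Nat.lt_succ_self _) hlt
        have hnot' : ¬ (2 * (a : ℤ) ^ 4 * ((a : ℤ) * (B : ℤ)) ^
            (2 * (Nat.findGreatest P m' + 1)) < q) :=
          fun hh => hnot (Or.inr hh)
        exact not_lt.1 hnot'
  -- the map to the middle blocks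
  set k := m' - t with hk
  have hnk : n = (n - m') + (k + t) := by omega
  let f : List ℕ → List ℕ := fun w => (w.drop ((n - m') * l)).take (k * l)
  have hsplit : ∀ w ∈ T, w.take ((n - m') * l) ∈ wd S (n - m') ∧ f w ∈ wd S k ∧
      (w.drop ((n - m') * l)).drop (k * l) ∈ wd S t ∧
      w = (w.take ((n - m') * l) ++ f w) ++ (w.drop ((n - m') * l)).drop (k * l) := by
    intro w hw
    have hw1 : w ∈ wd S ((n - m') + (k + t)) := by rw [← hnk]; exact hT hw
    obtain ⟨a1, a2, a3⟩ := wd_split hE hw1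
    obtain ⟨b1, b2, b3⟩ := wd_split hE a2
    refine ⟨a1, b1, b2, ?_⟩
    rw [List.append_assoc]
    show w = w.take ((n - m') * l) ++ ((w.drop ((n - m') * l)).take (k * l) ++
      (w.drop ((n - m') * l)).drop (k * l))
    rw [b3, a3]
  have hinj : Set.InjOn f T := by
    intro w hw w' hw' hff
    obtain ⟨a1, a2, a3, a4⟩ := hsplit w hw
    obtain ⟨b1, b2, b3, b4⟩ := hsplit w' hw'
    have e1 := hsame w hw w' hw'
    have hd := h1 w hw w' hw'
    rw [a4, b4, ← e1, ← hff] at hd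
    have e2 := S2_last hE t q ht _ _ _ a3 b3 hd
    rw [a4, b4, ← e1, ← hff, e2]
  have hcard : T.card ≤ (wd S k).card := by
    rw [← Finset.card_image_of_injOn hinj]
    apply Finset.card_le_card
    intro x hx
    obtain ⟨w, hw, rfl⟩ := Finset.mem_image.1 hx
    exact (hsplit w hw).2.1
  have hcard' : (T.card : ℝ) ≤ ((B : ℝ) ^ k) ^ σ :=
    le_trans (by exact_mod_cast hcard) (wd_card_le hE k)
  have hR1 : (1 : ℝ) ≤ (a : ℝ) ^ (20 * (n + 1)) * (B : ℝ) ^ 4 :=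
    one_le_mul_of_one_le_of_one_le (one_le_pow₀ ha1) (one_le_pow₀ hB1)
  have hmax1 : (1 : ℝ) ≤ max 1 ((Y / q) ^ (σ / 2)) := le_max_left _ _
  have htriv : k = 0 →
      (T.card : ℝ) ≤ (a : ℝ) ^ (20 * (n + 1)) * (B : ℝ) ^ 4 * max 1 ((Y / q) ^ (σ / 2)) := by
    intro hk0
    rw [hk0] at hcard'
    simp only [pow_zero, Real.one_rpow] at hcard'
    exact hcard'.trans (one_le_mul_of_one_le_of_one_le hR1 hmax1)
  rcases htmax with htm' | htq
  · exact htriv (by omega)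
  · rcases hm'B with hm0 | hm'B
    · exact htriv (by omega)
    · by_cases htm2 : t = m'
      · exact htriv (by omega)
      have htlt : t < m' := lt_of_le_of_ne htm htm2
      have htq' : (q : ℝ) ≤ 2 * (a : ℝ) ^ 4 * ((a : ℝ) * (B : ℝ)) ^ (2 * (t + 1)) := by
        exact_mod_cast htq
      have hmain : ((B : ℝ) ^ k) ^ 2 ≤ (a : ℝ) ^ (4 * n + 6) * (B : ℝ) ^ 4 * (Y / q) := by
        have e1 : ((B : ℝ) ^ k) ^ 2 * (B : ℝ) ^ (2 * t) = (B : ℝ) ^ (2 * m') := by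
          rw [← pow_mul, ← pow_add]
          congr 1
          omega
        have e2 : 2 * (a : ℝ) ^ 4 * ((a : ℝ) * (B : ℝ)) ^ (2 * (t + 1)) =
            2 * (a : ℝ) ^ 4 * (a : ℝ) ^ (2 * (t + 1)) * ((B : ℝ) ^ 2 * (B : ℝ) ^ (2 * t)) := by
          rw [mul_pow, ← pow_add (B : ℝ) 2 (2 * t)]
          have : 2 + 2 * t = 2 * (t + 1) := by ring
          rw [this]
          ring
        have e3 : (a : ℝ) ^ (2 * (t + 1)) ≤ (a : ℝ) ^ (2 * n) :=
          pow_le_pow_right₀ ha1 (by omega)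
        rw [mul_div_assoc', le_div_iff₀ hq0]
        calc ((B : ℝ) ^ k) ^ 2 * q
            ≤ ((B : ℝ) ^ k) ^ 2 * (2 * (a : ℝ) ^ 4 * (a : ℝ) ^ (2 * (t + 1)) *
                ((B : ℝ) ^ 2 * (B : ℝ) ^ (2 * t))) := by
              apply mul_le_mul_of_nonneg_left _ (by positivity)
              rw [← e2]
              exact htq'
          _ = 2 * (a : ℝ) ^ 4 * (B : ℝ) ^ 2 * (B : ℝ) ^ (2 * m') * (a : ℝ) ^ (2 * (t + 1)) := by
              rw [← e1]
              ring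
          _ ≤ 2 * (a : ℝ) ^ 4 * (B : ℝ) ^ 2 * ((B : ℝ) ^ 2 * (a : ℝ) ^ (2 * n + 1) * Y) *
                (a : ℝ) ^ (2 * n) := by
              apply mul_le_mul _ e3 (by positivity) (by positivity)
              exact mul_le_mul_of_nonneg_left hm'B (by positivity)
          _ = 2 * ((a : ℝ) ^ (4 * n + 5) * (B : ℝ) ^ 4 * Y) := by
              rw [show 4 * n + 5 = 4 + (2 * n + 1) + 2 * n by ring, pow_add, pow_add]
              ring
          _ ≤ a * ((a : ℝ) ^ (4 * n + 5) * (B : ℝ) ^ 4 * Y) :=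
              mul_le_mul_of_nonneg_right (by linarith) (by positivity)
          _ = (a : ℝ) ^ (4 * n + 6) * (B : ℝ) ^ 4 * Y := by
              rw [show 4 * n + 6 = (4 * n + 5) + 1 by ring, pow_succ (a : ℝ) (4 * n + 5)]
              ring
      have hYq : 0 ≤ Y / q := by positivity
      have h5 : ((B : ℝ) ^ k) ^ σ = (((B : ℝ) ^ k) ^ 2) ^ (σ / 2) := by
        have e0 : ((B : ℝ) ^ k) ^ 2 = ((B : ℝ) ^ k) ^ (2 : ℝ) := (Real.rpow_two _).symm
        rw [e0, ← Real.rpow_mul (by positivity)]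
        congr 1
        ring
      have h6 : (((B : ℝ) ^ k) ^ 2) ^ (σ / 2) ≤
          ((a : ℝ) ^ (4 * n + 6) * (B : ℝ) ^ 4 * (Y / q)) ^ (σ / 2) :=
        Real.rpow_le_rpow (by positivity) hmain (by linarith)
      have h7 : ((a : ℝ) ^ (4 * n + 6) * (B : ℝ) ^ 4 * (Y / q)) ^ (σ / 2) =
          ((a : ℝ) ^ (4 * n + 6) * (B : ℝ) ^ 4) ^ (σ / 2) * (Y / q) ^ (σ / 2) :=
        Real.mul_rpow (by positivity) hYq
      have h8 : ((a : ℝ) ^ (4 * n + 6) * (B : ℝ) ^ 4) ^ (σ / 2) ≤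
          (a : ℝ) ^ (4 * n + 6) * (B : ℝ) ^ 4 := by
        have hge : (1 : ℝ) ≤ (a : ℝ) ^ (4 * n + 6) * (B : ℝ) ^ 4 :=
          one_le_mul_of_one_le_of_one_le (one_le_pow₀ ha1) (one_le_pow₀ hB1)
        calc ((a : ℝ) ^ (4 * n + 6) * (B : ℝ) ^ 4) ^ (σ / 2)
            ≤ ((a : ℝ) ^ (4 * n + 6) * (B : ℝ) ^ 4) ^ (1 : ℝ) :=
              Real.rpow_le_rpow_of_exponent_le hge (by linarith)
          _ = (a : ℝ) ^ (4 * n + 6) * (B : ℝ) ^ 4 := Real.rpow_one _
      have h9 : (a : ℝ) ^ (4 * n + 6) * (B : ℝ) ^ 4 ≤ (a : ℝ) ^ (20 * (n + 1)) * (B : ℝ) ^ 4 := by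
        apply mul_le_mul_of_nonneg_right _ (by positivity)
        exact pow_le_pow_right₀ ha1 (by omega)
      have h10 : 0 ≤ (Y / q) ^ (σ / 2) := Real.rpow_nonneg hYq _
      have h11 : (Y / q) ^ (σ / 2) ≤ max 1 ((Y / q) ^ (σ / 2)) := le_max_right _ _
      calc (T.card : ℝ) ≤ ((B : ℝ) ^ k) ^ σ := hcard'
        _ = (((B : ℝ) ^ k) ^ 2) ^ (σ / 2) := h5
        _ ≤ _ := h6
        _ = ((a : ℝ) ^ (4 * n + 6) * (B : ℝ) ^ 4) ^ (σ / 2) * (Y / q) ^ (σ / 2) := h7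
        _ ≤ ((a : ℝ) ^ (20 * (n + 1)) * (B : ℝ) ^ 4) * max 1 ((Y / q) ^ (σ / 2)) :=
          mul_le_mul (le_trans h8 h9) h11 h10 (by positivity)

end Pool.Agent.LibNW69
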