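import Pool.Agent.LibNW69.G3
import Pool.Agent.LibNZ69.G5
import Pool.Agent.LibNW69.S2

set_option autoImplicit false

namespace Pool.Agent.LibNW69

open Pool.Agent.LibNZ69

/-- the numerical estimate at the end -/
private theorem G6_num (a B n i j q' : ℕ) (σ : ℝ) (ha : 4 ≤ a) (hs0 : 0 ≤ σ) (hs : σ ≤ 3 / 2)
    (hB : 1 ≤ B) (hq : B ^ i ≤ q') :
    (a : ℝ) ^ (20 * (n + 1)) * ((2 * (a : ℝ) ^ (2 * n + 5) + 1) *
      max 1 (((a : ℝ) ^ 7 * ((a : ℝ) * B) ^ (2 * n) / (B : ℝ) ^ j / q') ^ (σ / 2))) ≤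
      (a : ℝ) ^ (40 * (n + 1)) *
        max 1 (((B : ℝ) ^ (2 * n) / (B : ℝ) ^ (i + j)) ^ (σ / 2)) := by
  have hB0 : (0 : ℝ) < B := by exact_mod_cast hB
  have ha1 : (4 : ℝ) ≤ a := by exact_mod_cast ha
  have ha0 : (1 : ℝ) ≤ a := by linarith
  have ha' : (0 : ℝ) < a := by linarith
  have hq' : (B : ℝ) ^ i ≤ q' := by exact_mod_cast hq
  set X : ℝ := (B : ℝ) ^ (2 * n) / (B : ℝ) ^ (i + j) with hX
  have hX0 : 0 ≤ X := by positivity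
  have hA : (1 : ℝ) ≤ (a : ℝ) ^ (7 + 2 * n) := one_le_pow₀ ha0
  have h1 : (a : ℝ) ^ 7 * ((a : ℝ) * B) ^ (2 * n) / (B : ℝ) ^ j / q' ≤
      (a : ℝ) ^ (7 + 2 * n) * X := by
    have e1 : (a : ℝ) ^ 7 * ((a : ℝ) * B) ^ (2 * n) =
        (a : ℝ) ^ (7 + 2 * n) * (B : ℝ) ^ (2 * n) := by
      rw [mul_pow, pow_add (a : ℝ) 7 (2 * n)]
      ring
    rw [e1, hX, pow_add (B : ℝ) i j, div_div, ← mul_div_assoc, mul_comm ((B : ℝ) ^ i) ((B : ℝ) ^ j)]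
    apply div_le_div_of_nonneg_left (by positivity) (by positivity)
    exact mul_le_mul_of_nonneg_left hq' (by positivity)
  have h2 : ((a : ℝ) ^ 7 * ((a : ℝ) * B) ^ (2 * n) / (B : ℝ) ^ j / q') ^ (σ / 2) ≤
      (a : ℝ) ^ (7 + 2 * n) * X ^ (σ / 2) := by
    refine (Real.rpow_le_rpow (by positivity) h1 (by linarith)).trans ?_
    rw [Real.mul_rpow (by positivity) hX0]
    refine mul_le_mul_of_nonneg_right ?_ (by positivity)
    calc ((a : ℝ) ^ (7 + 2 * n)) ^ (σ / 2) ≤ ((a : ℝ) ^ (7 + 2 * n)) ^ (1 : ℝ) :=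
          Real.rpow_le_rpow_of_exponent_le hA (by linarith)
      _ = (a : ℝ) ^ (7 + 2 * n) := Real.rpow_one _
  have h3 : max 1 (((a : ℝ) ^ 7 * ((a : ℝ) * B) ^ (2 * n) / (B : ℝ) ^ j / q') ^ (σ / 2)) ≤
      (a : ℝ) ^ (7 + 2 * n) * max 1 (X ^ (σ / 2)) := by
    refine max_le ?_ ?_
    · calc (1 : ℝ) ≤ (a : ℝ) ^ (7 + 2 * n) * 1 := by rw [mul_one]; exact hA
        _ ≤ _ := mul_le_mul_of_nonneg_left (le_max_left _ _) (by positivity)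
    · exact h2.trans (mul_le_mul_of_nonneg_left (le_max_right _ _) (by positivity))
  have h5 : 2 * (a : ℝ) ^ (2 * n + 5) + 1 ≤ (a : ℝ) ^ (2 * n + 6) := by
    have e1 : (1 : ℝ) ≤ (a : ℝ) ^ (2 * n + 5) := one_le_pow₀ ha0
    have e2 : (a : ℝ) ^ (2 * n + 6) = (a : ℝ) ^ (2 * n + 5) * a := pow_succ _ _
    rw [e2]
    nlinarith
  have h4 : (a : ℝ) ^ (20 * (n + 1)) * ((2 * (a : ℝ) ^ (2 * n + 5) + 1) * (a : ℝ) ^ (7 + 2 * n)) ≤
      (a : ℝ) ^ (40 * (n + 1)) := by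
    calc (a : ℝ) ^ (20 * (n + 1)) * ((2 * (a : ℝ) ^ (2 * n + 5) + 1) * (a : ℝ) ^ (7 + 2 * n)) ≤
        (a : ℝ) ^ (20 * (n + 1)) * ((a : ℝ) ^ (2 * n + 6) * (a : ℝ) ^ (7 + 2 * n)) :=
          mul_le_mul_of_nonneg_left (mul_le_mul_of_nonneg_right h5 (by positivity)) (by positivity)
      _ = (a : ℝ) ^ (20 * (n + 1) + ((2 * n + 6) + (7 + 2 * n))) := by
          rw [pow_add (a : ℝ) (20 * (n + 1)), pow_add (a : ℝ) (2 * n + 6)]
      _ ≤ (a : ℝ) ^ (40 * (n + 1)) := pow_le_pow_right₀ ha0 (by omega)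
  calc _ ≤ (a : ℝ) ^ (20 * (n + 1)) * ((2 * (a : ℝ) ^ (2 * n + 5) + 1) *
        ((a : ℝ) ^ (7 + 2 * n) * max 1 (X ^ (σ / 2)))) :=
        mul_le_mul_of_nonneg_left (mul_le_mul_of_nonneg_left h3 (by positivity)) (by positivity)
    _ = (a : ℝ) ^ (20 * (n + 1)) * ((2 * (a : ℝ) ^ (2 * n + 5) + 1) * (a : ℝ) ^ (7 + 2 * n)) *
        max 1 (X ^ (σ / 2)) := by ring
    _ ≤ _ := mul_le_mul_of_nonneg_right h4 (le_trans zero_le_one (le_max_left _ _))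

open Classical in
/-- Row G6 (MEDIUM). The same as LibNZ69/G6.lean (finished) with other constants: the set `T` of the
`w'` that occur satisfies the hypotheses of `countS` with modulus `q'` and
`Y = a^7 (aB)^(2 n₂) / B^j` (`rel_wdg`), and for each `w'` there are at most `2 a^(2 n₂ + 5) + 1`
values `k'` (`rel_same`, `card_near`). Finally `q' ≥ B^i` and
`(Y / q')^(σ/2) ≤ (a^(7 + 2 n₂) B^(2 n₂) / B^(i+j))^(σ/2) ≤ a^(7 + 2 n₂) (B^(2 n₂) / B^(i+j))^(σ/2)`. -/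
theorem countT {a : ℕ} {σ : ℝ} {e : ℤ × ℤ} {S : Finset (List ℕ)} {l B : ℕ}
    (hE : Ens a σ e S l B) (n₂ i j M H k q : ℕ) (b : ℤ)
    (v : ℤ × ℤ) (q' : ℕ) (z : ℤ × ℤ) (hq : 1 ≤ q) (hH : H ≤ a ^ 4 * (a * B) ^ n₂)
    (R : Finset ℕ) (hR : ∀ k ∈ R, k < M) (af : ℕ → ℤ) (hf : ∀ k' ∈ R, Fr M B i j k' q' (af k')) :
    (((R ×ˢ wd S n₂).filter (fun p => Rel M H k q b v p.1 q' (af p.1) (vec e p.2) z)).card : ℝ) ≤
      (a : ℝ) ^ (40 * (n₂ + 1)) * (B : ℝ) ^ 4 *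
        max 1 (((B : ℝ) ^ (2 * n₂) / (B : ℝ) ^ (i + j)) ^ (σ / 2)) := by
  rcases R.eq_empty_or_nonempty with h0 | ⟨k0, hk0⟩
  · subst h0
    rw [Finset.empty_product, Finset.filter_empty, Finset.card_empty, Nat.cast_zero]
    positivity
  have ha4 : 4 ≤ a := hE.a4
  have hB1 : 1 ≤ B := le_trans (Nat.one_le_pow _ _ (by omega)) hE.big
  have hqB : B ^ i ≤ q' := (hf k0 hk0).qlo
  have hq1 : 1 ≤ q' := (Nat.one_le_pow i B hB1).trans hqB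
  have hB0 : (0 : ℝ) < B := by exact_mod_cast hB1
  have ha0 : (0 : ℝ) < a := by exact_mod_cast (by omega : 0 < a)
  set P : Finset (ℕ × List ℕ) :=
    (R ×ˢ wd S n₂).filter (fun p => Rel M H k q b v p.1 q' (af p.1) (vec e p.2) z) with hP
  have hmem : ∀ p ∈ P, p.1 ∈ R ∧ p.2 ∈ wd S n₂ ∧ Rel M H k q b v p.1 q' (af p.1) (vec e p.2) z := by
    intro p hp
    rw [hP, Finset.mem_filter, Finset.mem_product] at hp
    exact ⟨hp.1.1, hp.1.2, hp.2⟩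
  set T : Finset (List ℕ) := P.image Prod.snd with hT
  have hTm : ∀ w ∈ T, w ∈ wd S n₂ ∧ ∃ k' ∈ R, Rel M H k q b v k' q' (af k') (vec e w) z := by
    intro w hw
    rw [hT, Finset.mem_image] at hw
    obtain ⟨p, hp, rfl⟩ := hw
    obtain ⟨h1, h2, h3⟩ := hmem p hp
    exact ⟨h2, p.1, h1, h3⟩
  have hfib : ∀ w ∈ T, (P.filter (fun p => p.2 = w)).card ≤ 2 * a ^ (2 * n₂ + 5) + 1 := by
    intro w hw
    have hww := (hTm w hw).1
    have e1 : ((P.filter (fun p => p.2 = w)).image Prod.fst).card =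
        (P.filter (fun p => p.2 = w)).card := by
      refine Finset.card_image_of_injOn ?_
      intro p hp p' hp' hpp
      have h1 := (Finset.mem_filter.1 (Finset.mem_coe.1 hp)).2
      have h2 := (Finset.mem_filter.1 (Finset.mem_coe.1 hp')).2
      exact Prod.ext hpp (h1.trans h2.symm)
    rw [← e1]
    have hK : ∀ x ∈ (P.filter (fun p => p.2 = w)).image Prod.fst, x ∈ R ∧
        Rel M H k q b v x q' (af x) (vec e w) z := by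
      intro x hx
      obtain ⟨p, hp, rfl⟩ := Finset.mem_image.1 hx
      obtain ⟨hp1, hp2⟩ := Finset.mem_filter.1 hp
      obtain ⟨h1, -, h3⟩ := hmem p hp1
      rw [hp2] at h3
      exact ⟨h1, h3⟩
    refine card_near M (a ^ (2 * n₂ + 5)) _ (fun x hx => hR x (hK x hx).1) fun x hx y hy => ?_
    obtain ⟨c, hc⟩ := rel_same hq hq1 (hK x hx).2 (hK y hy).2 a B n₂ ha4 hE.big
      (coprime_vec e hE.cop w) hH (le_nm_vec hE hww)
    refine ⟨c, hc.trans ?_⟩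
    push_cast
    exact le_rfl
  have hcard : P.card ≤ T.card * (2 * a ^ (2 * n₂ + 5) + 1) := by
    rw [Finset.card_eq_sum_card_image Prod.snd P, ← smul_eq_mul]
    exact Finset.sum_le_card_nsmul _ _ _ hfib
  have hTc := countS hE n₂ q' hq1 ((a : ℝ) ^ 7 * ((a : ℝ) * B) ^ (2 * n₂) / (B : ℝ) ^ j)
    (by positivity) T
    (fun w hw => (hTm w hw).1) (fun w hw w' hw' => ?_) (fun w hw w' hw' => ?_)
  · have e2 : (P.card : ℝ) ≤ (T.card : ℝ) * (2 * (a : ℝ) ^ (2 * n₂ + 5) + 1) := by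
      exact_mod_cast hcard
    have hnum := G6_num a B n₂ i j q' σ ha4 (by linarith [hE.s1]) hE.s2 hB1 hqB
    calc (P.card : ℝ) ≤ (T.card : ℝ) * (2 * (a : ℝ) ^ (2 * n₂ + 5) + 1) := e2
      _ ≤ ((a : ℝ) ^ (20 * (n₂ + 1)) * (B : ℝ) ^ 4 *
            max 1 (((a : ℝ) ^ 7 * ((a : ℝ) * B) ^ (2 * n₂) / (B : ℝ) ^ j / q') ^ (σ / 2))) *
            (2 * (a : ℝ) ^ (2 * n₂ + 5) + 1) := mul_le_mul_of_nonneg_right hTc (by positivity)
      _ = (B : ℝ) ^ 4 * ((a : ℝ) ^ (20 * (n₂ + 1)) * ((2 * (a : ℝ) ^ (2 * n₂ + 5) + 1) *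
            max 1 (((a : ℝ) ^ 7 * ((a : ℝ) * B) ^ (2 * n₂) / (B : ℝ) ^ j / q') ^ (σ / 2)))) := by
          ring
      _ ≤ (B : ℝ) ^ 4 * ((a : ℝ) ^ (40 * (n₂ + 1)) *
            max 1 (((B : ℝ) ^ (2 * n₂) / (B : ℝ) ^ (i + j)) ^ (σ / 2))) :=
          mul_le_mul_of_nonneg_left hnum (by positivity)
      _ = _ := by ring
  · obtain ⟨hw1, k1, hk1, r1⟩ := hTm w hw
    obtain ⟨hw2, k2, hk2, r2⟩ := hTm w' hw'
    exact (rel_wdg hq r1 r2 a B n₂ i j ha4 hE.big (hf k1 hk1) (hf k2 hk2) hH (nm_vec_le hE hw1)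
      (nm_vec_le hE hw2)).1
  · obtain ⟨hw1, k1, hk1, r1⟩ := hTm w hw
    obtain ⟨hw2, k2, hk2, r2⟩ := hTm w' hw'
    have h := (rel_wdg hq r1 r2 a B n₂ i j ha4 hE.big (hf k1 hk1) (hf k2 hk2) hH (nm_vec_le hE hw1)
      (nm_vec_le hE hw2)).2
    rw [le_div_iff₀ (by positivity)]
    have h' : ((|wdg (vec e w) (vec e w')| * (B : ℤ) ^ j : ℤ) : ℝ) ≤
        (((a : ℤ) ^ 7 * ((a : ℤ) * (B : ℤ)) ^ (2 * n₂) : ℤ) : ℝ) := by exact_mod_cast h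
    push_cast at h'
    exact h'

end Pool.Agent.LibNW69
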