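import Mathlib

set_option autoImplicit false

namespace Pool.Agent.LibNW69

private theorem J0_step (s : ℝ) (hs : 0 < s) (J : ℕ) (hJ : 1 ≤ J) :
    ((1 : ℝ) / ((J + 1 : ℕ) : ℝ)) ^ (1 + s) ≤
      1 / s * (((1 : ℝ) / J) ^ s - ((1 : ℝ) / ((J + 1 : ℕ) : ℝ)) ^ s) := by
  have hJ0 : (0 : ℝ) < J := by exact_mod_cast hJ
  have hx : (0 : ℝ) < ((J + 1 : ℕ) : ℝ) := by positivity
  have hxe : (((J + 1 : ℕ) : ℝ)) = J + 1 := by push_cast; ring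
  have hy : 0 < 1 / ((J + 1 : ℕ) : ℝ) := by positivity
  have ht : 0 < ((J : ℝ) + 1) / J := by positivity
  have h1 : (1 : ℝ) / J = (((J : ℝ) + 1) / J) * (1 / ((J + 1 : ℕ) : ℝ)) := by
    rw [hxe]
    field_simp
  have h2 : ((1 : ℝ) / J) ^ s =
      (((J : ℝ) + 1) / J) ^ s * ((1 : ℝ) / ((J + 1 : ℕ) : ℝ)) ^ s := by
    rw [h1, Real.mul_rpow ht.le hy.le]
  have h3 : 1 / ((J + 1 : ℕ) : ℝ) ≤ Real.log (((J : ℝ) + 1) / J) := by
    have h := Real.one_sub_inv_le_log_of_pos ht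
    have h' : 1 - (((J : ℝ) + 1) / J)⁻¹ = 1 / ((J + 1 : ℕ) : ℝ) := by
      rw [hxe]
      field_simp
      ring
    rwa [h'] at h
  have h4 : 1 + s * (1 / ((J + 1 : ℕ) : ℝ)) ≤ (((J : ℝ) + 1) / J) ^ s := by
    rw [Real.rpow_def_of_pos ht]
    have h5 := Real.add_one_le_exp (Real.log (((J : ℝ) + 1) / J) * s)
    have h6 := mul_le_mul_of_nonneg_right h3 hs.le
    linarith
  have hu : 0 < ((1 : ℝ) / ((J + 1 : ℕ) : ℝ)) ^ s := Real.rpow_pos_of_pos hy _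
  have h7 := mul_le_mul_of_nonneg_right h4 hu.le
  rw [← h2] at h7
  have h8 : s * (1 / ((J + 1 : ℕ) : ℝ) * ((1 : ℝ) / ((J + 1 : ℕ) : ℝ)) ^ s) ≤
      ((1 : ℝ) / J) ^ s - ((1 : ℝ) / ((J + 1 : ℕ) : ℝ)) ^ s := by
    linarith
  rw [Real.rpow_add hy, Real.rpow_one, one_div_mul_eq_div s, le_div_iff₀ hs, mul_comm _ s]
  exact h8

private theorem J0_aux (s : ℝ) (hs : 0 < s) (J : ℕ) (hJ : 1 ≤ J) :
    ∑ k ∈ Finset.Icc 1 J, ((1 : ℝ) / k) ^ (1 + s) ≤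
      1 + 1 / s - 1 / s * ((1 : ℝ) / J) ^ s := by
  induction J, hJ using Nat.le_induction with
  | base => simp
  | succ J hJ ih =>
    rw [Finset.sum_Icc_succ_top (by omega)]
    have := J0_step s hs J hJ
    linarith

/-- Row J0 (SHORT). Compare with the integral of `x^(-σ)` over `[1, J]` (or telescoping:
`1/k^σ ≤ (1/(σ-1)) ((k-1)^(1-σ) - k^(1-σ))` for `k ≥ 2`). -/
theorem zeta_le (σ : ℝ) (h : 1 < σ) (J : ℕ) :
    ∑ k ∈ Finset.Icc 1 J, ((1 : ℝ) / k) ^ σ ≤ σ / (σ - 1) := by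
  have hs : 0 < σ - 1 := by linarith
  have hr : σ / (σ - 1) = 1 + 1 / (σ - 1) := by
    field_simp
    ring
  rcases Nat.eq_zero_or_pos J with rfl | hJ
  · rw [hr]
    simp only [Finset.Icc_eq_empty_of_lt (Nat.lt_one_iff.mpr rfl), Finset.sum_empty]
    positivity
  · have h1 := J0_aux (σ - 1) hs J hJ
    have h2 : 0 ≤ ((1 : ℝ) / J) ^ (σ - 1) := Real.rpow_nonneg (by positivity) _
    have h3 : 0 ≤ 1 / (σ - 1) * ((1 : ℝ) / J) ^ (σ - 1) := by positivity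
    have h4 : 1 + (σ - 1) = σ := by ring
    rw [h4] at h1
    rw [hr]
    linarith

end Pool.Agent.LibNW69
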