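import Pool.Agent.LibNW69.C3
import Pool.Agent.LibNW69.J0
import Pool.Agent.LibNZ69.A1
import Pool.Agent.LibNZ69.A2

set_option autoImplicit false

namespace Pool.Agent.LibNW69

open Pool.Agent.LibNZ69

open Classical in
private theorem J_word (q J : ℕ) (v : ℤ × ℤ) (hv : IsCoprime v.1 v.2) (h8 : 8 * J ^ 2 < q) :
    ((zs J).filter (fun z => (q : ℤ) ∣ wdg z v)).card ≤
      1 + 2 * ((Finset.Icc 1 J).filter (fun k : ℕ => ∃ z : ℤ × ℤ, z ≠ 0 ∧ (nm z : ℝ) ≤ (J : ℝ) / k ∧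
        (q : ℤ) ∣ wdg z v)).card := by
  by_cases hz : ∃ z0 ∈ (zs J).filter (fun z => (q : ℤ) ∣ wdg z v), z0 ≠ 0
  · obtain ⟨z0, hz0, hne⟩ := hz
    rw [Finset.mem_filter, mem_zs] at hz0
    obtain ⟨g, hg0, hgq, -, hg⟩ := line_gen q v z0 hne hz0.2
    have hg1 := one_le_nm g hg0
    obtain ⟨G, hG⟩ : ∃ G : ℕ, nm g = G := ⟨(nm g).toNat, by omega⟩
    have hG1 : 1 ≤ G := by omega
    have hsub : (zs J).filter (fun z => (q : ℤ) ∣ wdg z v) ⊆
        (Finset.Icc (-((J / G : ℕ) : ℤ)) ((J / G : ℕ) : ℤ)).image (fun k : ℤ => k • g) := by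
      intro z' hz'
      rw [Finset.mem_filter, mem_zs] at hz'
      have h1 : wdg z0 z' = 0 := by
        refine wdg_eq_zero q v z0 z' hv hz0.2 hz'.2 ?_
        have h2 := nm_nonneg z0
        have h3 := nm_nonneg z'
        have h4 : nm z0 * nm z' ≤ (J : ℤ) * J := mul_le_mul hz0.1 hz'.1 h3 (by positivity)
        have h5 : (8 * (J : ℤ) ^ 2) < q := by exact_mod_cast h8
        nlinarith
      obtain ⟨k, hk⟩ := hg z' h1 hz'.2
      rw [Finset.mem_image]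
      refine ⟨k, ?_, hk.symm⟩
      have h2 : |k| * nm g ≤ J := by
        rw [← nm_smul, ← hk]
        exact hz'.1
      rw [hG] at h2
      have h3 : |k| ≤ ((J / G : ℕ) : ℤ) := by
        have h5 : |k|.toNat * G ≤ J := by
          have h6 : ((|k|.toNat : ℕ) : ℤ) = |k| := Int.toNat_of_nonneg (abs_nonneg k)
          have h7 : ((|k|.toNat * G : ℕ) : ℤ) ≤ (J : ℤ) := by
            push_cast
            rw [h6]
            exact h2
          exact_mod_cast h7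
        have h8 : |k|.toNat ≤ J / G := (Nat.le_div_iff_mul_le (by omega)).2 h5
        have h6 : ((|k|.toNat : ℕ) : ℤ) = |k| := Int.toNat_of_nonneg (abs_nonneg k)
        rw [← h6]
        exact_mod_cast h8
      rw [Finset.mem_Icc]
      exact abs_le.1 h3
    refine (Finset.card_le_card hsub).trans (Finset.card_image_le.trans ?_)
    have hci : (Finset.Icc (-((J / G : ℕ) : ℤ)) ((J / G : ℕ) : ℤ)).card = 2 * (J / G) + 1 := by
      rw [Int.card_Icc]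
      generalize J / G = m
      omega
    rw [hci]
    have h1 : J / G ≤ ((Finset.Icc 1 J).filter (fun k : ℕ => ∃ z : ℤ × ℤ, z ≠ 0 ∧
        (nm z : ℝ) ≤ (J : ℝ) / k ∧ (q : ℤ) ∣ wdg z v)).card := by
      have h2 : (Finset.Icc 1 (J / G)).card = J / G := by rw [Nat.card_Icc]; omega
      rw [← h2]
      apply Finset.card_le_card
      intro k hk
      rw [Finset.mem_Icc] at hk
      have h3 : k * G ≤ J := (Nat.le_div_iff_mul_le (by omega)).1 hk.2
      rw [Finset.mem_filter, Finset.mem_Icc]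
      refine ⟨⟨hk.1, hk.2.trans (Nat.div_le_self J G)⟩, g, hg0, ?_, hgq⟩
      rw [hG, le_div_iff₀ (by exact_mod_cast hk.1)]
      rw [mul_comm]
      exact_mod_cast h3
    omega
  · push Not at hz
    have h1 : (zs J).filter (fun z => (q : ℤ) ∣ wdg z v) ⊆ {0} := by
      intro z hz'
      rw [Finset.mem_singleton]
      exact hz z hz'
    have h2 := Finset.card_le_card h1
    rw [Finset.card_singleton] at h2
    omega

open Classical in
/-- Row J (MEDIUM). The same as LibNZ69/J.lean (finished) with other constants: `countC` with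
`Y = J / k`, and `zeta_le`. The exceptional terms: the number of the `k ≤ J` with
`B^n ≤ a^n J / k` is at most `a^n J / B^n`. (`σ / (σ - 1) ≥ 1`.) -/
theorem sumJ {a : ℕ} {σ : ℝ} {e : ℤ × ℤ} {S : Finset (List ℕ)} {l B : ℕ}
    (hE : Ens a σ e S l B) (n q J : ℕ) (h8 : 8 * a ^ 2 * J ^ 2 < q) :
    (∑ w ∈ wd S n, (((zs J).filter (fun z => (q : ℤ) ∣ wdg z (vec e w))).card : ℝ)) ≤
      (a : ℝ) ^ (30 * (n + 1)) * (B : ℝ) ^ 9 * (σ / (σ - 1)) * ((B : ℝ) ^ n) ^ σ *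
        (1 + J / (B : ℝ) ^ n) := by
  have ha4 : (4 : ℝ) ≤ a := by exact_mod_cast hE.a4
  have ha1 : (1 : ℝ) ≤ a := by linarith
  have ha0 : (0 : ℝ) < a := by linarith
  have hs1 := hE.s1
  obtain ⟨Z, hZ⟩ : ∃ Z : ℝ, Z = σ / (σ - 1) := ⟨_, rfl⟩
  have hZ1 : 1 ≤ Z := by
    rw [hZ, le_div_iff₀ (by linarith)]
    linarith
  have hB : (1 : ℝ) ≤ B := by
    have h1 : 1 ≤ a ^ 8 := Nat.one_le_pow _ _ (by have := hE.a4; omega)
    exact_mod_cast h1.trans hE.big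
  have hB0 : (0 : ℝ) < B := by linarith
  obtain ⟨N, hN⟩ : ∃ N : ℝ, N = (B : ℝ) ^ n := ⟨_, rfl⟩
  have hN0 : 0 < N := by rw [hN]; positivity
  obtain ⟨W, hW⟩ : ∃ W : ℝ, W = N ^ σ := ⟨_, rfl⟩
  have hW0 : 0 ≤ W := by rw [hW]; positivity
  have h8r : 8 * (a : ℝ) ^ 2 * (J : ℝ) ^ 2 < q := by exact_mod_cast h8
  have hq0 : (0 : ℝ) < q := lt_of_le_of_lt (by positivity) h8r
  have hJq : (J : ℝ) ^ 2 ≤ q := by
    have h1 : (1 : ℝ) ≤ 8 * (a : ℝ) ^ 2 := by nlinarith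
    have h2 : 1 * (J : ℝ) ^ 2 ≤ 8 * (a : ℝ) ^ 2 * (J : ℝ) ^ 2 :=
      mul_le_mul_of_nonneg_right h1 (by positivity)
    linarith
  have h8' : 8 * J ^ 2 < q := by
    refine lt_of_le_of_lt ?_ h8
    have h1 : 1 ≤ a ^ 2 := Nat.one_le_pow _ _ (by have := hE.a4; omega)
    nlinarith [Nat.zero_le (J ^ 2)]
  -- step 1
  have h1 : (∑ w ∈ wd S n, (((zs J).filter (fun z => (q : ℤ) ∣ wdg z (vec e w))).card : ℝ)) ≤
      ∑ w ∈ wd S n, (1 + 2 * (((Finset.Icc 1 J).filter (fun k : ℕ => ∃ z : ℤ × ℤ, z ≠ 0 ∧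
        (nm z : ℝ) ≤ (J : ℝ) / k ∧ (q : ℤ) ∣ wdg z (vec e w))).card : ℝ)) := by
    refine Finset.sum_le_sum fun w _ => ?_
    exact_mod_cast J_word q J (vec e w) (coprime_act w e hE.cop) h8'
  -- step 2
  have h2 : ∑ w ∈ wd S n, (((Finset.Icc 1 J).filter (fun k : ℕ => ∃ z : ℤ × ℤ, z ≠ 0 ∧
        (nm z : ℝ) ≤ (J : ℝ) / k ∧ (q : ℤ) ∣ wdg z (vec e w))).card : ℝ) =
      ∑ k ∈ Finset.Icc 1 J, (((wd S n).filter (fun w => ∃ z : ℤ × ℤ, z ≠ 0 ∧
        (nm z : ℝ) ≤ (J : ℝ) / k ∧ (q : ℤ) ∣ wdg z (vec e w))).card : ℝ) := by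
    simp only [Finset.card_filter]
    push_cast
    exact Finset.sum_comm
  -- step 3
  have h3 : ∀ k ∈ Finset.Icc 1 J, (((wd S n).filter (fun w => ∃ z : ℤ × ℤ, z ≠ 0 ∧
        (nm z : ℝ) ≤ (J : ℝ) / k ∧ (q : ℤ) ∣ wdg z (vec e w))).card : ℝ) ≤
      (a : ℝ) ^ (20 * (n + 1)) * (B : ℝ) ^ 8 * W * ((1 : ℝ) / k) ^ σ +
        (if (k : ℝ) ≤ (a : ℝ) ^ n * J / N then W else 0) := by
    intro k hk
    rw [Finset.mem_Icc] at hk
    have hk1 : (1 : ℝ) ≤ k := by exact_mod_cast hk.1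
    have hk0 : (0 : ℝ) < k := by linarith
    have hkJ : (k : ℝ) ≤ J := by exact_mod_cast hk.2
    have hY1 : (1 : ℝ) ≤ (J : ℝ) / k := by rw [le_div_iff₀ hk0]; linarith
    have hYJ : (J : ℝ) / k ≤ J := div_le_self (by positivity) hk1
    have hY8 : 8 * (a : ℝ) ^ 2 * ((J : ℝ) / k) ^ 2 < q := by
      refine lt_of_le_of_lt ?_ h8r
      have := pow_le_pow_left₀ (by positivity) hYJ 2
      exact mul_le_mul_of_nonneg_left this (by positivity)
    have h4 := countC hE n q ((J : ℝ) / k) hY1 hY8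
    rw [← hN, ← hW] at h4
    refine h4.trans (add_le_add ?_ ?_)
    · refine mul_le_mul_of_nonneg_left ?_ (by positivity)
      have h5 : ((J : ℝ) / k) ^ 2 / q ≤ ((1 : ℝ) / k) ^ (2 : ℕ) := by
        rw [div_le_iff₀ hq0, div_pow, div_pow, one_pow, div_mul_eq_mul_div, one_mul]
        gcongr
      have h6 := Real.rpow_le_rpow (by positivity) h5 (show (0 : ℝ) ≤ σ / 2 by linarith)
      refine h6.trans (le_of_eq ?_)
      rw [← Real.rpow_natCast, ← Real.rpow_mul (by positivity)]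
      congr 1
      push_cast
      ring
    · have h7 : N ≤ (a : ℝ) ^ n * ((J : ℝ) / k) → (k : ℝ) ≤ (a : ℝ) ^ n * J / N := by
        intro h
        rw [le_div_iff₀ hN0]
        rw [mul_div_assoc', le_div_iff₀ hk0] at h
        linarith
      split_ifs with ha hb hb
      · exact le_refl _
      · exact absurd (h7 ha) hb
      · exact hW0
      · exact le_refl _
  -- step 4
  have h4 : ∑ k ∈ Finset.Icc 1 J, (if (k : ℝ) ≤ (a : ℝ) ^ n * J / N then W else 0) ≤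
      W * ((a : ℝ) ^ n * J / N) := by
    rw [← Finset.sum_filter, Finset.sum_const, nsmul_eq_mul, mul_comm]
    refine mul_le_mul_of_nonneg_left ?_ hW0
    have h5 : (Finset.Icc 1 J).filter (fun k : ℕ => (k : ℝ) ≤ (a : ℝ) ^ n * J / N) ⊆
        Finset.Icc 1 ⌊(a : ℝ) ^ n * (J : ℝ) / N⌋₊ := by
      intro k hk
      rw [Finset.mem_filter, Finset.mem_Icc] at hk
      rw [Finset.mem_Icc]
      exact ⟨hk.1.1, Nat.le_floor hk.2⟩
    have h6 := Finset.card_le_card h5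
    rw [Nat.card_Icc, Nat.add_sub_cancel] at h6
    have h7 : (((Finset.Icc 1 J).filter
        (fun k : ℕ => (k : ℝ) ≤ (a : ℝ) ^ n * J / N)).card : ℝ) ≤
        (⌊(a : ℝ) ^ n * (J : ℝ) / N⌋₊ : ℝ) := by exact_mod_cast h6
    exact h7.trans (Nat.floor_le (by positivity))
  have hcard : ((wd S n).card : ℝ) ≤ W := by
    rw [hW, hN]
    exact wd_card_le hE n
  have h5 := Finset.sum_le_sum h3
  rw [Finset.sum_add_distrib, ← Finset.mul_sum] at h5
  obtain ⟨c, hc⟩ : ∃ c : ℝ, c = (a : ℝ) ^ (20 * (n + 1)) * (B : ℝ) ^ 8 := ⟨_, rfl⟩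
  have hc1 : 1 ≤ c := by
    rw [hc]
    exact one_le_mul_of_one_le_of_one_le (one_le_pow₀ ha1) (one_le_pow₀ hB)
  rw [← hc] at h5
  have h6 : c * W * ∑ k ∈ Finset.Icc 1 J, ((1 : ℝ) / k) ^ σ ≤ c * W * Z := by
    rw [hZ]
    exact mul_le_mul_of_nonneg_left (zeta_le σ hs1 J) (by positivity)
  rw [Finset.sum_add_distrib, ← Finset.mul_sum, h2, Finset.sum_const, nsmul_eq_mul, mul_one] at h1
  rw [← hN, ← hW, ← hZ]
  obtain ⟨D, hD⟩ : ∃ D : ℝ, D = (a : ℝ) ^ (30 * (n + 1)) * (B : ℝ) ^ 9 := ⟨_, rfl⟩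
  rw [← hD]
  have hDc : 3 * c ≤ D := by
    have e5 : D = c * ((a : ℝ) ^ (10 * (n + 1)) * B) := by
      rw [hD, hc, show 30 * (n + 1) = 20 * (n + 1) + 10 * (n + 1) by ring, pow_add]
      ring
    have e6 : (3 : ℝ) ≤ (a : ℝ) ^ (10 * (n + 1)) * B := by
      have e7 : (a : ℝ) ^ 1 ≤ (a : ℝ) ^ (10 * (n + 1)) := pow_le_pow_right₀ ha1 (by omega)
      rw [pow_one] at e7
      nlinarith
    rw [e5]
    nlinarith
  have h7 : (1 : ℝ) + 2 * (c * Z) ≤ D * Z := by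
    have e1 : 3 * c * Z ≤ D * Z := mul_le_mul_of_nonneg_right hDc (by linarith)
    have e2 : 1 ≤ c * Z := one_le_mul_of_one_le_of_one_le hc1 hZ1
    nlinarith
  have h9' : 2 * (a : ℝ) ^ n ≤ D * Z := by
    have e1 : (a : ℝ) ^ n ≤ c := by
      rw [hc]
      have e2 : (a : ℝ) ^ n ≤ (a : ℝ) ^ (20 * (n + 1)) := pow_le_pow_right₀ ha1 (by omega)
      have e3 : (1 : ℝ) ≤ (B : ℝ) ^ 8 := one_le_pow₀ hB
      nlinarith [pow_pos ha0 (20 * (n + 1))]
    have e4 : D * 1 ≤ D * Z := mul_le_mul_of_nonneg_left hZ1 (by linarith)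
    linarith
  have h9 : (0 : ℝ) ≤ J / N := by positivity
  have e7 : W * ((a : ℝ) ^ n * J / N) * 2 = W * (2 * (a : ℝ) ^ n * (J / N)) := by
    ring
  calc (∑ w ∈ wd S n, (((zs J).filter (fun z => (q : ℤ) ∣ wdg z (vec e w))).card : ℝ))
      ≤ W + 2 * (c * W * Z + W * ((a : ℝ) ^ n * J / N)) := by
        linarith
    _ = W * (1 + 2 * (c * Z)) + W * (2 * (a : ℝ) ^ n * (J / N)) := by
        rw [← e7]
        ring
    _ ≤ W * (D * Z) + W * (D * Z * (J / N)) := by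
        gcongr
    _ = _ := by ring

end Pool.Agent.LibNW69
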