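import Pool.Agent.LibNW69.G1
import Pool.Agent.LibNW69.G6
import Pool.Agent.LibNW69.J

set_option autoImplicit false

namespace Pool.Agent.LibNW69

open Pool.Agent.LibNZ69

private theorem G7_J (a B n₁ i j : ℕ) (ha : 4 ≤ a) (hB : a ^ 8 ≤ B)
    (hn₁ : 2 * j + 8 + 3 * i ≤ 2 * n₁) :
    8 * a ^ 2 * (2 * B ^ (3 + 2 * i + j) / (a * B) ^ n₁) ^ 2 < B ^ i := by
  have ha0 : 0 < a := by omega
  have ha8 : 0 < a ^ 8 := Nat.pow_pos ha0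
  have hB0 : 0 < B := by omega
  set J := 2 * B ^ (3 + 2 * i + j) / (a * B) ^ n₁ with hJ
  have h1 : J * (a * B) ^ n₁ ≤ 2 * B ^ (3 + 2 * i + j) := Nat.div_mul_le_self _ _
  have h2 : (J * (a * B) ^ n₁) ^ 2 ≤ (2 * B ^ (3 + 2 * i + j)) ^ 2 := Nat.pow_le_pow_left h1 2
  by_contra hcon
  rw [not_lt] at hcon
  have e1 : (J * (a * B) ^ n₁) ^ 2 = J ^ 2 * (a ^ (2 * n₁) * B ^ (2 * n₁)) := by
    rw [mul_pow, ← pow_mul, mul_comm n₁ 2, mul_pow]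
  have e2 : (2 * B ^ (3 + 2 * i + j)) ^ 2 = 4 * B ^ (6 + 4 * i + 2 * j) := by
    rw [mul_pow, ← pow_mul]
    norm_num
    ring
  rw [e1, e2] at h2
  have h3 : B ^ (2 * j + 8 + 3 * i) ≤ B ^ (2 * n₁) := Nat.pow_le_pow_right hB0 hn₁
  have h4 : (1 : ℕ) ≤ a ^ (2 * n₁) := Nat.one_le_pow _ _ ha0
  have h5 : B ^ i * B ^ (2 * j + 8 + 3 * i) ≤
      8 * a ^ 2 * J ^ 2 * (a ^ (2 * n₁) * B ^ (2 * n₁)) := by
    apply Nat.mul_le_mul hcon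
    calc B ^ (2 * j + 8 + 3 * i) = 1 * B ^ (2 * j + 8 + 3 * i) := (one_mul _).symm
      _ ≤ a ^ (2 * n₁) * B ^ (2 * n₁) := Nat.mul_le_mul h4 h3
  have h6 : B ^ i * B ^ (2 * j + 8 + 3 * i) ≤ (32 * a ^ 2) * B ^ (6 + 4 * i + 2 * j) := by
    calc _ ≤ 8 * a ^ 2 * J ^ 2 * (a ^ (2 * n₁) * B ^ (2 * n₁)) := h5
      _ = (8 * a ^ 2) * (J ^ 2 * (a ^ (2 * n₁) * B ^ (2 * n₁))) := by ring
      _ ≤ (8 * a ^ 2) * (4 * B ^ (6 + 4 * i + 2 * j)) := Nat.mul_le_mul_left _ h2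
      _ = (32 * a ^ 2) * B ^ (6 + 4 * i + 2 * j) := by ring
  have e3 : B ^ i * B ^ (2 * j + 8 + 3 * i) = B ^ 2 * B ^ (6 + 4 * i + 2 * j) := by
    rw [← pow_add, ← pow_add]; congr 1; ring
  rw [e3] at h6
  have h7 : 0 < B ^ (6 + 4 * i + 2 * j) := Nat.pow_pos hB0
  have h8 : B ^ 2 ≤ 32 * a ^ 2 := Nat.le_of_mul_le_mul_right h6 h7
  have h9 : a ^ 2 * a ^ 6 ≤ B := by
    calc a ^ 2 * a ^ 6 = a ^ 8 := by ring
      _ ≤ B := hB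
  have h10 : 4 ^ 6 ≤ a ^ 6 := Nat.pow_le_pow_left ha 6
  have h11 : a ^ 2 * 4 ^ 6 ≤ B := (Nat.mul_le_mul_left _ h10).trans h9
  have h12 : 1 ≤ a ^ 2 := Nat.one_le_pow _ _ ha0
  have h13 : 1 ≤ B := hB0
  have h14 : B * 1 ≤ B * B := Nat.mul_le_mul_left _ h13
  have h15 : B ^ 2 = B * B := sq B
  norm_num at h11
  omega

private theorem G7_H (a B n₁ n₂ H M : ℕ) (ha : 4 ≤ a) (hB : 0 < B)
    (hM : M = a ^ 4 * (a * B) ^ (n₁ + n₂) + 1)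
    (hH : 8 * (H * (a * B) ^ n₁) ≤ M) : H ≤ a ^ 4 * (a * B) ^ n₂ := by
  by_contra h
  rw [not_le] at h
  have h1 : (a ^ 4 * (a * B) ^ n₂ + 1) * (a * B) ^ n₁ ≤ H * (a * B) ^ n₁ :=
    Nat.mul_le_mul_right _ h
  have h2 : 0 < (a * B) ^ n₁ := Nat.pow_pos (Nat.mul_pos (by omega) hB)
  rw [hM, pow_add] at hH
  have e : (a ^ 4 * (a * B) ^ n₂ + 1) * (a * B) ^ n₁ =
      a ^ 4 * ((a * B) ^ n₁ * (a * B) ^ n₂) + (a * B) ^ n₁ := by ring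
  rw [e] at h1
  omega

private theorem G7_num (a B n₁ n₂ i j M : ℕ) (ha : 4 ≤ a) (hB : 1 ≤ B)
    (hM : M = a ^ 4 * (a * B) ^ (n₁ + n₂) + 1) (hij : B ^ (2 * i + j) ≤ M) :
    1 + ((2 * B ^ (3 + 2 * i + j) / (a * B) ^ n₁ : ℕ) : ℝ) / (B : ℝ) ^ n₂ ≤
      (a : ℝ) ^ (n₂ + 6) * (B : ℝ) ^ 3 := by
  have haR : (4 : ℝ) ≤ a := by exact_mod_cast ha
  have ha0 : (0 : ℝ) < a := by linarith
  have ha1 : (1 : ℝ) ≤ a := by linarith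
  have hBR : (1 : ℝ) ≤ B := by exact_mod_cast hB
  have hB0 : (0 : ℝ) < B := by linarith
  have haB : (1 : ℝ) ≤ a * B := one_le_mul_of_one_le_of_one_le ha1 hBR
  have haB0 : (0 : ℝ) < a * B := by linarith
  have h1 : ((2 * B ^ (3 + 2 * i + j) / (a * B) ^ n₁ : ℕ) : ℝ) ≤
      2 * (B : ℝ) ^ (3 + 2 * i + j) / ((a : ℝ) * (B : ℝ)) ^ n₁ := by
    refine Nat.cast_div_le.trans ?_
    push_cast
    exact le_rfl
  have hMR : (M : ℝ) ≤ 2 * (a : ℝ) ^ 4 * ((a : ℝ) * (B : ℝ)) ^ (n₁ + n₂) := by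
    rw [hM]
    push_cast
    have h3 : (1 : ℝ) ≤ ((a : ℝ) * (B : ℝ)) ^ (n₁ + n₂) := one_le_pow₀ haB
    have h4 : (1 : ℝ) ≤ (a : ℝ) ^ 4 := one_le_pow₀ ha1
    have h5 : (1 : ℝ) ≤ (a : ℝ) ^ 4 * ((a : ℝ) * (B : ℝ)) ^ (n₁ + n₂) :=
      one_le_mul_of_one_le_of_one_le h4 h3
    linarith
  have hijR : (B : ℝ) ^ (2 * i + j) ≤ M := by exact_mod_cast hij
  have h2 : 2 * (B : ℝ) ^ (3 + 2 * i + j) / ((a : ℝ) * (B : ℝ)) ^ n₁ ≤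
      4 * (a : ℝ) ^ 4 * (B : ℝ) ^ 3 * ((a : ℝ) * (B : ℝ)) ^ n₂ := by
    rw [div_le_iff₀ (pow_pos haB0 _)]
    calc 2 * (B : ℝ) ^ (3 + 2 * i + j) = 2 * (B : ℝ) ^ 3 * (B : ℝ) ^ (2 * i + j) := by
          rw [show 3 + 2 * i + j = 3 + (2 * i + j) by ring, pow_add]; ring
      _ ≤ 2 * (B : ℝ) ^ 3 * (2 * (a : ℝ) ^ 4 * ((a : ℝ) * (B : ℝ)) ^ (n₁ + n₂)) :=
          mul_le_mul_of_nonneg_left (hijR.trans hMR) (by positivity)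
      _ = 4 * (a : ℝ) ^ 4 * (B : ℝ) ^ 3 * ((a : ℝ) * (B : ℝ)) ^ n₂ *
          ((a : ℝ) * (B : ℝ)) ^ n₁ := by
          rw [pow_add]; ring
  have h3 : ((2 * B ^ (3 + 2 * i + j) / (a * B) ^ n₁ : ℕ) : ℝ) / (B : ℝ) ^ n₂ ≤
      4 * (a : ℝ) ^ 4 * (B : ℝ) ^ 3 * (a : ℝ) ^ n₂ := by
    rw [div_le_iff₀ (pow_pos hB0 _)]
    refine (h1.trans h2).trans_eq ?_
    rw [mul_pow]; ring
  have h4 : (1 : ℝ) ≤ (B : ℝ) ^ 3 * (a : ℝ) ^ n₂ :=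
    one_le_mul_of_one_le_of_one_le (one_le_pow₀ hBR) (one_le_pow₀ ha1)
  have h5 : (1 : ℝ) ≤ (a : ℝ) ^ 4 := one_le_pow₀ ha1
  have h6 : (1 : ℝ) ≤ (a : ℝ) ^ 4 * ((B : ℝ) ^ 3 * (a : ℝ) ^ n₂) :=
    one_le_mul_of_one_le_of_one_le h5 h4
  have h7 : (16 : ℝ) ≤ (a : ℝ) ^ 2 := by nlinarith
  have e : (a : ℝ) ^ (n₂ + 6) * (B : ℝ) ^ 3 =
      (a : ℝ) ^ 2 * ((a : ℝ) ^ 4 * ((B : ℝ) ^ 3 * (a : ℝ) ^ n₂)) := by ring
  rw [e]
  have h8 : (16 : ℝ) * ((a : ℝ) ^ 4 * ((B : ℝ) ^ 3 * (a : ℝ) ^ n₂)) ≤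
      (a : ℝ) ^ 2 * ((a : ℝ) ^ 4 * ((B : ℝ) ^ 3 * (a : ℝ) ^ n₂)) :=
    mul_le_mul_of_nonneg_right h7 (by linarith)
  have h9 : 4 * (a : ℝ) ^ 4 * (B : ℝ) ^ 3 * (a : ℝ) ^ n₂ =
      4 * ((a : ℝ) ^ 4 * ((B : ℝ) ^ 3 * (a : ℝ) ^ n₂)) := by ring
  rw [h9] at h3
  linarith

open Classical in
/-- Row G7 (MEDIUM). The same as LibNZ69/G7.lean (finished) with other constants:
the number is at most `∑_w #{z} · B · (bound of countT)`, and `sumJ` with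
`J = 2 B^(3+2i+j) / (aB)^n₁`; here `8 a^2 J² < q` because `q ≥ B^i` and `2 n₁ ≥ 2 j + 8 + 3 i`,
`B ≥ a^8`, and `J / B^n₂ ≤ 2 B^(3+2i+j) / B^(n₁+n₂) ≤ 2 B^3 M / B^(n₁+n₂) ≤ 4 a^(n₁+n₂+4) B^3`. -/
theorem countRow {a : ℕ} {σ : ℝ} {e : ℤ × ℤ} {S : Finset (List ℕ)} {l B : ℕ}
    (hE : Ens a σ e S l B) (n₁ n₂ i j M H : ℕ)
    (hM : M = a ^ 4 * (a * B) ^ (n₁ + n₂) + 1) (hn₁ : 2 * j + 8 + 3 * i ≤ 2 * n₁)
    (hH : 8 * (H * (a * B) ^ n₁) ≤ M) (hij : B ^ (2 * i + j) ≤ M)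
    (R : Finset ℕ) (hR : ∀ k ∈ R, k < M) (qf : ℕ → ℕ) (af : ℕ → ℤ)
    (hf : ∀ k ∈ R, Fr M B i j k (qf k) (af k)) (k : ℕ) (hk : k ∈ R) :
    (((wd S n₂ ×ˢ (R ×ˢ wd S n₂)).filter (fun p =>
      close M H ((k : ℤ) • vec e p.1) ((p.2.1 : ℤ) • vec e p.2.2))).card : ℝ) ≤
      (a : ℝ) ^ (80 * (n₁ + n₂ + 1)) * (B : ℝ) ^ 17 * (σ / (σ - 1)) * ((B : ℝ) ^ n₂) ^ σ *
        max 1 (((B : ℝ) ^ (2 * n₂) / (B : ℝ) ^ (i + j)) ^ (σ / 2)) := by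
  have ha4 := hE.a4
  have hB8 := hE.big
  have hs1 := hE.s1
  have hB0 : 0 < B := by
    have : 0 < a ^ 8 := Nat.pow_pos (by omega)
    omega
  have hBR : (0 : ℝ) < B := by exact_mod_cast hB0
  have haR : (1 : ℝ) ≤ a := by
    have : (4 : ℝ) ≤ a := by exact_mod_cast ha4
    linarith
  have ha0 : (0 : ℝ) < a := by linarith
  have hfk := hf k hk
  set q := qf k with hq
  set b := af k with hb
  set Q := B ^ i with hQ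
  have hQ1 : 1 ≤ Q := Nat.one_le_pow _ _ hB0
  have hq1 : 1 ≤ q := hQ1.trans hfk.qlo
  set J := 2 * B ^ (3 + 2 * i + j) / (a * B) ^ n₁ with hJ
  have hJq : 8 * a ^ 2 * J ^ 2 < q := (G7_J a B n₁ i j ha4 hB8 hn₁).trans_le hfk.qlo
  have hH2 := G7_H a B n₁ n₂ H M ha4 hB0 hM hH
  set mx : ℝ := max 1 (((B : ℝ) ^ (2 * n₂) / (B : ℝ) ^ (i + j)) ^ (σ / 2)) with hmx
  set T : ℝ := (a : ℝ) ^ (40 * (n₂ + 1)) * (B : ℝ) ^ 4 * mx with hT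
  have hmx0 : 0 ≤ mx := zero_le_one.trans (le_max_left _ _)
  have hT0 : 0 ≤ T := by positivity
  set Z : List ℕ → Finset (ℤ × ℤ) := fun w =>
    (zs J).filter (fun z => (q : ℤ) ∣ wdg z (vec e w)) with hZ
  set Mo : List ℕ → ℤ × ℤ → Finset ℕ := fun w z =>
    (Finset.Ico Q (B * Q)).filter (fun q' : ℕ => (q : ℤ) ∣ b * q' * (vec e w).1 - z.1 ∧
      (q : ℤ) ∣ b * q' * (vec e w).2 - z.2) with hMo
  set Tt : List ℕ → ℤ × ℤ → ℕ → Finset (ℕ × List ℕ) := fun w z q' =>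
    ((R.filter (fun k' => qf k' = q')) ×ˢ wd S n₂).filter
      (fun p => Rel M H k q b (vec e w) p.1 q' (af p.1) (vec e p.2) z) with hTt
  have hsub : ((wd S n₂ ×ˢ (R ×ˢ wd S n₂)).filter (fun p =>
      close M H ((k : ℤ) • vec e p.1) ((p.2.1 : ℤ) • vec e p.2.2))) ⊆
      (wd S n₂).biUnion fun w => (Z w).biUnion fun z => (Mo w z).biUnion fun q' =>
        (Tt w z q').image (fun p => (w, p)) := by
    rintro ⟨w, k', w'⟩ hp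
    rw [Finset.mem_filter, Finset.mem_product, Finset.mem_product] at hp
    obtain ⟨⟨hw, hk', hw'⟩, hcl⟩ := hp
    simp only at hw hk' hw' hcl
    have hfk' := hf k' hk'
    obtain ⟨z, hz⟩ := rel_of_close M H k q b (vec e w) k' (qf k') (af k') (vec e w') hcl
    obtain ⟨d1, d2, d3⟩ := rel_dvd hz
    have hnz := nm_rel_le hz a B n₁ n₂ i j ha4 hB8 hM hH hfk hfk' (nm_vec_le hE hw)
      (nm_vec_le hE hw')
    rw [Finset.mem_biUnion]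
    refine ⟨w, hw, ?_⟩
    rw [Finset.mem_biUnion]
    refine ⟨z, ?_, ?_⟩
    · rw [hZ, Finset.mem_filter, mem_zs]
      exact ⟨hnz, d3⟩
    rw [Finset.mem_biUnion]
    refine ⟨qf k', ?_, ?_⟩
    · rw [hMo, Finset.mem_filter, Finset.mem_Ico]
      refine ⟨⟨hfk'.qlo, ?_⟩, d1, d2⟩
      have := hfk'.qhi
      rw [pow_succ, mul_comm] at this
      exact this
    rw [Finset.mem_image]
    refine ⟨(k', w'), ?_, rfl⟩
    rw [hTt, Finset.mem_filter, Finset.mem_product, Finset.mem_filter]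
    exact ⟨⟨⟨hk', rfl⟩, hw'⟩, hz⟩
  have hTt_le : ∀ w z q', ((Tt w z q').card : ℝ) ≤ T := by
    intro w z q'
    refine countT hE n₂ i j M H k q b (vec e w) q' z hq1 hH2 (R.filter (fun k' => qf k' = q'))
      (fun k' hk' => hR k' (Finset.mem_filter.1 hk').1) af (fun k' hk' => ?_)
    obtain ⟨h1, h2⟩ := Finset.mem_filter.1 hk'
    rw [← h2]
    exact hf k' h1
  have hMo_le : ∀ w z, ((Mo w z).card : ℝ) ≤ B := by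
    intro w z
    have h1 := card_moduli B Q q hQ1 hfk.qlo b hfk.cop (vec e w) z (coprime_vec e hE.cop w)
    exact_mod_cast h1
  have hcard : (((wd S n₂ ×ˢ (R ×ˢ wd S n₂)).filter (fun p =>
      close M H ((k : ℤ) • vec e p.1) ((p.2.1 : ℤ) • vec e p.2.2))).card : ℝ) ≤
      ∑ w ∈ wd S n₂, ∑ z ∈ Z w, ∑ q' ∈ Mo w z, ((Tt w z q').card : ℝ) := by
    have h1 : ((wd S n₂ ×ˢ (R ×ˢ wd S n₂)).filter (fun p =>
      close M H ((k : ℤ) • vec e p.1) ((p.2.1 : ℤ) • vec e p.2.2))).card ≤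
      ∑ w ∈ wd S n₂, ∑ z ∈ Z w, ∑ q' ∈ Mo w z, (Tt w z q').card := by
      refine (Finset.card_le_card hsub).trans ?_
      refine Finset.card_biUnion_le.trans (Finset.sum_le_sum fun w _ => ?_)
      refine Finset.card_biUnion_le.trans (Finset.sum_le_sum fun z _ => ?_)
      refine Finset.card_biUnion_le.trans (Finset.sum_le_sum fun q' _ => ?_)
      exact Finset.card_image_le
    exact_mod_cast h1
  have hsum : ∑ w ∈ wd S n₂, ∑ z ∈ Z w, ∑ q' ∈ Mo w z, ((Tt w z q').card : ℝ) ≤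
      (∑ w ∈ wd S n₂, ((Z w).card : ℝ)) * (B * T) := by
    rw [Finset.sum_mul]
    refine Finset.sum_le_sum fun w _ => ?_
    calc ∑ z ∈ Z w, ∑ q' ∈ Mo w z, ((Tt w z q').card : ℝ) ≤ ∑ z ∈ Z w, (B : ℝ) * T := by
          refine Finset.sum_le_sum fun z _ => ?_
          calc ∑ q' ∈ Mo w z, ((Tt w z q').card : ℝ) ≤ ∑ q' ∈ Mo w z, T :=
                Finset.sum_le_sum fun q' _ => hTt_le w z q'
            _ = ((Mo w z).card : ℝ) * T := by rw [Finset.sum_const, nsmul_eq_mul]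
            _ ≤ B * T := mul_le_mul_of_nonneg_right (hMo_le w z) hT0
      _ = ((Z w).card : ℝ) * (B * T) := by rw [Finset.sum_const, nsmul_eq_mul]
  have hJs := sumJ hE n₂ q J hJq
  have hnum := G7_num a B n₁ n₂ i j M ha4 hB0 hM hij
  refine (hcard.trans hsum).trans ?_
  have hP : 0 ≤ ((B : ℝ) ^ n₂) ^ σ := by positivity
  have hz0 : 0 ≤ σ / (σ - 1) := div_nonneg (by linarith) (by linarith)
  calc (∑ w ∈ wd S n₂, ((Z w).card : ℝ)) * (B * T) ≤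
        ((a : ℝ) ^ (30 * (n₂ + 1)) * (B : ℝ) ^ 9 * (σ / (σ - 1)) * ((B : ℝ) ^ n₂) ^ σ *
          (1 + J / (B : ℝ) ^ n₂)) * (B * T) :=
        mul_le_mul_of_nonneg_right hJs (by positivity)
    _ ≤ ((a : ℝ) ^ (30 * (n₂ + 1)) * (B : ℝ) ^ 9 * (σ / (σ - 1)) * ((B : ℝ) ^ n₂) ^ σ *
          ((a : ℝ) ^ (n₂ + 6) * (B : ℝ) ^ 3)) * (B * T) := by
        refine mul_le_mul_of_nonneg_right ?_ (by positivity)
        exact mul_le_mul_of_nonneg_left hnum (by positivity)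
    _ = ((a : ℝ) ^ (30 * (n₂ + 1)) * (a : ℝ) ^ (n₂ + 6) * (a : ℝ) ^ (40 * (n₂ + 1))) *
          (B : ℝ) ^ 17 * (σ / (σ - 1)) * ((B : ℝ) ^ n₂) ^ σ * mx := by
        rw [hT]; ring
    _ ≤ (a : ℝ) ^ (80 * (n₁ + n₂ + 1)) * (B : ℝ) ^ 17 * (σ / (σ - 1)) *
          ((B : ℝ) ^ n₂) ^ σ * mx := by
        refine mul_le_mul_of_nonneg_right ?_ hmx0
        refine mul_le_mul_of_nonneg_right ?_ hP
        refine mul_le_mul_of_nonneg_right ?_ hz0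
        refine mul_le_mul_of_nonneg_right ?_ (by positivity)
        rw [← pow_add, ← pow_add]
        exact pow_le_pow_right₀ haR (by omega)

end Pool.Agent.LibNW69
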