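import Pool.Agent.LibNW69.EA
import Pool.Agent.LibNW69.E2

set_option autoImplicit false

namespace Pool.Agent.LibNW69

open Pool.Agent.LibNZ69

/-! Row H1 (MEDIUM). Cylinders. For `x ∈ E A` the iterates `gauss^[n] x` are in `(0, 1)` and
irrational, and `x = 1 / (a₁ + gauss x)`. By induction on `l`: `x = (α t + β) / (γ t + δ)` with
`(α, γ) = act w (1, 0)`, `(β, δ) = act w (0, 1)`, `t = gauss^[l] x`, `w` the word of the first `l`
digits (induct with `w = [a₁] ++ w'`, `act [a₁] v = (v.2, v.1 + a₁ v.2)`, and `gauss x ∈ E A`). -/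

/-- the cylinder of the word `w` -/
def cyl (w : List ℕ) : Set ℝ :=
  {x | ∃ t : ℝ, 0 ≤ t ∧ t ≤ 1 ∧
    x = (((act w (1, 0)).1 : ℤ) * t + ((act w (0, 1)).1 : ℤ)) /
      (((act w (1, 0)).2 : ℤ) * t + ((act w (0, 1)).2 : ℤ))}

private theorem H1_pos (w : List ℕ) :
    0 ≤ (act w (1, 0)).1 ∧ 0 ≤ (act w (1, 0)).2 ∧ 0 ≤ (act w (0, 1)).1 ∧
      0 ≤ (act w (0, 1)).2 := by
  induction w with
  | nil => simp [act]
  | cons a w ih =>
    obtain ⟨h1, h2, h3, h4⟩ := ih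
    have ha : (0 : ℤ) ≤ (a : ℤ) := Int.natCast_nonneg a
    simp only [act, gl]
    exact ⟨h2, add_nonneg h1 (mul_nonneg ha h2), h4, add_nonneg h3 (mul_nonneg ha h4)⟩

private theorem H1_pos1 (w : List ℕ) (hw : ∀ x ∈ w, 1 ≤ x) : 1 ≤ (act w (0, 1)).2 := by
  induction w with
  | nil => simp [act]
  | cons a w ih =>
    have h1 : 1 ≤ (act w (0, 1)).2 := ih (fun x hx => hw x (List.mem_cons_of_mem _ hx))
    have ha : (1 : ℤ) ≤ (a : ℤ) := by exact_mod_cast hw a List.mem_cons_self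
    have h3 := (H1_pos w).2.2.1
    simp only [act, gl]
    nlinarith

private theorem H1_det (w : List ℕ) :
    |((act w (1, 0)).1 : ℝ) * ((act w (0, 1)).2 : ℝ)
      - ((act w (1, 0)).2 : ℝ) * ((act w (0, 1)).1 : ℝ)| = 1 := by
  have h := abs_wdg_act w (1, 0) (0, 1)
  have h2 : |wdg ((1 : ℤ), (0 : ℤ)) ((0 : ℤ), (1 : ℤ))| = 1 := by simp [wdg]
  rw [h2] at h
  unfold wdg at h
  have h3 : ((|(act w (1, 0)).1 * (act w (0, 1)).2 - (act w (1, 0)).2 * (act w (0, 1)).1| : ℤ) : ℝ)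
      = 1 := by rw [h]; norm_num
  push_cast at h3
  exact h3

theorem gauss_mem (A : Finset ℕ) (hA : ∀ x ∈ A, 1 ≤ x) (x : ℝ) (hx : x ∈ E A) :
    gauss x ∈ E A ∧ ∃ k ∈ A, x = 1 / ((k : ℝ) + gauss x) := by
  obtain ⟨h0, h1, hirr, hn⟩ := hx
  have hinv : Irrational x⁻¹ := hirr.inv
  have hfr : Irrational (gauss x) := by
    unfold gauss
    rw [Int.fract]
    exact hinv.sub_intCast _
  have hpos : 0 < gauss x := by
    rcases (Int.fract_nonneg x⁻¹).lt_or_eq with h | h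
    · exact h
    · exfalso
      apply hfr
      refine ⟨0, ?_⟩
      rw [Rat.cast_zero]
      exact h
  refine ⟨⟨hpos, Int.fract_lt_one _, hfr, fun n => ?_⟩, ?_⟩
  · obtain ⟨k, hk, he⟩ := hn (n + 1)
    refine ⟨k, hk, ?_⟩
    rw [Function.iterate_succ_apply] at he
    exact he
  · obtain ⟨k, hk, he⟩ := hn 0
    refine ⟨k, hk, ?_⟩
    have he' : ⌊x⁻¹⌋ = (k : ℤ) := he
    have h2 : (k : ℝ) + gauss x = x⁻¹ := by
      unfold gauss
      have h3 := Int.floor_add_fract x⁻¹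
      rw [he'] at h3
      exact_mod_cast h3
    rw [h2, one_div, inv_inv]

theorem mem_cyl (A : Finset ℕ) (hA : ∀ x ∈ A, 1 ≤ x) (l : ℕ) (x : ℝ) (hx : x ∈ E A) :
    ∃ w ∈ wd (letters A) l, x ∈ cyl w := by
  induction l generalizing x with
  | zero =>
    refine ⟨[], ?_, x, hx.1.le, hx.2.1.le, ?_⟩
    · simp [wd]
    · simp [act]
  | succ l ih =>
    obtain ⟨hg, k, hk, hxk⟩ := gauss_mem A hA x hx
    obtain ⟨w, hw, t, ht0, ht1, ht⟩ := ih (gauss x) hg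
    have hwl := (mem_wd_letters A l w).1 hw
    have hpos := H1_pos w
    have hp1 := H1_pos1 w (fun y hy => hA y (hwl.2 y hy))
    refine ⟨k :: w, ?_, t, ht0, ht1, ?_⟩
    · rw [mem_wd_letters]
      refine ⟨by rw [List.length_cons, hwl.1], fun y hy => ?_⟩
      rcases List.mem_cons.1 hy with h | h
      · rw [h]; exact hk
      · exact hwl.2 y h
    · have hγ : (0 : ℝ) ≤ ((act w (1, 0)).2 : ℝ) := by exact_mod_cast hpos.2.1
      have hδ : (1 : ℝ) ≤ ((act w (0, 1)).2 : ℝ) := by exact_mod_cast hp1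
      have hα : (0 : ℝ) ≤ ((act w (1, 0)).1 : ℝ) := by exact_mod_cast hpos.1
      have hβ : (0 : ℝ) ≤ ((act w (0, 1)).1 : ℝ) := by exact_mod_cast hpos.2.2.1
      have hk1 : (1 : ℝ) ≤ (k : ℝ) := by exact_mod_cast hA k hk
      have hden : 0 < ((act w (1, 0)).2 : ℝ) * t + ((act w (0, 1)).2 : ℝ) := by
        have := mul_nonneg hγ ht0
        linarith
      have hnum : 0 ≤ ((act w (1, 0)).1 : ℝ) * t + ((act w (0, 1)).1 : ℝ) := by
        have := mul_nonneg hα ht0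
        linarith
      rw [hxk, ht]
      simp only [act, gl]
      push_cast
      set α : ℝ := ((act w (1, 0)).1 : ℝ)
      set γ : ℝ := ((act w (1, 0)).2 : ℝ)
      set β : ℝ := ((act w (0, 1)).1 : ℝ)
      set δ : ℝ := ((act w (0, 1)).2 : ℝ)
      have h1 : (k : ℝ) + (α * t + β) / (γ * t + δ)
          = ((α + k * γ) * t + (β + k * δ)) / (γ * t + δ) := by
        rw [eq_div_iff hden.ne', add_mul, div_mul_cancel₀ _ hden.ne']
        ring
      rw [h1, one_div_div]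

/-- `(α t + β)/(γ t + δ) - (α t' + β)/(γ t' + δ) = ± (t - t') / ((γ t + δ) (γ t' + δ))`
(`wdg_act`), `γ ≥ 0`, `δ = K(w) ≥ 1`. -/
theorem dist_cyl (w : List ℕ) (hw : ∀ x ∈ w, 1 ≤ x) (x y : ℝ) (hx : x ∈ cyl w) (hy : y ∈ cyl w) :
    |x - y| ≤ 1 / (((act w (0, 1)).2 : ℤ) : ℝ) ^ 2 := by
  obtain ⟨t, ht0, ht1, hxt⟩ := hx
  obtain ⟨s, hs0, hs1, hys⟩ := hy
  have hpos := H1_pos w
  have hp1 := H1_pos1 w hw
  have hdet := H1_det w
  have hγ : (0 : ℝ) ≤ ((act w (1, 0)).2 : ℝ) := by exact_mod_cast hpos.2.1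
  have hδ : (1 : ℝ) ≤ ((act w (0, 1)).2 : ℝ) := by exact_mod_cast hp1
  rw [hxt, hys]
  set α : ℝ := ((act w (1, 0)).1 : ℝ)
  set γ : ℝ := ((act w (1, 0)).2 : ℝ)
  set β : ℝ := ((act w (0, 1)).1 : ℝ)
  set δ : ℝ := ((act w (0, 1)).2 : ℝ)
  have hd1 : δ ≤ γ * t + δ := by
    have := mul_nonneg hγ ht0
    linarith
  have hd2 : δ ≤ γ * s + δ := by
    have := mul_nonneg hγ hs0
    linarith
  have hδ0 : 0 < δ := by linarith
  have h1 : 0 < γ * t + δ := by linarith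
  have h2 : 0 < γ * s + δ := by linarith
  have he : (α * t + β) / (γ * t + δ) - (α * s + β) / (γ * s + δ)
      = ((α * δ - γ * β) * (t - s)) / ((γ * t + δ) * (γ * s + δ)) := by
    rw [div_sub_div _ _ h1.ne' h2.ne']
    congr 1
    ring
  rw [he, abs_div, abs_mul, hdet, one_mul, abs_of_pos (mul_pos h1 h2)]
  have hts : |t - s| ≤ 1 := by
    rw [abs_le]
    constructor <;> linarith
  refine div_le_div₀ zero_le_one hts (by positivity) ?_
  rw [sq]
  exact mul_le_mul hd1 hd2 hδ0.le h1.le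

/-- hence -/
theorem ediam_cyl (w : List ℕ) (hw : ∀ x ∈ w, 1 ≤ x) :
    Metric.ediam (cyl w) ≤ ENNReal.ofReal (1 / (((act w (0, 1)).2 : ℤ) : ℝ) ^ 2) := by
  refine Metric.ediam_le fun x hx y hy => ?_
  rw [edist_dist, Real.dist_eq]
  exact ENNReal.ofReal_le_ofReal (dist_cyl w hw x y hx hy)

end Pool.Agent.LibNW69
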