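import Pool.Agent.LibNW69.G7
import Pool.Agent.LibNZ69.F3

set_option autoImplicit false

namespace Pool.Agent.LibNW69

open Pool.Agent.LibNZ69

private theorem K1_M_le {a n B M : ℕ} (ha : 4 ≤ a) (hB : 1 ≤ B)
    (hM : M = a ^ 4 * (a * B) ^ n + 1) : M ≤ a ^ (n + 5) * B ^ n := by
  have h0 : 1 ≤ a ^ 4 * (a * B) ^ n := Nat.one_le_iff_ne_zero.2 (by positivity)
  calc M ≤ 2 * (a ^ 4 * (a * B) ^ n) := by omega
    _ ≤ a * (a ^ 4 * (a * B) ^ n) := Nat.mul_le_mul_right _ (by omega)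
    _ = a ^ (n + 5) * B ^ n := by
        rw [mul_pow]
        ring

/-- `n₁ < n` -/
private theorem K1_lt {a n i j M B n₁ : ℕ} (hn : 40 ≤ n) (ha : 4 ≤ a) (hB : a ^ 8 ≤ B)
    (hM : M = a ^ 4 * (a * B) ^ n + 1) (hij : B ^ (2 * i + j) ≤ M) (hij' : B ^ (2 * (i + j)) ≤ M)
    (hn₁ : 2 * n₁ ≤ 2 * j + 9 + 3 * i) :
    B ^ (4 * n₁) ≤ a ^ (15 + 3 * n) * B ^ (18 + 3 * n) ∧ n₁ < n := by
  have hB1 : 1 ≤ B := le_trans (Nat.one_le_pow _ _ (by omega)) hB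
  have hM8 := K1_M_le ha hB1 hM
  have h1 : B ^ (4 * n₁) ≤ a ^ (15 + 3 * n) * B ^ (18 + 3 * n) := by
    calc B ^ (4 * n₁) ≤ B ^ (18 + (2 * i + j) * 2 + 2 * (i + j)) :=
          Nat.pow_le_pow_right hB1 (by omega)
      _ = B ^ 18 * (B ^ (2 * i + j)) ^ 2 * B ^ (2 * (i + j)) := by
          rw [pow_add, pow_add, pow_mul B (2 * i + j) 2]
      _ ≤ B ^ 18 * M ^ 2 * M := by gcongr
      _ ≤ B ^ 18 * (a ^ (n + 5) * B ^ n) ^ 2 * (a ^ (n + 5) * B ^ n) := by gcongr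
      _ = a ^ (15 + 3 * n) * B ^ (18 + 3 * n) := by ring
  refine ⟨h1, ?_⟩
  by_contra hcon
  rw [not_lt] at hcon
  have h2 : B ^ (18 + 3 * n) * B ^ (n - 18) ≤ B ^ (18 + 3 * n) * a ^ (15 + 3 * n) := by
    calc B ^ (18 + 3 * n) * B ^ (n - 18) = B ^ (4 * n) := by
          rw [← pow_add]
          congr 1
          omega
      _ ≤ B ^ (4 * n₁) := Nat.pow_le_pow_right hB1 (by omega)
      _ ≤ a ^ (15 + 3 * n) * B ^ (18 + 3 * n) := h1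
      _ = B ^ (18 + 3 * n) * a ^ (15 + 3 * n) := by ring
  have h3 : B ^ (n - 18) ≤ a ^ (15 + 3 * n) := Nat.le_of_mul_le_mul_left h2 (by positivity)
  have h4 : a ^ (8 * (n - 18)) ≤ a ^ (15 + 3 * n) := by
    calc a ^ (8 * (n - 18)) = (a ^ 8) ^ (n - 18) := by rw [pow_mul]
      _ ≤ B ^ (n - 18) := Nat.pow_le_pow_left hB _
      _ ≤ a ^ (15 + 3 * n) := h3
  have h5 := (Nat.pow_le_pow_iff_right (by omega : 1 < a)).1 h4
  omega

private theorem K1_lin1 {α β N N1 : ℝ} (hα : 0 ≤ α) (hN : 1 ≤ N) (hN1 : N1 ≤ N)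
    (h1 : 4 * N1 * β ≤ (15 + 3 * N) * α + (18 + 3 * N) * β) :
    5 * α + 2 * (N1 * (α + β)) ≤ 10 * (N + 1) * α + 9 * β + 3 / 2 * (N * β) := by
  have a1 := mul_le_mul_of_nonneg_right hN1 hα
  have a2 := mul_le_mul_of_nonneg_right hN hα
  nlinarith

private theorem K1_lin2 {α β σ N N1 N2 I J : ℝ} (hα : 0 ≤ α) (hβ : 0 ≤ β) (s1 : 1 < σ)
    (s2 : σ ≤ 3 / 2) (hN : 1 ≤ N) (hN1 : N1 ≤ N) (hN2 : N1 + N2 = N) (hJ : 0 ≤ J)
    (hn : 2 * N1 ≤ 2 * J + 9 + 3 * I) (h2 : 2 * (I + J) * β ≤ (N + 5) * α + N * β) :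
    5 * α + 2 * (N1 * (α + β)) + σ / 2 * (2 * N2 * β - (I + J) * β) ≤
      10 * (N + 1) * α + 9 * β + 3 / 2 * (N * β) := by
  have c1 : (2 - σ) * (2 * N1) ≤ (2 - σ) * (2 * J + 9 + 3 * I) :=
    mul_le_mul_of_nonneg_left hn (by linarith)
  have c2 : (2 - σ) * N1 - σ / 2 * (I + J) ≤ 9 / 2 + (3 - 2 * σ) * (I + J) := by
    have d1 : 0 ≤ (1 - σ / 2) * J := mul_nonneg (by linarith) hJ
    nlinarith
  have c3 : ((2 - σ) * N1 - σ / 2 * (I + J)) * β ≤ (9 / 2 + (3 - 2 * σ) * (I + J)) * β :=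
    mul_le_mul_of_nonneg_right c2 hβ
  have c4 : (3 / 2 - σ) * (2 * (I + J) * β) ≤ (3 / 2 - σ) * ((N + 5) * α + N * β) :=
    mul_le_mul_of_nonneg_left h2 (by linarith)
  have c5 : (3 / 2 - σ) * ((N + 5) * α) ≤ 1 * ((N + 5) * α) :=
    mul_le_mul_of_nonneg_right (by linarith) (mul_nonneg (by linarith) hα)
  have a1 := mul_le_mul_of_nonneg_right hN1 hα
  have a2 := mul_le_mul_of_nonneg_right hN hα
  have hN2' : N2 = N - N1 := by linarith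
  subst hN2'
  nlinarith

private theorem K1_final {a : ℕ} {σ : ℝ} {n n₁ n₂ i j M B : ℕ} (ha : 4 ≤ a) (s1 : 1 < σ)
    (s2 : σ ≤ 3 / 2) (hn : n₁ + n₂ = n) (hn1 : 1 ≤ n) (hB : 1 ≤ B)
    (hM : M = a ^ 4 * (a * B) ^ n + 1) (hij' : B ^ (2 * (i + j)) ≤ M)
    (h1 : B ^ (4 * n₁) ≤ a ^ (15 + 3 * n) * B ^ (18 + 3 * n))
    (hn₁ : 2 * n₁ ≤ 2 * j + 9 + 3 * i) :
    4 * (16 * ((a : ℝ) * (B : ℝ)) ^ n₁) ^ 2 * ((B : ℝ) ^ n₁) ^ σ *
      ((a : ℝ) ^ (80 * (n + 1)) * (B : ℝ) ^ 17 * (σ / (σ - 1)) * ((B : ℝ) ^ n₂) ^ σ *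
        max 1 (((B : ℝ) ^ (2 * n₂) / (B : ℝ) ^ (i + j)) ^ (σ / 2))) ≤
      (a : ℝ) ^ (90 * (n + 1)) * (B : ℝ) ^ 26 * (σ / (σ - 1)) * ((B : ℝ) ^ n) ^ (σ + 3 / 2) := by
  have hM8 := K1_M_le ha hB hM
  have h2 : B ^ (2 * (i + j)) ≤ a ^ (n + 5) * B ^ n := hij'.trans hM8
  have hA4 : (4 : ℝ) ≤ a := by exact_mod_cast ha
  have hb1 : (1 : ℝ) ≤ B := by exact_mod_cast hB
  have h1R : (B : ℝ) ^ (4 * n₁) ≤ (a : ℝ) ^ (15 + 3 * n) * (B : ℝ) ^ (18 + 3 * n) := by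
    exact_mod_cast h1
  have h2R : (B : ℝ) ^ (2 * (i + j)) ≤ (a : ℝ) ^ (n + 5) * (B : ℝ) ^ n := by exact_mod_cast h2
  have hnR : (n₁ : ℝ) + n₂ = n := by exact_mod_cast hn
  have hn1R : (1 : ℝ) ≤ n := by exact_mod_cast hn1
  have hle : (n₁ : ℝ) ≤ n := by
    have : (0 : ℝ) ≤ n₂ := Nat.cast_nonneg _
    linarith
  have hn₁R : 2 * (n₁ : ℝ) ≤ 2 * j + 9 + 3 * i := by exact_mod_cast hn₁
  generalize (a : ℝ) = A at *
  generalize (B : ℝ) = b at *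
  have hA0 : 0 < A := by linarith
  have hb0 : 0 < b := by linarith
  have hα : 0 ≤ Real.log A := Real.log_nonneg (by linarith)
  have hβ : 0 ≤ Real.log b := Real.log_nonneg hb1
  have g1 : 4 * (n₁ : ℝ) * Real.log b ≤ (15 + 3 * (n : ℝ)) * Real.log A +
      (18 + 3 * (n : ℝ)) * Real.log b := by
    have h3 := Real.log_le_log (by positivity) h1R
    rw [Real.log_mul (by positivity) (by positivity), Real.log_pow, Real.log_pow, Real.log_pow] at h3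
    push_cast at h3
    exact h3
  have g2 : 2 * ((i : ℝ) + j) * Real.log b ≤ ((n : ℝ) + 5) * Real.log A + n * Real.log b := by
    have h3 := Real.log_le_log (by positivity) h2R
    rw [Real.log_mul (by positivity) (by positivity), Real.log_pow, Real.log_pow, Real.log_pow] at h3
    push_cast at h3
    exact h3
  have L1 : Real.log (A ^ 5) = 5 * Real.log A := by
    rw [Real.log_pow]
    norm_num
  have L2 : Real.log (((A * b) ^ n₁) ^ 2) = 2 * (n₁ * (Real.log A + Real.log b)) := by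
    rw [Real.log_pow, Real.log_pow, Real.log_mul hA0.ne' hb0.ne']
    norm_num
  have L3 : ∀ m : ℕ, Real.log ((b ^ m) ^ σ) = σ * (m * Real.log b) := by
    intro m
    rw [Real.log_rpow (by positivity), Real.log_pow]
  have L5 : Real.log (A ^ (10 * (n + 1))) = 10 * ((n : ℝ) + 1) * Real.log A := by
    rw [Real.log_pow]
    push_cast
    ring
  have L6 : Real.log (b ^ 9) = 9 * Real.log b := by
    rw [Real.log_pow]
    norm_num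
  have L7 : Real.log ((b ^ n) ^ (σ + 3 / 2)) = (σ + 3 / 2) * (n * Real.log b) := by
    rw [Real.log_rpow (by positivity), Real.log_pow]
  have L8 : Real.log ((b ^ (2 * n₂) / b ^ (i + j)) ^ (σ / 2)) =
      σ / 2 * (2 * n₂ * Real.log b - ((i : ℝ) + j) * Real.log b) := by
    rw [Real.log_rpow (by positivity), Real.log_div (by positivity) (by positivity), Real.log_pow,
      Real.log_pow]
    push_cast
    ring
  have LR : Real.log (A ^ (10 * (n + 1)) * b ^ 9 * (b ^ n) ^ (σ + 3 / 2)) =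
      10 * ((n : ℝ) + 1) * Real.log A + 9 * Real.log b + (σ + 3 / 2) * (n * Real.log b) := by
    rw [Real.log_mul (by positivity) (by positivity), Real.log_mul (by positivity) (by positivity),
      L5, L6, L7]
  have LL : Real.log (A ^ 5 * ((A * b) ^ n₁) ^ 2 * (b ^ n₁) ^ σ * (b ^ n₂) ^ σ) =
      5 * Real.log A + 2 * (n₁ * (Real.log A + Real.log b)) + σ * (n₁ * Real.log b) +
        σ * (n₂ * Real.log b) := by
    rw [Real.log_mul (by positivity) (by positivity), Real.log_mul (by positivity) (by positivity),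
      Real.log_mul (by positivity) (by positivity), L1, L2, L3, L3]
  have hsum : σ * ((n₁ : ℝ) * Real.log b) + σ * (n₂ * Real.log b) = σ * (n * Real.log b) := by
    rw [← hnR]
    ring
  have key : A ^ 5 * ((A * b) ^ n₁) ^ 2 * (b ^ n₁) ^ σ * (b ^ n₂) ^ σ *
      max 1 ((b ^ (2 * n₂) / b ^ (i + j)) ^ (σ / 2)) ≤
      A ^ (10 * (n + 1)) * b ^ 9 * (b ^ n) ^ (σ + 3 / 2) := by
    rw [mul_max_of_nonneg _ _ (by positivity), max_le_iff]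
    constructor
    · rw [mul_one, ← Real.log_le_log_iff (by positivity) (by positivity), LR, LL]
      have := K1_lin1 hα hn1R hle g1
      linarith
    · rw [← Real.log_le_log_iff (by positivity) (by positivity), LR,
        Real.log_mul (by positivity) (by positivity), LL, L8]
      have := K1_lin2 hα hβ s1 s2 hn1R hle hnR (Nat.cast_nonneg j) hn₁R g2
      linarith
  have hζ : 0 < σ / (σ - 1) := div_pos (by linarith) (by linarith)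
  have hc : 0 ≤ A ^ (80 * (n + 1)) * b ^ 17 * (σ / (σ - 1)) := by positivity
  have hk := mul_le_mul_of_nonneg_left key hc
  have h1024 : (1024 : ℝ) ≤ A ^ 5 := by
    calc (1024 : ℝ) = 4 ^ 5 := by norm_num
      _ ≤ A ^ 5 := pow_le_pow_left₀ (by norm_num) hA4 5
  have hmx : 0 ≤ max 1 ((b ^ (2 * n₂) / b ^ (i + j)) ^ (σ / 2)) :=
    le_trans zero_le_one (le_max_left _ _)
  calc 4 * (16 * (A * b) ^ n₁) ^ 2 * (b ^ n₁) ^ σ *
      (A ^ (80 * (n + 1)) * b ^ 17 * (σ / (σ - 1)) * (b ^ n₂) ^ σ *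
        max 1 ((b ^ (2 * n₂) / b ^ (i + j)) ^ (σ / 2)))
      = 1024 * ((A ^ (80 * (n + 1)) * b ^ 17 * (σ / (σ - 1))) * (((A * b) ^ n₁) ^ 2 *
        (b ^ n₁) ^ σ * (b ^ n₂) ^ σ * max 1 ((b ^ (2 * n₂) / b ^ (i + j)) ^ (σ / 2)))) := by ring
    _ ≤ A ^ 5 * ((A ^ (80 * (n + 1)) * b ^ 17 * (σ / (σ - 1))) * (((A * b) ^ n₁) ^ 2 *
        (b ^ n₁) ^ σ * (b ^ n₂) ^ σ * max 1 ((b ^ (2 * n₂) / b ^ (i + j)) ^ (σ / 2)))) :=
        mul_le_mul_of_nonneg_right h1024 (by positivity)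
    _ = (A ^ (80 * (n + 1)) * b ^ 17 * (σ / (σ - 1))) * (A ^ 5 * ((A * b) ^ n₁) ^ 2 *
        (b ^ n₁) ^ σ * (b ^ n₂) ^ σ * max 1 ((b ^ (2 * n₂) / b ^ (i + j)) ^ (σ / 2))) := by ring
    _ ≤ (A ^ (80 * (n + 1)) * b ^ 17 * (σ / (σ - 1))) *
        (A ^ (10 * (n + 1)) * b ^ 9 * (b ^ n) ^ (σ + 3 / 2)) := hk
    _ = A ^ (90 * (n + 1)) * b ^ 26 * (σ / (σ - 1)) * (b ^ n) ^ (σ + 3 / 2) := by ring

/-- Row K1 (MEDIUM). As in LibNZ69/K1.lean (finished). Put `n₁ = j + 4 + (3 i + 1) / 2`; then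
`B^(2 n₁) ≤ B^9 B^(2i+j) B^(i+j) ≤ B^9 M^(3/2) < B^(2n)` for `n ≥ 40`, `B ≥ a^8`
(`M ≤ a^(n+5) B^n`), so `n₁ < n`; put `n₂ = n - n₁`, `L = (aB)^n₁`, `H = M / (8 L)` (so `1 ≤ H`,
`M / H ≤ 16 L`, `H ≤ a^4 (aB)^n₂`), `V = {row u (0,1) : u ∈ wd S n₁}` (`row_inj`, `row_box`), and
apply `dual` and `countRow`. The result is
`≤ 4 · 256 L² (B^n₁)^σ a^(80(n+1)) B^17 ζ (B^n₂)^σ max 1 (…)`, `ζ = σ/(σ-1)`, `L² ≤ a^(2n) B^(2n₁)`.
If the max is `1`: `B^(2 n₁) ≤ B^9 M^(3/2) ≤ B^9 a^(2n+8) (B^n)^(3/2)`.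
Otherwise, with `B^(2 n₁) (B^n₁)^σ (B^n₂)^σ (B^(2 n₂))^(σ/2) = (B^n)^(2σ) (B^n₁)^(2-σ)`:
`(2-σ) n₁ - (σ/2)(i+j) ≤ (2-σ)(9/2) + (2 - 3σ/2) j + (3-2σ) i ≤ 9/2 + (3-2σ)(i+j)`
(because `2 - 3σ/2 ≤ 3 - 2σ`; note `σ ≤ 3/2`), and
`B^((3-2σ)(i+j)) ≤ M^(3/2-σ) ≤ a^(n+5) (B^n)^(3/2-σ)` by `hij'`. Total in both cases
`≤ 1024 a^(2n) a^(80(n+1)) a^(2n+8) B^26 ζ (B^n)^(σ+3/2)`. -/
theorem classBound {a : ℕ} {σ : ℝ} {e : ℤ × ℤ} {S : Finset (List ℕ)} {l B : ℕ}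
    (hE : Ens a σ e S l B) (n i j M : ℕ) (hn : 40 ≤ n)
    (hM : M = a ^ 4 * (a * B) ^ n + 1) (hij : B ^ (2 * i + j) ≤ M) (hij' : B ^ (2 * (i + j)) ≤ M)
    (R : Finset ℕ) (hR : ∀ k ∈ R, k < M) (qf : ℕ → ℕ) (af : ℕ → ℤ)
    (hf : ∀ k ∈ R, Fr M B i j k (qf k) (af k)) :
    ∑ k ∈ R, ‖∑ w ∈ wd S n, ch M ((k : ℤ) * (vec e w).2)‖ ^ 2 ≤
      (a : ℝ) ^ (90 * (n + 1)) * (B : ℝ) ^ 26 * (σ / (σ - 1)) *
        ((B : ℝ) ^ n) ^ (σ + 3 / 2) := by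
  classical
  have ha := hE.a4
  have hB1 : 1 ≤ B := le_trans (Nat.one_le_pow _ _ (by omega)) hE.big
  have haB : 1 ≤ a * B := Nat.one_le_iff_ne_zero.2 (by positivity)
  obtain ⟨n₁, hn₁a, hn₁b⟩ : ∃ n₁ : ℕ, 2 * j + 8 + 3 * i ≤ 2 * n₁ ∧ 2 * n₁ ≤ 2 * j + 9 + 3 * i :=
    ⟨j + 4 + (3 * i + 1) / 2, by omega, by omega⟩
  obtain ⟨hp, hlt⟩ := K1_lt hn ha hE.big hM hij hij' hn₁b
  obtain ⟨n₂, hn₂⟩ : ∃ n₂, n₁ + n₂ = n := ⟨n - n₁, by omega⟩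
  set L : ℕ := (a * B) ^ n₁ with hL
  have hL1 : 1 ≤ L := Nat.one_le_pow _ _ haB
  have hML : 8 * L ≤ M := by
    rw [hM, ← hn₂, pow_add, ← hL]
    have h2 : 1 ≤ (a * B) ^ n₂ := Nat.one_le_pow _ _ haB
    have h3 : 8 ≤ a ^ 4 := le_trans (by norm_num) (Nat.pow_le_pow_left ha 4)
    calc 8 * L = 8 * (L * 1) := by ring
      _ ≤ a ^ 4 * (L * (a * B) ^ n₂) := Nat.mul_le_mul h3 (Nat.mul_le_mul_left _ h2)
      _ ≤ a ^ 4 * (L * (a * B) ^ n₂) + 1 := Nat.le_succ _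
  set H : ℕ := M / (8 * L) with hH
  have hH1 : 1 ≤ H := (Nat.one_le_div_iff (by omega)).2 hML
  have hHL : 8 * (H * L) ≤ M := by
    have := Nat.div_mul_le_self M (8 * L)
    rw [← hH] at this
    calc 8 * (H * L) = H * (8 * L) := by ring
      _ ≤ M := this
  have hMH : M ≤ 16 * L * H := by
    have h1 : M < 8 * L * (H + 1) := by
      have := Nat.lt_mul_div_succ M (show 0 < 8 * L by omega)
      rwa [← hH] at this
    nlinarith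
  have hMHR : (M : ℝ) / H ≤ 16 * ((a : ℝ) * (B : ℝ)) ^ n₁ := by
    have hH0 : (0 : ℝ) < H := by exact_mod_cast hH1
    rw [div_le_iff₀ hH0]
    have h2 : (M : ℝ) ≤ 16 * L * H := by exact_mod_cast hMH
    have h3 : ((L : ℕ) : ℝ) = ((a : ℝ) * (B : ℝ)) ^ n₁ := by
      rw [hL]
      push_cast
      ring
    rwa [h3] at h2
  -- the row vectors
  set V : Finset (ℤ × ℤ) := (wd S n₁).image (fun u => row u (0, 1)) with hV
  have hinj : Set.InjOn (fun u => row u (0, 1)) (wd S n₁ : Set (List ℕ)) := by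
    intro u hu u' hu' he
    rw [Finset.mem_coe] at hu hu'
    exact row_inj u u' (by rw [wd_len hE hu, wd_len hE hu']) (fun x hx => (wd_dig hE hu x hx).1)
      (fun x hx => (wd_dig hE hu' x hx).1) he
  have hVb : ∀ v ∈ V, 0 ≤ v.1 ∧ v.1 ≤ L ∧ 0 ≤ v.2 ∧ v.2 ≤ L := by
    intro v hv
    rw [hV, Finset.mem_image] at hv
    obtain ⟨u, hu, rfl⟩ := hv
    have := row_box hE hu
    have h3 : ((L : ℕ) : ℤ) = ((a : ℤ) * (B : ℤ)) ^ n₁ := by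
      rw [hL]
      push_cast
      ring
    rw [h3]
    exact this
  have hVc : (V.card : ℝ) ≤ ((B : ℝ) ^ n₁) ^ σ := by
    rw [hV, Finset.card_image_of_injOn hinj]
    exact wd_card_le hE n₁
  set ρ : ℝ := (a : ℝ) ^ (80 * (n + 1)) * (B : ℝ) ^ 17 * (σ / (σ - 1)) * ((B : ℝ) ^ n₂) ^ σ *
        max 1 (((B : ℝ) ^ (2 * n₂) / (B : ℝ) ^ (i + j)) ^ (σ / 2)) with hρ
  have hζ : 0 < σ / (σ - 1) := by
    have := hE.s1
    exact div_pos (by linarith) (by linarith)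
  have hρ0 : 0 ≤ ρ := by
    have : (0 : ℝ) ≤ max 1 (((B : ℝ) ^ (2 * n₂) / (B : ℝ) ^ (i + j)) ^ (σ / 2)) :=
      le_trans zero_le_one (le_max_left _ _)
    positivity
  have hcount := countRow hE n₁ n₂ i j M H (by rw [hn₂]; exact hM) hn₁a
    (by rw [← hL]; exact hHL) hij R hR qf af hf
  rw [hn₂] at hcount
  have hdual := dual M H L hH1 hL1 hHL (by omega) V hVb (wd S n₂) (vec e) R ρ hρ0
    (fun k hk => by
      rw [hρ]
      exact hcount k hk)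
  have hsum : ∀ k : ℕ, ∑ w ∈ wd S n, ch M ((k : ℤ) * (vec e w).2) =
      ∑ v ∈ V, ∑ w ∈ wd S n₂, ch M ((k : ℤ) * dt v (vec e w)) := by
    intro k
    rw [← hn₂, wd_sum hE n₁ n₂, hV, Finset.sum_image hinj]
    refine Finset.sum_congr rfl fun u _ => Finset.sum_congr rfl fun w _ => ?_
    rw [dt_split]
  simp_rw [hsum]
  refine hdual.trans ?_
  refine le_trans ?_ (K1_final ha hE.s1 hE.s2 hn₂ (by omega) hB1 hM hij' hp hn₁b)
  rw [← hρ]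
  have hMH0 : 0 ≤ (M : ℝ) / H := by positivity
  gcongr

end Pool.Agent.LibNW69
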