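import Pool.Agent.LibNW69.K1
import Pool.Agent.LibNZ69.D
import Pool.Agent.LibNZ69.F1

set_option autoImplicit false

namespace Pool.Agent.LibNW69

open Pool.Agent.LibNZ69

private theorem K2_M_lt (a B n : ℕ) (ha : 4 ≤ a) (hB : a ^ 8 ≤ B) :
    a ^ 4 * (a * B) ^ n + 1 < B ^ (2 * (n + 1)) := by
  have ha1 : 1 ≤ a := by omega
  have haB : a ≤ B := by
    calc a = a ^ 1 := (pow_one a).symm
      _ ≤ a ^ 8 := Nat.pow_le_pow_right ha1 (by norm_num)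
      _ ≤ B := hB
  have ha4 : a ^ 4 ≤ B := (Nat.pow_le_pow_right ha1 (by norm_num)).trans hB
  have h4 : (a * B) ^ n ≤ B ^ (2 * n) := by
    rw [pow_mul]
    refine Nat.pow_le_pow_left ?_ n
    rw [sq]
    exact Nat.mul_le_mul_right B haB
  have h1 : 1 ≤ B ^ (2 * n) := Nat.one_le_pow _ _ (by omega)
  have h2 : B ^ (2 * (n + 1)) = B * (B * B ^ (2 * n)) := by ring
  have h3 : a ^ 4 * (a * B) ^ n ≤ B * B ^ (2 * n) := Nat.mul_le_mul ha4 h4
  have h5 : 4 ≤ B := by omega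
  have h6 : 4 * (B * B ^ (2 * n)) ≤ B * (B * B ^ (2 * n)) := Nat.mul_le_mul_right _ h5
  have h7 : 1 ≤ B * B ^ (2 * n) := Nat.mul_pos (by omega) h1
  rw [h2]
  omega

private theorem K2_le (a B n : ℕ) (ha : 4 ≤ a) (hB : a ^ 8 ≤ B) (hB1 : 1 < B) (M i j : ℕ)
    (hM : M = a ^ 4 * (a * B) ^ n + 1) (h : B ^ (2 * (i + j)) ≤ M) : i + j ≤ n := by
  have h1 : B ^ (2 * (i + j)) < B ^ (2 * (n + 1)) := by
    refine lt_of_le_of_lt h ?_
    rw [hM]
    exact K2_M_lt a B n ha hB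
  have h2 := (Nat.pow_lt_pow_iff_right hB1).1 h1
  omega

private theorem K2_final (A σ b M s lam C Sg Z : ℝ) (n : ℕ) (hA : 2 ≤ A) (hb : 1 ≤ b)
    (hbM : b ≤ M) (hl : 1 ≤ lam) (hC : 0 ≤ C) (h1 : b ^ (2 * σ) ≤ lam ^ (2 * n) * s ^ 2)
    (h2 : M * s ^ 2 ≤ C * Sg)
    (h3 : Sg ≤ ((n : ℝ) + 1) ^ 2 * (A ^ (90 * (n + 1)) * Z * b ^ (σ + 3 / 2))) (hZ : 0 ≤ Z) :
    b ^ (σ - 1 / 2) ≤ lam ^ (2 * n) * A ^ (92 * (n + 1)) * Z * C := by
  have hb0 : 0 < b := by linarith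
  have hl0 : 0 ≤ lam := by linarith
  have hA0 : 0 ≤ A := by linarith
  have hpos : 0 < b ^ (σ + 3 / 2) := Real.rpow_pos_of_pos hb0 _
  have e1 : b ^ (σ - 1 / 2) * b ^ (σ + 3 / 2) = b * b ^ (2 * σ) := by
    rw [← Real.rpow_add hb0]
    nth_rewrite 2 [← Real.rpow_one b]
    rw [← Real.rpow_add hb0]
    congr 1
    ring
  have e2 : b * b ^ (2 * σ) ≤ M * (lam ^ (2 * n) * s ^ 2) :=
    mul_le_mul hbM h1 (Real.rpow_nonneg hb0.le _) (by linarith)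
  have e3 : M * (lam ^ (2 * n) * s ^ 2) ≤ lam ^ (2 * n) * (C * Sg) := by
    have := mul_le_mul_of_nonneg_left h2 (pow_nonneg hl0 (2 * n))
    linarith
  have e4 : ((n : ℝ) + 1) ^ 2 ≤ A ^ (2 * (n + 1)) := by
    have h5 : (n : ℝ) + 1 ≤ 2 ^ (n + 1) := by
      have h6 : n + 1 < 2 ^ (n + 1) := Nat.lt_two_pow_self
      exact_mod_cast h6.le
    have h7 : (0 : ℝ) ≤ (n : ℝ) + 1 := by positivity
    have h8 : (2 : ℝ) ^ (n + 1) ≤ A ^ (n + 1) := pow_le_pow_left₀ (by norm_num) hA _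
    calc ((n : ℝ) + 1) ^ 2 ≤ (A ^ (n + 1)) ^ 2 := pow_le_pow_left₀ h7 (h5.trans h8) 2
      _ = A ^ (2 * (n + 1)) := by rw [← pow_mul]; congr 1; ring
  have e5 : Sg ≤ A ^ (92 * (n + 1)) * Z * b ^ (σ + 3 / 2) := by
    refine h3.trans ?_
    have h8 : (0 : ℝ) ≤ A ^ (90 * (n + 1)) * Z * b ^ (σ + 3 / 2) := by positivity
    refine (mul_le_mul_of_nonneg_right e4 h8).trans (le_of_eq ?_)
    have h9 : A ^ (92 * (n + 1)) = A ^ (2 * (n + 1)) * A ^ (90 * (n + 1)) := by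
      rw [← pow_add]
      congr 1
      ring
    rw [h9]
    ring
  have e6 : lam ^ (2 * n) * (C * Sg) ≤
      lam ^ (2 * n) * (C * (A ^ (92 * (n + 1)) * Z * b ^ (σ + 3 / 2))) :=
    mul_le_mul_of_nonneg_left (mul_le_mul_of_nonneg_left e5 hC) (pow_nonneg hl0 _)
  have e7 : b ^ (σ - 1 / 2) * b ^ (σ + 3 / 2) ≤
      (lam ^ (2 * n) * A ^ (92 * (n + 1)) * Z * C) * b ^ (σ + 3 / 2) := by
    rw [e1]
    refine (e2.trans (e3.trans e6)).trans (le_of_eq ?_)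
    ring
  exact le_of_mul_le_mul_right e7 hpos

/-- Row K2 (MEDIUM). The same as LibNZ69/K2.lean (finished): `range M`, `M = a^4 (aB)^n + 1`, is
covered by the classes `(i, j)` with `i, j ≤ n` (`exists_class`,
`B^(2(i+j)) ≤ M ≤ a^5 (aB)^n < B^(2(n+1))`), so
`∑_{k < M} ‖…‖² ≤ (n+1)² a^(90(n+1)) B^26 ζ (B^n)^(σ+3/2)`; `plancherel` with `f w = (vec e w).2`
(`0 ≤ (vec e w).2 ≤ a^2 (aB)^n < M`), `card (wd S n) = (card S)^n`, `B^σ ≤ lam · card S`, and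
`1 + 2σ - (σ + 3/2) = σ - 1/2`. -/
theorem manyValues {a : ℕ} {σ : ℝ} {e : ℤ × ℤ} {S : Finset (List ℕ)} {l B : ℕ}
    (hE : Ens a σ e S l B) (lam : ℝ) (hl : 1 ≤ lam)
    (hc : (B : ℝ) ^ σ ≤ lam * S.card) (n : ℕ) (hn : 40 ≤ n) :
    ((B : ℝ) ^ n) ^ (σ - 1 / 2) ≤
      lam ^ (2 * n) * (a : ℝ) ^ (92 * (n + 1)) * (B : ℝ) ^ 26 * (σ / (σ - 1)) *
        (((wd S n).image (fun w => (vec e w).2)).card : ℝ) := by
  classical
  have ha4 : 4 ≤ a := hE.a4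
  have hBig : a ^ 8 ≤ B := hE.big
  have haB : a ≤ B := by
    calc a = a ^ 1 := (pow_one a).symm
      _ ≤ a ^ 8 := Nat.pow_le_pow_right (by omega) (by norm_num)
      _ ≤ B := hBig
  have hB1 : (1 : ℝ) ≤ (B : ℝ) := by
    have : 1 ≤ B := by omega
    exact_mod_cast this
  have hA2 : (2 : ℝ) ≤ (a : ℝ) := by
    have : 2 ≤ a := by omega
    exact_mod_cast this
  have hs1 : 1 < σ := hE.s1
  have hζ : 0 ≤ σ / (σ - 1) := div_nonneg (by linarith) (by linarith)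
  obtain ⟨M, hM⟩ : ∃ M : ℕ, M = a ^ 4 * (a * B) ^ n + 1 := ⟨_, rfl⟩
  have hM0 : 0 < M := by omega
  have hcls := fun k => exists_class M B hM0 (by omega : 2 ≤ B) k
  choose ci cj q af hFr h1 h2 using hcls
  have hij : ∀ k, ci k + cj k ≤ n :=
    fun k => K2_le a B n ha4 hBig (by omega) M _ _ hM (h2 k)
  obtain ⟨F, hF⟩ : ∃ F : ℕ → ℝ,
      F = fun k : ℕ => ‖∑ w ∈ wd S n, ch M ((k : ℤ) * (vec e w).2)‖ ^ 2 := ⟨_, rfl⟩
  obtain ⟨Z, hZ⟩ : ∃ Z : ℝ, Z = (B : ℝ) ^ 26 * (σ / (σ - 1)) := ⟨_, rfl⟩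
  have hZ0 : 0 ≤ Z := by
    rw [hZ]
    exact mul_nonneg (by positivity) hζ
  have hbd0 : (0 : ℝ) ≤ (a : ℝ) ^ (90 * (n + 1)) * Z * ((B : ℝ) ^ n) ^ (σ + 3 / 2) := by
    positivity
  have hmaps : ∀ k ∈ Finset.range M, (ci k, cj k) ∈ Finset.range (n + 1) ×ˢ Finset.range (n + 1) := by
    intro k _
    have := hij k
    rw [Finset.mem_product, Finset.mem_range, Finset.mem_range]
    constructor
    · show ci k < n + 1
      omega
    · show cj k < n + 1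
      omega
  have hsum : ∑ k ∈ Finset.range M, F k ≤ ((n : ℝ) + 1) ^ 2 *
      ((a : ℝ) ^ (90 * (n + 1)) * Z * ((B : ℝ) ^ n) ^ (σ + 3 / 2)) := by
    rw [← Finset.sum_fiberwise_of_maps_to hmaps F]
    have hcell : ∀ p ∈ Finset.range (n + 1) ×ˢ Finset.range (n + 1),
        ∑ k ∈ (Finset.range M).filter (fun k => (ci k, cj k) = p), F k ≤
          (a : ℝ) ^ (90 * (n + 1)) * Z * ((B : ℝ) ^ n) ^ (σ + 3 / 2) := by
      rintro ⟨i, j⟩ -
      rcases Finset.eq_empty_or_nonempty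
        ((Finset.range M).filter (fun k => (ci k, cj k) = (i, j))) with he | ⟨k0, hk0⟩
      · rw [he, Finset.sum_empty]
        exact hbd0
      · have hp0 := (Finset.mem_filter.1 hk0).2
        have hi0 : ci k0 = i := congrArg Prod.fst hp0
        have hj0 : cj k0 = j := congrArg Prod.snd hp0
        have b1 := h1 k0
        have b2 := h2 k0
        rw [hi0, hj0] at b1 b2
        rw [hF]
        refine (classBound hE n i j M hn hM b1 b2 _ ?_ q af ?_).trans (le_of_eq ?_)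
        · intro k hk
          exact Finset.mem_range.1 (Finset.mem_filter.1 hk).1
        · intro k hk
          have hp := (Finset.mem_filter.1 hk).2
          have hi : ci k = i := congrArg Prod.fst hp
          have hj : cj k = j := congrArg Prod.snd hp
          have := hFr k
          rw [hi, hj] at this
          exact this
        · rw [hZ]
          ring
    refine (Finset.sum_le_sum hcell).trans (le_of_eq ?_)
    rw [Finset.sum_const, Finset.card_product, Finset.card_range, nsmul_eq_mul]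
    push_cast
    ring
  have hf : ∀ w ∈ wd S n, 0 ≤ (vec e w).2 ∧ (vec e w).2 < (M : ℤ) := by
    intro w hw
    obtain ⟨_, _, v1, v2⟩ := vec_pos hE hw
    have v3 := nm_vec_le hE hw
    rw [v2] at v3
    refine ⟨v1.le, ?_⟩
    have v4 : (M : ℤ) = (a : ℤ) ^ 4 * ((a : ℤ) * (B : ℤ)) ^ n + 1 := by
      rw [hM]
      push_cast
      ring
    have v5 : (0 : ℤ) ≤ ((a : ℤ) * (B : ℤ)) ^ n := by positivity
    have v6 : (a : ℤ) ^ 2 ≤ (a : ℤ) ^ 4 := pow_le_pow_right₀ (by exact_mod_cast (by omega : 1 ≤ a)) (by norm_num)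
    have v7 := mul_le_mul_of_nonneg_right v6 v5
    rw [v4]
    linarith
  have hpl := plancherel M hM0 (wd S n) (fun w => (vec e w).2) hf
  have hpl' : (M : ℝ) * ((S.card : ℝ) ^ n) ^ 2 ≤
      (((wd S n).image (fun w => (vec e w).2)).card : ℝ) * ∑ k ∈ Finset.range M, F k := by
    rw [wd_card hE n] at hpl
    push_cast at hpl
    rw [hF]
    exact hpl
  have hb1 : (1 : ℝ) ≤ (B : ℝ) ^ n := one_le_pow₀ hB1
  have hbM : (B : ℝ) ^ n ≤ (M : ℝ) := by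
    have h3 : B ^ n ≤ M := by
      have h4 : B ^ n ≤ (a * B) ^ n := Nat.pow_le_pow_left (by nlinarith) n
      have h5 : 1 ≤ a ^ 4 := Nat.one_le_pow _ _ (by omega)
      have h6 : 1 * (a * B) ^ n ≤ a ^ 4 * (a * B) ^ n := Nat.mul_le_mul_right _ h5
      omega
    exact_mod_cast h3
  have hrp : ((B : ℝ) ^ n) ^ (2 * σ) ≤ lam ^ (2 * n) * ((S.card : ℝ) ^ n) ^ 2 := by
    have hB0 : (0 : ℝ) ≤ (B : ℝ) := by linarith
    have e1 : ((B : ℝ) ^ n) ^ (2 * σ) = ((B : ℝ) ^ σ) ^ (2 * n) := by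
      rw [← Real.rpow_natCast, ← Real.rpow_natCast, ← Real.rpow_mul hB0, ← Real.rpow_mul hB0]
      congr 1
      push_cast
      ring
    have e2 : lam ^ (2 * n) * ((S.card : ℝ) ^ n) ^ 2 = (lam * S.card) ^ (2 * n) := by
      rw [mul_pow, ← pow_mul, Nat.mul_comm n 2]
    rw [e1, e2]
    exact pow_le_pow_left₀ (Real.rpow_nonneg hB0 _) hc _
  have hfin := K2_final (a : ℝ) σ ((B : ℝ) ^ n) M ((S.card : ℝ) ^ n) lam _ _ Z n hA2 hb1 hbM hl
    (Nat.cast_nonneg _) hrp hpl' hsum hZ0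
  refine hfin.trans (le_of_eq ?_)
  rw [hZ]
  ring

end Pool.Agent.LibNW69
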