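import Pool.Agent.LibNW69.Defs

set_option autoImplicit false

namespace Pool.Agent.LibNW69

open Pool.Agent.LibNZ69

/-! Row N (MEDIUM). The same as LibNZ69/N.lean (row N of NZ69, finished) with digits `1 ≤ x < a`,
`4` replaced by `a ≥ 4`: for the columns `(α, γ)`, `(β, δ)` of the matrix of the block `b`:
`δ ≤ a γ`, `δ ≤ a β`. -/

private theorem N_act_lin (b : List ℕ) (v : ℤ × ℤ) :
    (act b v).1 = (act b (1, 0)).1 * v.1 + (act b (0, 1)).1 * v.2 ∧
      (act b v).2 = (act b (1, 0)).2 * v.1 + (act b (0, 1)).2 * v.2 := by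
  induction b with
  | nil => simp [act]
  | cons a w ih =>
    obtain ⟨h1, h2⟩ := ih
    simp only [act, gl]
    refine ⟨h2, ?_⟩
    rw [h1, h2]
    ring

private theorem N_det (b : List ℕ) :
    ((act b (1, 0)).1 * (act b (0, 1)).2 - (act b (0, 1)).1 * (act b (1, 0)).2) ^ 2 = 1 := by
  induction b with
  | nil => simp [act]
  | cons a w ih =>
    simp only [act, gl]
    linear_combination ih

private theorem N_act_append (w : List ℕ) (a : ℕ) (v : ℤ × ℤ) :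
    act (w ++ [a]) v = act w (gl a v) := by
  induction w with
  | nil => simp [act]
  | cons c w ih => simp only [List.cons_append, act, ih]

/-- inequalities for all words -/
private theorem N_all (b : List ℕ) (hd : ∀ x ∈ b, 1 ≤ x) :
    0 ≤ (act b (1, 0)).1 ∧ 0 ≤ (act b (0, 1)).1 ∧ 0 ≤ (act b (1, 0)).2 ∧
      (act b (1, 0)).2 ≤ (act b (0, 1)).2 ∧ (act b (0, 1)).1 ≤ (act b (0, 1)).2 ∧
      (b = [] ∨ (act b (1, 0)).1 ≤ (act b (0, 1)).1) := by
  induction b with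
  | nil => simp [act]
  | cons a w ih =>
    obtain ⟨h1, h2, h3, h4, h5, h6⟩ := ih (fun c hc => hd c (List.mem_cons_of_mem _ hc))
    have ha1 := hd a List.mem_cons_self
    have ha1' : (1 : ℤ) ≤ a := by exact_mod_cast ha1
    simp only [act, gl]
    refine ⟨h3, by linarith, by nlinarith, ?_, by nlinarith, Or.inr h4⟩
    rcases h6 with hc | hc
    · subst hc
      simp only [act]
      linarith
    · nlinarith

/-- the inequalities for a nonempty word -/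
private theorem N_block (a : ℕ) (b : List ℕ) (hd : ∀ x ∈ b, 1 ≤ x ∧ x < a) (hne : b ≠ []) :
    0 ≤ (act b (1, 0)).1 ∧ 0 ≤ (act b (0, 1)).1 ∧ 0 ≤ (act b (1, 0)).2 ∧
      (act b (1, 0)).2 ≤ (act b (0, 1)).2 ∧ (act b (0, 1)).1 ≤ (act b (0, 1)).2 ∧
      (act b (1, 0)).1 ≤ (act b (0, 1)).1 ∧ (act b (0, 1)).2 ≤ a * (act b (1, 0)).2 := by
  obtain ⟨h1, h2, h3, h4, h5, h6⟩ := N_all b (fun x hx => (hd x hx).1)
  refine ⟨h1, h2, h3, h4, h5, h6.resolve_left hne, ?_⟩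
  rcases List.eq_nil_or_concat b with h | ⟨w, c, h⟩
  · exact absurd h hne
  · rw [List.concat_eq_append] at h
    subst h
    obtain ⟨k1, k2, k3, k4, k5, k6⟩ := N_all w
      (fun x hx => (hd x (List.mem_append_left _ hx)).1)
    obtain ⟨ha1, ha3⟩ := hd c (by simp)
    have ha3' : (c : ℤ) + 1 ≤ a := by exact_mod_cast ha3
    rw [N_act_append, N_act_append]
    have e1 : gl c (0, 1) = (1, (c : ℤ)) := by simp [gl]
    have e2 : gl c (1, 0) = (0, 1) := by simp [gl]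
    rw [e1, e2, (N_act_lin w (1, (c : ℤ))).2]
    have k7 : 0 ≤ (act w (0, 1)).2 := k2.trans k5
    have k8 : ((c : ℤ) + 1) * (act w (0, 1)).2 ≤ a * (act w (0, 1)).2 :=
      mul_le_mul_of_nonneg_right ha3' k7
    simp only [mul_one]
    linarith

private theorem N_nm (v : ℤ × ℤ) : |v.1| ≤ nm v ∧ |v.2| ≤ nm v ∧ 0 ≤ nm v := by
  unfold nm
  exact ⟨le_max_left _ _, le_max_right _ _, (abs_nonneg _).trans (le_max_left _ _)⟩

private theorem N_two (x y s t K : ℤ) (n : ℤ) (hs : 0 ≤ s) (ht : 0 ≤ t) (hx : |x| ≤ n)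
    (hy : |y| ≤ n) (hst : s + t ≤ K) (hn : 0 ≤ n) : |s * x + t * y| ≤ K * n := by
  calc |s * x + t * y| ≤ |s * x| + |t * y| := abs_add_le _ _
    _ = s * |x| + t * |y| := by rw [abs_mul, abs_mul, abs_of_nonneg hs, abs_of_nonneg ht]
    _ ≤ s * n + t * n := by
        exact add_le_add (mul_le_mul_of_nonneg_left hx hs) (mul_le_mul_of_nonneg_left hy ht)
    _ = (s + t) * n := by ring
    _ ≤ K * n := mul_le_mul_of_nonneg_right hst hn

private theorem N_data {a : ℕ} {σ : ℝ} {e : ℤ × ℤ} {S : Finset (List ℕ)} {l B : ℕ}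
    (hE : Ens a σ e S l B) {b : List ℕ} (hb : b ∈ S) :
    0 ≤ (act b (1, 0)).1 ∧ 0 ≤ (act b (0, 1)).1 ∧ 0 ≤ (act b (1, 0)).2 ∧
      (act b (1, 0)).2 ≤ (act b (0, 1)).2 ∧ (act b (0, 1)).1 ≤ (act b (0, 1)).2 ∧
      (act b (1, 0)).1 ≤ (act b (0, 1)).1 ∧ (act b (0, 1)).2 ≤ a * (act b (1, 0)).2 := by
  apply N_block a b (hE.dig b hb)
  rintro rfl
  have h1 := hE.len _ hb
  have h2 := hE.lpos
  simp at h1
  omega

private theorem N_four {a : ℕ} {σ : ℝ} {e : ℤ × ℤ} {S : Finset (List ℕ)} {l B : ℕ}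
    (hE : Ens a σ e S l B) : 4 * (B : ℤ) ≤ a * B := by
  have h : (4 : ℤ) ≤ a := by exact_mod_cast hE.a4
  exact mul_le_mul_of_nonneg_right h (Int.natCast_nonneg B)

theorem nm_act_le {a : ℕ} {σ : ℝ} {e : ℤ × ℤ} {S : Finset (List ℕ)} {l B : ℕ}
    (hE : Ens a σ e S l B) {b : List ℕ} (hb : b ∈ S) (v : ℤ × ℤ) :
    nm (act b v) ≤ a * B * nm v := by
  obtain ⟨h1, h2, h3, h4, h5, h6, h7⟩ := N_data hE hb
  have hhi := hE.hi b hb
  have h8 := N_four hE
  obtain ⟨n1, n2, n3⟩ := N_nm v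
  obtain ⟨e1, e2⟩ := N_act_lin b v
  apply max_le
  · rw [e1]
    exact N_two _ _ _ _ _ _ h1 h2 n1 n2 (by linarith) n3
  · rw [e2]
    exact N_two _ _ _ _ _ _ h3 (h2.trans h5) n1 n2 (by linarith) n3

theorem nm_le_act {a : ℕ} {σ : ℝ} {e : ℤ × ℤ} {S : Finset (List ℕ)} {l B : ℕ}
    (hE : Ens a σ e S l B) {b : List ℕ} (hb : b ∈ S) (v : ℤ × ℤ) :
    nm v ≤ a * B * nm (act b v) := by
  obtain ⟨h1, h2, h3, h4, h5, h6, h7⟩ := N_data hE hb
  have hhi := hE.hi b hb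
  have h8 := N_four hE
  obtain ⟨n1, n2, n3⟩ := N_nm (act b v)
  obtain ⟨e1, e2⟩ := N_act_lin b v
  have hdet := N_det b
  set α := (act b (1, 0)).1
  set γ := (act b (1, 0)).2
  set β := (act b (0, 1)).1
  set δ := (act b (0, 1)).2
  have hD : |α * δ - β * γ| = 1 := by
    have hf : (α * δ - β * γ - 1) * (α * δ - β * γ + 1) = 0 := by linear_combination hdet
    rcases mul_eq_zero.1 hf with h | h
    · rw [sub_eq_zero.1 h]; norm_num
    · rw [eq_neg_of_add_eq_zero_left h]; norm_num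
  have i1 : (α * δ - β * γ) * v.1 = δ * (act b v).1 + β * (-(act b v).2) := by
    rw [e1, e2]; ring
  have i2 : (α * δ - β * γ) * v.2 = γ * (-(act b v).1) + α * (act b v).2 := by
    rw [e1, e2]; ring
  apply max_le
  · have : |v.1| = |δ * (act b v).1 + β * (-(act b v).2)| := by
      rw [← i1, abs_mul, hD, one_mul]
    rw [this]
    exact N_two _ _ _ _ _ _ (h2.trans h5) h2 n1 (by rwa [abs_neg]) (by linarith) n3
  · have : |v.2| = |γ * (-(act b v).1) + α * (act b v).2| := by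
      rw [← i2, abs_mul, hD, one_mul]
    rw [this]
    exact N_two _ _ _ _ _ _ h3 h1 (by rwa [abs_neg]) n2 (by linarith) n3

theorem act_pos {a : ℕ} {σ : ℝ} {e : ℤ × ℤ} {S : Finset (List ℕ)} {l B : ℕ}
    (hE : Ens a σ e S l B) {b : List ℕ} (hb : b ∈ S) (v : ℤ × ℤ) (h1 : 0 ≤ v.1) (h2 : 0 ≤ v.2) :
    0 ≤ (act b v).1 ∧ 0 ≤ (act b v).2 ∧ B * nm v ≤ a * nm (act b v) := by
  obtain ⟨k1, k2, k3, k4, k5, k6, k7⟩ := N_data hE hb
  have hlo := hE.lo b hb
  obtain ⟨n1, n2, n3⟩ := N_nm (act b v)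
  obtain ⟨e1, e2⟩ := N_act_lin b v
  have hB : (0 : ℤ) ≤ B := Int.natCast_nonneg B
  have hA : (0 : ℤ) ≤ a := Int.natCast_nonneg a
  have hA1 : (1 : ℤ) ≤ a := by
    have := hE.a4
    omega
  have a1 : 0 ≤ (act b v).1 := by
    rw [e1]; positivity
  have a2 : 0 ≤ (act b v).2 := by
    rw [e2]
    have : 0 ≤ (act b (0, 1)).2 := k2.trans k5
    positivity
  refine ⟨a1, a2, ?_⟩
  have h4 : (act b v).2 ≤ nm (act b v) := (le_abs_self _).trans n2
  have hm : nm v ≤ v.1 + v.2 := by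
    unfold nm
    rw [abs_of_nonneg h1, abs_of_nonneg h2]
    exact max_le (by linarith) (by linarith)
  have h9 : 0 ≤ (act b (0, 1)).2 := k2.trans k5
  have h10 : (act b (0, 1)).2 ≤ a * (act b (0, 1)).2 := le_mul_of_one_le_left h9 hA1
  calc (B : ℤ) * nm v ≤ B * (v.1 + v.2) := mul_le_mul_of_nonneg_left hm hB
    _ = B * v.1 + B * v.2 := by ring
    _ ≤ (act b (0, 1)).2 * v.1 + (act b (0, 1)).2 * v.2 :=
        add_le_add (mul_le_mul_of_nonneg_right hlo h1) (mul_le_mul_of_nonneg_right hlo h2)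
    _ ≤ a * (act b (1, 0)).2 * v.1 + a * (act b (0, 1)).2 * v.2 :=
        add_le_add (mul_le_mul_of_nonneg_right k7 h1) (mul_le_mul_of_nonneg_right h10 h2)
    _ = a * (act b v).2 := by rw [e2]; ring
    _ ≤ a * nm (act b v) := mul_le_mul_of_nonneg_left h4 hA

end Pool.Agent.LibNW69
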