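import Pool.Agent.LibNW69.W
import Pool.Agent.LibNZ69.U

set_option autoImplicit false

namespace Pool.Agent.LibNW69

open Pool.Agent.LibNZ69

open Classical in
private noncomputable def P_cnt (S : Finset (List ℕ)) (Y : ℝ) (n : ℕ) (x : ℤ × ℤ) : ℝ :=
  (((wd S n).filter (fun w => (nm (act w x) : ℝ) ≤ Y)).card : ℝ)

private noncomputable def P_R (σ : ℝ) (B : ℕ) (Y : ℝ) (n : ℕ) (x : ℤ × ℤ) : ℝ :=
  ((B : ℝ) ^ n * Y / nm x) ^ (σ / 2)

private theorem P_Rnn (σ : ℝ) (B : ℕ) {Y : ℝ} (hY : 0 ≤ Y) (n : ℕ) (x : ℤ × ℤ) :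
    0 ≤ P_R σ B Y n x := by
  unfold P_R
  have h1 : (0 : ℝ) ≤ nm x := by exact_mod_cast nm_nonneg x
  positivity

private theorem P_npos {x : ℤ × ℤ} (hx : x ≠ 0) : (0 : ℝ) < nm x := by
  have h1 := one_le_nm x hx
  have h2 : (1 : ℝ) ≤ nm x := by exact_mod_cast h1
  linarith

section
variable {a : ℕ} {σ : ℝ} {e : ℤ × ℤ} {S : Finset (List ℕ)} {l B : ℕ}

open Classical in
private theorem P_rec (hE : Ens a σ e S l B) (Y : ℝ) (n : ℕ)
    (x : ℤ × ℤ) : P_cnt S Y (n + 1) x = ∑ b ∈ S, P_cnt S Y n (act b x) := by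
  have h1 : ∀ (m : ℕ) (y : ℤ × ℤ), P_cnt S Y m y =
      ∑ w ∈ wd S m, if (nm (act w y) : ℝ) ≤ Y then (1 : ℝ) else 0 := by
    intro m y
    unfold P_cnt
    rw [Finset.sum_boole]
  rw [h1, wd_sum hE n 1, wd_one, Finset.sum_comm]
  refine Finset.sum_congr rfl fun b _ => ?_
  rw [h1]
  refine Finset.sum_congr rfl fun w _ => ?_
  rw [act_append]

private theorem P_a1 (hE : Ens a σ e S l B) : (1 : ℝ) ≤ a := by
  have h1 : 1 ≤ a := le_trans (by norm_num) hE.a4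
  exact_mod_cast h1

private theorem P_a4 (hE : Ens a σ e S l B) : (4 : ℝ) ≤ a := by
  exact_mod_cast hE.a4

private theorem P_s0 (hE : Ens a σ e S l B) : 0 ≤ σ / 2 := by
  have := hE.s1
  linarith

private theorem P_s1 (hE : Ens a σ e S l B) : σ / 2 ≤ 1 := by
  have := hE.s2
  linarith

private theorem P_pow_le (hE : Ens a σ e S l B) {t : ℝ} (ht : 1 ≤ t) : t ^ (σ / 2) ≤ t := by
  calc t ^ (σ / 2) ≤ t ^ (1 : ℝ) := Real.rpow_le_rpow_of_exponent_le ht (P_s1 hE)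
    _ = t := Real.rpow_one _

private theorem P_step (hE : Ens a σ e S l B) {Y : ℝ} (hY : 0 ≤ Y)
    (n : ℕ) {x : ℤ × ℤ} (hx : x ≠ 0) {b : List ℕ} (hb : b ∈ S) :
    P_R σ B Y n (act b x) ≤ a * P_R σ B Y (n + 1) x := by
  have h1 := P_npos hx
  have h2 := P_npos (act_ne_zero b x hx)
  have ha0 : (0 : ℝ) ≤ a := Nat.cast_nonneg a
  have h3 : (nm x : ℝ) ≤ a * B * nm (act b x) := by exact_mod_cast nm_le_act hE hb x
  have h4 : (B : ℝ) ^ n * Y / nm (act b x) ≤ a * ((B : ℝ) ^ (n + 1) * Y / nm x) := by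
    rw [← mul_div_assoc, div_le_div_iff₀ h2 h1]
    have h5 : (B : ℝ) ^ n * Y * nm x ≤ (B : ℝ) ^ n * Y * (a * B * nm (act b x)) :=
      mul_le_mul_of_nonneg_left h3 (by positivity)
    calc (B : ℝ) ^ n * Y * nm x ≤ (B : ℝ) ^ n * Y * (a * B * nm (act b x)) := h5
      _ = a * ((B : ℝ) ^ (n + 1) * Y) * nm (act b x) := by ring
  unfold P_R
  have h0 : 0 ≤ (B : ℝ) ^ n * Y / nm (act b x) := by positivity
  have h0' : 0 ≤ (B : ℝ) ^ (n + 1) * Y / nm x := by positivity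
  calc ((B : ℝ) ^ n * Y / nm (act b x)) ^ (σ / 2)
      ≤ (a * ((B : ℝ) ^ (n + 1) * Y / nm x)) ^ (σ / 2) :=
        Real.rpow_le_rpow h0 h4 (P_s0 hE)
    _ = (a : ℝ) ^ (σ / 2) * ((B : ℝ) ^ (n + 1) * Y / nm x) ^ (σ / 2) :=
        Real.mul_rpow ha0 h0'
    _ ≤ a * ((B : ℝ) ^ (n + 1) * Y / nm x) ^ (σ / 2) :=
        mul_le_mul_of_nonneg_right (P_pow_le hE (P_a1 hE)) (by positivity)

private theorem P_B1 (hE : Ens a σ e S l B) : (1 : ℝ) ≤ B := by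
  have h0 : 1 ≤ a := le_trans (by norm_num) hE.a4
  have h1 : 1 ≤ B := le_trans (Nat.one_le_pow _ _ h0) hE.big
  exact_mod_cast h1

private theorem P_card (hE : Ens a σ e S l B) :
    (S.card : ℝ) ≤ (B : ℝ) ^ 2 := by
  refine hE.cardle.trans ?_
  calc (B : ℝ) ^ σ ≤ (B : ℝ) ^ (2 : ℝ) :=
        Real.rpow_le_rpow_of_exponent_le (P_B1 hE) (by have := hE.s2; linarith)
    _ = (B : ℝ) ^ 2 := by
        rw [← Real.rpow_natCast]
        norm_num

/-- no block -/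
private theorem P_zero (hE : Ens a σ e S l B) {Y : ℝ} (hY : 0 ≤ Y)
    {x : ℤ × ℤ} (hx : x ≠ 0) : P_cnt S Y 0 x ≤ P_R σ B Y 0 x := by
  classical
  have h1 := P_npos hx
  by_cases h : (nm x : ℝ) ≤ Y
  · have h2 : P_cnt S Y 0 x ≤ 1 := by
      unfold P_cnt
      have h3 : ((wd S 0).filter (fun w => (nm (act w x) : ℝ) ≤ Y)).card ≤ 1 := by
        refine (Finset.card_filter_le _ _).trans ?_
        show ({[]} : Finset (List ℕ)).card ≤ 1
        rw [Finset.card_singleton]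
      exact_mod_cast h3
    refine h2.trans ?_
    unfold P_R
    refine Real.one_le_rpow ?_ (P_s0 hE)
    rw [pow_zero, one_mul, le_div_iff₀ h1, one_mul]
    exact h
  · have h2 : P_cnt S Y 0 x = 0 := by
      unfold P_cnt
      rw [Nat.cast_eq_zero, Finset.card_eq_zero, Finset.filter_eq_empty_iff]
      intro w hw
      have h3 : w = [] := Finset.mem_singleton.1 hw
      rw [h3]
      exact h
    rw [h2]
    exact P_Rnn σ B hY 0 x

/-- two coordinates of the same sign -/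
private theorem P_same (hE : Ens a σ e S l B) {Y : ℝ} (hY : 0 ≤ Y)
    (n : ℕ) {x : ℤ × ℤ} (hx : x ≠ 0) (hs : (0 ≤ x.1 ∧ 0 ≤ x.2) ∨ (x.1 ≤ 0 ∧ x.2 ≤ 0)) :
    P_cnt S Y n x ≤ (a : ℝ) ^ n * P_R σ B Y n x := by
  classical
  have h1 := P_npos hx
  have hR := P_Rnn σ B hY n x
  have hB0 : (0 : ℝ) ≤ B := Nat.cast_nonneg B
  have ha0 : (0 : ℝ) ≤ a := Nat.cast_nonneg a
  by_cases he : ((wd S n).filter (fun w => (nm (act w x) : ℝ) ≤ Y)) = ∅
  · have h2 : P_cnt S Y n x = 0 := by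
      unfold P_cnt
      rw [Nat.cast_eq_zero, Finset.card_eq_zero]
      exact he
    rw [h2]
    positivity
  · obtain ⟨w, hw⟩ := Finset.nonempty_iff_ne_empty.2 he
    rw [Finset.mem_filter] at hw
    have h2 : (B : ℝ) ^ n * nm x ≤ (a : ℝ) ^ n * nm (act w x) := by
      exact_mod_cast act_same_sign_wd hE hw.1 x hs
    have h3 : (B : ℝ) ^ n * nm x ≤ (a : ℝ) ^ n * Y :=
      h2.trans (mul_le_mul_of_nonneg_left hw.2 (by positivity))
    have h4 : (B : ℝ) ^ n * (B : ℝ) ^ n ≤ (a : ℝ) ^ n * ((B : ℝ) ^ n * Y / nm x) := by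
      rw [← mul_div_assoc, le_div_iff₀ h1]
      calc (B : ℝ) ^ n * (B : ℝ) ^ n * nm x = (B : ℝ) ^ n * ((B : ℝ) ^ n * nm x) := by ring
        _ ≤ (B : ℝ) ^ n * ((a : ℝ) ^ n * Y) := mul_le_mul_of_nonneg_left h3 (by positivity)
        _ = (a : ℝ) ^ n * ((B : ℝ) ^ n * Y) := by ring
    have h0' : 0 ≤ (B : ℝ) ^ n * Y / nm x := by positivity
    have h5 : P_cnt S Y n x ≤ ((B : ℝ) ^ n) ^ σ := by
      refine le_trans ?_ (wd_card_le hE n)
      unfold P_cnt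
      exact_mod_cast Finset.card_filter_le _ _
    refine h5.trans ?_
    have h6 : ((B : ℝ) ^ n) ^ σ = ((B : ℝ) ^ n * (B : ℝ) ^ n) ^ (σ / 2) := by
      rw [← sq, ← Real.rpow_natCast ((B : ℝ) ^ n) 2, ← Real.rpow_mul (by positivity)]
      congr 1
      push_cast
      ring
    rw [h6]
    unfold P_R
    calc ((B : ℝ) ^ n * (B : ℝ) ^ n) ^ (σ / 2)
        ≤ ((a : ℝ) ^ n * ((B : ℝ) ^ n * Y / nm x)) ^ (σ / 2) :=
          Real.rpow_le_rpow (by positivity) h4 (P_s0 hE)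
      _ = ((a : ℝ) ^ n) ^ (σ / 2) * ((B : ℝ) ^ n * Y / nm x) ^ (σ / 2) :=
          Real.mul_rpow (by positivity) h0'
      _ ≤ (a : ℝ) ^ n * ((B : ℝ) ^ n * Y / nm x) ^ (σ / 2) :=
          mul_le_mul_of_nonneg_right (P_pow_le hE (one_le_pow₀ (P_a1 hE))) (by positivity)

/-- vectors outside the cone -/
private theorem P_not (hE : Ens a σ e S l B) {Y : ℝ} (hY : 0 ≤ Y)
    (n : ℕ) {x : ℤ × ℤ} (hx : x ≠ 0) (hn : ¬ neg x) :
    P_cnt S Y n x ≤ (a : ℝ) ^ n * (B : ℝ) ^ 2 * P_R σ B Y n x := by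
  have hB1 := P_B1 hE
  have hR := P_Rnn σ B hY n x
  have ha0 : (0 : ℝ) ≤ a := Nat.cast_nonneg a
  cases n with
  | zero =>
    have h1 := P_zero hE hY hx
    have h2 : (1 : ℝ) ≤ (B : ℝ) ^ 2 := one_le_pow₀ hB1
    rw [pow_zero, one_mul]
    nlinarith
  | succ n =>
    rw [P_rec hE]
    have hR1 := P_Rnn σ B hY (n + 1) x
    have h1 : ∀ b ∈ S, P_cnt S Y n (act b x) ≤ (a : ℝ) ^ (n + 1) * P_R σ B Y (n + 1) x := by
      intro b hb
      have hne : b ≠ [] := by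
        intro h
        have h2 := hE.len b hb
        have h3 := hE.lpos
        rw [h, List.length_nil] at h2
        omega
      have h2 := same_sign_of_not_neg x hn b hne fun a ha => (hE.dig b hb a ha).1
      have h3 := P_same hE hY n (act_ne_zero b x hx) h2
      have h4 := P_step hE hY n hx hb
      calc P_cnt S Y n (act b x) ≤ (a : ℝ) ^ n * P_R σ B Y n (act b x) := h3
        _ ≤ (a : ℝ) ^ n * (a * P_R σ B Y (n + 1) x) := mul_le_mul_of_nonneg_left h4 (by positivity)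
        _ = (a : ℝ) ^ (n + 1) * P_R σ B Y (n + 1) x := by ring
    refine (Finset.sum_le_sum h1).trans ?_
    rw [Finset.sum_const, nsmul_eq_mul]
    have h5 : 0 ≤ (a : ℝ) ^ (n + 1) * P_R σ B Y (n + 1) x := by positivity
    calc (S.card : ℝ) * ((a : ℝ) ^ (n + 1) * P_R σ B Y (n + 1) x)
        ≤ (B : ℝ) ^ 2 * ((a : ℝ) ^ (n + 1) * P_R σ B Y (n + 1) x) :=
          mul_le_mul_of_nonneg_right (P_card hE) h5
      _ = (a : ℝ) ^ (n + 1) * (B : ℝ) ^ 2 * P_R σ B Y (n + 1) x := by ring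

private theorem P_main (hE : Ens a σ e S l B) {Y : ℝ} (hY : 0 ≤ Y)
    (n : ℕ) : ∀ x : ℤ × ℤ, x ≠ 0 →
      P_cnt S Y n x ≤ (a : ℝ) ^ (2 * n) * (B : ℝ) ^ 4 * P_R σ B Y n x := by
  classical
  have hB1 := P_B1 hE
  have ha1 := P_a1 hE
  have ha4 := P_a4 hE
  have ha0 : (0 : ℝ) ≤ a := Nat.cast_nonneg a
  induction n with
  | zero =>
    intro x hx
    have h1 := P_zero hE hY hx
    have hR := P_Rnn σ B hY 0 x
    have h2 : (1 : ℝ) ≤ (B : ℝ) ^ 4 := one_le_pow₀ hB1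
    rw [mul_zero, pow_zero, one_mul]
    nlinarith
  | succ n ih =>
    intro x hx
    have hR := P_Rnn σ B hY (n + 1) x
    have hx1 : ∀ b ∈ S, P_cnt S Y n (act b x) ≤
        (a : ℝ) ^ (n + 1) * (B : ℝ) ^ 2 * P_R σ B Y (n + 1) x +
          (if neg (act b x) then (a : ℝ) ^ (2 * n + 1) * (B : ℝ) ^ 4 * P_R σ B Y (n + 1) x
            else 0) := by
      intro b hb
      have h4 := P_step hE hY n hx hb
      by_cases hn : neg (act b x)
      · rw [if_pos hn]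
        have h3 := ih (act b x) (act_ne_zero b x hx)
        have h5 : (a : ℝ) ^ (2 * n) * (B : ℝ) ^ 4 * P_R σ B Y n (act b x) ≤
            (a : ℝ) ^ (2 * n) * (B : ℝ) ^ 4 * (a * P_R σ B Y (n + 1) x) :=
          mul_le_mul_of_nonneg_left h4 (by positivity)
        have h5' : (a : ℝ) ^ (2 * n) * (B : ℝ) ^ 4 * (a * P_R σ B Y (n + 1) x) =
            (a : ℝ) ^ (2 * n + 1) * (B : ℝ) ^ 4 * P_R σ B Y (n + 1) x := by ring
        have h6 : 0 ≤ (a : ℝ) ^ (n + 1) * (B : ℝ) ^ 2 * P_R σ B Y (n + 1) x := by positivity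
        linarith
      · rw [if_neg hn, add_zero]
        have h3 := P_not hE hY n (act_ne_zero b x hx) hn
        calc P_cnt S Y n (act b x) ≤ (a : ℝ) ^ n * (B : ℝ) ^ 2 * P_R σ B Y n (act b x) := h3
          _ ≤ (a : ℝ) ^ n * (B : ℝ) ^ 2 * (a * P_R σ B Y (n + 1) x) :=
            mul_le_mul_of_nonneg_left h4 (by positivity)
          _ = (a : ℝ) ^ (n + 1) * (B : ℝ) ^ 2 * P_R σ B Y (n + 1) x := by ring
    rw [P_rec hE]
    refine (Finset.sum_le_sum hx1).trans ?_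
    rw [Finset.sum_add_distrib, Finset.sum_const, nsmul_eq_mul, ← Finset.sum_filter,
      Finset.sum_const, nsmul_eq_mul]
    have h7 : ((S.filter fun b => neg (act b x)).card : ℝ) ≤ 1 := by
      have h8 : (S.filter fun b => neg (act b x)).card ≤ 1 := by
        rw [Finset.card_le_one]
        intro b hb b' hb'
        rw [Finset.mem_filter] at hb hb'
        exact neg_unique x b b' (by rw [hE.len b hb.1, hE.len b' hb'.1])
          (fun a ha => (hE.dig b hb.1 a ha).1) (fun a ha => (hE.dig b' hb'.1 a ha).1)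
          hb.2 hb'.2
      exact_mod_cast h8
    have h9 : (S.card : ℝ) * ((a : ℝ) ^ (n + 1) * (B : ℝ) ^ 2 * P_R σ B Y (n + 1) x) ≤
        (B : ℝ) ^ 2 * ((a : ℝ) ^ (n + 1) * (B : ℝ) ^ 2 * P_R σ B Y (n + 1) x) :=
      mul_le_mul_of_nonneg_right (P_card hE) (by positivity)
    have h10 : ((S.filter fun b => neg (act b x)).card : ℝ) *
        ((a : ℝ) ^ (2 * n + 1) * (B : ℝ) ^ 4 * P_R σ B Y (n + 1) x) ≤
        1 * ((a : ℝ) ^ (2 * n + 1) * (B : ℝ) ^ 4 * P_R σ B Y (n + 1) x) :=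
      mul_le_mul_of_nonneg_right h7 (by positivity)
    have h11 : (a : ℝ) ^ (n + 1) ≤ (a : ℝ) ^ (2 * n + 1) :=
      pow_le_pow_right₀ ha1 (by omega)
    have h12 : 0 ≤ (B : ℝ) ^ 4 * P_R σ B Y (n + 1) x := by positivity
    have h13 : (a : ℝ) ^ (n + 1) * ((B : ℝ) ^ 4 * P_R σ B Y (n + 1) x) ≤
        (a : ℝ) ^ (2 * n + 1) * ((B : ℝ) ^ 4 * P_R σ B Y (n + 1) x) :=
      mul_le_mul_of_nonneg_right h11 h12
    have h14 : (0 : ℝ) ≤ (a : ℝ) ^ (2 * n + 1) * ((B : ℝ) ^ 4 * P_R σ B Y (n + 1) x) := by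
      positivity
    have h15 : (a : ℝ) ^ (2 * (n + 1)) * (B : ℝ) ^ 4 * P_R σ B Y (n + 1) x =
        a * ((a : ℝ) ^ (2 * n + 1) * ((B : ℝ) ^ 4 * P_R σ B Y (n + 1) x)) := by ring
    have h16 : (B : ℝ) ^ 2 * ((a : ℝ) ^ (n + 1) * (B : ℝ) ^ 2 * P_R σ B Y (n + 1) x) =
        (a : ℝ) ^ (n + 1) * ((B : ℝ) ^ 4 * P_R σ B Y (n + 1) x) := by ring
    have h17 : (4 : ℝ) * ((a : ℝ) ^ (2 * n + 1) * ((B : ℝ) ^ 4 * P_R σ B Y (n + 1) x)) ≤
        a * ((a : ℝ) ^ (2 * n + 1) * ((B : ℝ) ^ 4 * P_R σ B Y (n + 1) x)) :=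
      mul_le_mul_of_nonneg_right ha4 h14
    rw [h15]
    rw [h16] at h9
    linarith

end

open Classical in
/-- Row P (MEDIUM). The same as LibNZ69/P.lean (finished), with `4` replaced by `a`, `7/5` by `σ`,
`16^n` by `a^(2n)`. Induction on `n`, `f_n(x) ≤ a^(2n) B^4 (B^n Y / nm x)^(σ/2)`.
* `n = 0`: at most one word, and only if `nm x ≤ Y`.
* `x` not in `neg`, `n ≥ 1`: if there is a word then `B^(2n) ≤ a^n B^2 (B^n Y / nm x)`, and the count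
is at most `card (wd S n) ≤ (B^(2n))^(σ/2) ≤ a^n B^2 (B^n Y / nm x)^(σ/2)`.
* `x` in `neg`, `n ≥ 1`: one `b` with `act b x` in `neg`: contribution
`≤ a · a^(2(n-1)) B^4 (…)`; the other `b` (at most `B^σ ≤ B^2`) contribute each at most
`a^(n-1) B^2 (B^(n-1) Y / nm (act b x))^(σ/2) ≤ a^n B^2 (…)`.
Total `(a^(2n-1) + a^n) B^4 (…) ≤ a^(2n) B^4 (…)`. -/
theorem countP {a : ℕ} {σ : ℝ} {e : ℤ × ℤ} {S : Finset (List ℕ)} {l B : ℕ}
    (hE : Ens a σ e S l B) (n : ℕ) (x : ℤ × ℤ) (hx : x ≠ 0) (Y : ℝ) (hY : 0 ≤ Y) :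
    (((wd S n).filter (fun w => (nm (act w x) : ℝ) ≤ Y)).card : ℝ) ≤
      (a : ℝ) ^ (2 * n) * (B : ℝ) ^ 4 * ((B : ℝ) ^ n * Y / nm x) ^ (σ / 2) := by
  have h := P_main hE hY n x hx
  unfold P_cnt P_R at h
  exact h

end Pool.Agent.LibNW69
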