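import Pool.Agent.LibNW69.W

set_option autoImplicit false

namespace Pool.Agent.LibNW69

open Pool.Agent.LibNZ69

/-- Row S1 (SHORT). The same as LibNZ69/S1.lean (finished): `sep` gives
`nm (vec e w) nm (vec e w') ≤ a |…|`, and `B^n ≤ a^n nm (vec e w)` (`le_nm_vec`, `vec_pos`). -/
theorem sep_wd {a : ℕ} {σ : ℝ} {e : ℤ × ℤ} {S : Finset (List ℕ)} {l B : ℕ}
    (hE : Ens a σ e S l B) {m n : ℕ} {u u' w w' : List ℕ}
    (hu : u ∈ wd S m) (hu' : u' ∈ wd S m) (hw : w ∈ wd S n) (hw' : w' ∈ wd S n) (hne : u ≠ u') :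
    (B : ℤ) ^ (2 * n) ≤ a ^ (2 * n + 1) * |wdg (vec e (u ++ w)) (vec e (u' ++ w'))| := by
  obtain ⟨hg, -, hg2, hg3⟩ := vec_pos hE hw
  obtain ⟨hg', -, hg2', hg3'⟩ := vec_pos hE hw'
  have hl : u.length = u'.length := by rw [wd_len hE hu, wd_len hE hu']
  have hs := sep a u u' hl hne (wd_dig hE hu) (wd_dig hE hu') (vec e w) (vec e w') hg hg'
  have hn := le_nm_vec hE hw
  have hn' := le_nm_vec hE hw'
  rw [hg3] at hn
  rw [hg3'] at hn'
  rw [vec_append, vec_append]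
  have hB : (0 : ℤ) ≤ (B : ℤ) ^ n := by positivity
  have ha : (0 : ℤ) ≤ (a : ℤ) ^ n := by positivity
  have ha2 : (0 : ℤ) ≤ (a : ℤ) ^ (2 * n) := by positivity
  have hp := mul_le_mul hn hn' hB (mul_nonneg ha hg2.le)
  have hq := mul_le_mul_of_nonneg_left hs ha2
  calc (B : ℤ) ^ (2 * n) = (B : ℤ) ^ n * (B : ℤ) ^ n := by rw [two_mul, pow_add]
    _ ≤ (a : ℤ) ^ n * (vec e w).2 * ((a : ℤ) ^ n * (vec e w').2) := hp
    _ = (a : ℤ) ^ (2 * n) * ((vec e w).2 * (vec e w').2) := by rw [two_mul, pow_add]; ring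
    _ ≤ (a : ℤ) ^ (2 * n) * (a * |wdg (act u (vec e w)) (act u' (vec e w'))|) := hq
    _ = a ^ (2 * n + 1) * |wdg (act u (vec e w)) (act u' (vec e w'))| := by
      rw [pow_succ]; ring

end Pool.Agent.LibNW69
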