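import Pool.Agent.LibNW69.SEP
import Pool.Agent.LibNZ69.A2
import Pool.Agent.LibNW69.N
import Pool.Agent.LibNZ69.W

set_option autoImplicit false

namespace Pool.Agent.LibNW69

open Pool.Agent.LibNZ69

/-! Row W. Adapted from LibNZ69.W. -/
private theorem W_mem_zero {S : Finset (List ℕ)} {w : List ℕ} : w ∈ wd S 0 ↔ w = [] := by
  simp [wd]

private theorem W_mem_succ {S : Finset (List ℕ)} {n : ℕ} {w : List ℕ} :
    w ∈ wd S (n + 1) ↔ ∃ b ∈ S, ∃ u ∈ wd S n, b ++ u = w := by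
  simp only [wd, Finset.mem_image₂]

theorem wd_len {a : ℕ} {σ : ℝ} {e : ℤ × ℤ} {S : Finset (List ℕ)} {l B : ℕ}
    (hE : Ens a σ e S l B) {n : ℕ} {w : List ℕ}
    (hw : w ∈ wd S n) : w.length = n * l := by
  induction n generalizing w with
  | zero =>
    rw [W_mem_zero] at hw
    subst hw
    simp
  | succ n ih =>
    rw [W_mem_succ] at hw
    obtain ⟨b, hb, u, hu, rfl⟩ := hw
    rw [List.length_append, hE.len b hb, ih hu]
    ring

theorem wd_dig {a : ℕ} {σ : ℝ} {e : ℤ × ℤ} {S : Finset (List ℕ)} {l B : ℕ}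
    (hE : Ens a σ e S l B) {n : ℕ} {w : List ℕ}
    (hw : w ∈ wd S n) : ∀ x ∈ w, 1 ≤ x ∧ x < a := by
  induction n generalizing w with
  | zero =>
    rw [W_mem_zero] at hw
    subst hw
    simp
  | succ n ih =>
    rw [W_mem_succ] at hw
    obtain ⟨b, hb, u, hu, rfl⟩ := hw
    intro x hx
    rw [List.mem_append] at hx
    rcases hx with hx | hx
    · exact hE.dig b hb x hx
    · exact ih hu x hx

private theorem W_split_ex {S : Finset (List ℕ)} {m n : ℕ} {w : List ℕ}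
    (hw : w ∈ wd S (m + n)) : ∃ u ∈ wd S m, ∃ x ∈ wd S n, u ++ x = w := by
  induction m generalizing w with
  | zero =>
    refine ⟨[], W_mem_zero.mpr rfl, w, ?_, by simp⟩
    simpa using hw
  | succ m ih =>
    have h1 : m + 1 + n = (m + n) + 1 := by ring
    rw [h1, W_mem_succ] at hw
    obtain ⟨b, hb, y, hy, rfl⟩ := hw
    obtain ⟨u, hu, x, hx, rfl⟩ := ih hy
    exact ⟨b ++ u, W_mem_succ.mpr ⟨b, hb, u, hu, rfl⟩, x, hx, by simp⟩

theorem wd_split {a : ℕ} {σ : ℝ} {e : ℤ × ℤ} {S : Finset (List ℕ)} {l B : ℕ}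
    (hE : Ens a σ e S l B) {m n : ℕ} {w : List ℕ}
    (hw : w ∈ wd S (m + n)) :
    w.take (m * l) ∈ wd S m ∧ w.drop (m * l) ∈ wd S n ∧ w.take (m * l) ++ w.drop (m * l) = w := by
  obtain ⟨u, hu, x, hx, rfl⟩ := W_split_ex hw
  have hl : u.length = m * l := wd_len hE hu
  rw [← hl]
  simp only [List.take_left, List.drop_left]
  exact ⟨hu, hx, trivial⟩

private theorem W_image {S : Finset (List ℕ)} (m n : ℕ) :
    wd S (m + n) = Finset.image (fun p : List ℕ × List ℕ => p.1 ++ p.2) (wd S m ×ˢ wd S n) := by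
  ext w
  simp only [Finset.mem_image, Finset.mem_product, Prod.exists]
  constructor
  · intro hw
    obtain ⟨u, hu, x, hx, h⟩ := W_split_ex hw
    exact ⟨u, x, ⟨hu, hx⟩, h⟩
  · rintro ⟨u, x, ⟨hu, hx⟩, rfl⟩
    exact wd_append hu hx

private theorem W_inj {a : ℕ} {σ : ℝ} {e : ℤ × ℤ} {S : Finset (List ℕ)} {l B : ℕ}
    (hE : Ens a σ e S l B) (m n : ℕ) :
    Set.InjOn (fun p : List ℕ × List ℕ => p.1 ++ p.2)
      ((wd S m ×ˢ wd S n : Finset (List ℕ × List ℕ)) : Set (List ℕ × List ℕ)) := by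
  rintro ⟨u, x⟩ h ⟨u', x'⟩ h' he
  simp only [Finset.coe_product, Set.mem_prod, Finset.mem_coe] at h h'
  have h1 : u.length = u'.length := by rw [wd_len hE h.1, wd_len hE h'.1]
  have h2 : u ++ x = u' ++ x' := he
  obtain ⟨h3, h4⟩ := List.append_inj h2 h1
  rw [h3, h4]

/-- sums over words split -/
theorem wd_sum {a : ℕ} {σ : ℝ} {e : ℤ × ℤ} {S : Finset (List ℕ)} {l B : ℕ}
    (hE : Ens a σ e S l B) {R : Type*} [AddCommMonoid R]
    (m n : ℕ) (f : List ℕ → R) :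
    ∑ w ∈ wd S (m + n), f w = ∑ u ∈ wd S m, ∑ w ∈ wd S n, f (u ++ w) := by
  rw [W_image m n, Finset.sum_image (W_inj hE m n), Finset.sum_product]

theorem wd_card {a : ℕ} {σ : ℝ} {e : ℤ × ℤ} {S : Finset (List ℕ)} {l B : ℕ}
    (hE : Ens a σ e S l B) (n : ℕ) :
    (wd S n).card = S.card ^ n := by
  induction n with
  | zero => simp [wd]
  | succ n ih =>
    have h1 : n + 1 = 1 + n := by ring
    rw [h1, W_image 1 n, Finset.card_image_of_injOn (W_inj hE 1 n), Finset.card_product, wd_one,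
      ih]
    ring

theorem wd_card_le {a : ℕ} {σ : ℝ} {e : ℤ × ℤ} {S : Finset (List ℕ)} {l B : ℕ}
    (hE : Ens a σ e S l B) (n : ℕ) :
    ((wd S n).card : ℝ) ≤ ((B : ℝ) ^ n) ^ σ := by
  rw [wd_card hE n]
  have hB : (0 : ℝ) ≤ (B : ℝ) := Nat.cast_nonneg B
  have h1 : ((B : ℝ) ^ n) ^ σ = ((B : ℝ) ^ σ) ^ n := by
    rw [← Real.rpow_natCast, ← Real.rpow_mul hB, ← Real.rpow_natCast, ← Real.rpow_mul hB, mul_comm]
  rw [h1]
  push_cast
  exact pow_le_pow_left₀ (Nat.cast_nonneg _) hE.cardle n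

theorem nm_act_wd_le {a : ℕ} {σ : ℝ} {e : ℤ × ℤ} {S : Finset (List ℕ)} {l B : ℕ}
    (hE : Ens a σ e S l B) {n : ℕ} {w : List ℕ}
    (hw : w ∈ wd S n) (v : ℤ × ℤ) : nm (act w v) ≤ (a * B) ^ n * nm v := by
  induction n generalizing w with
  | zero =>
    rw [W_mem_zero] at hw
    subst hw
    simp [act]
  | succ n ih =>
    rw [W_mem_succ] at hw
    obtain ⟨b, hb, u, hu, rfl⟩ := hw
    rw [act_append]
    have h1 := nm_act_le hE hb (act u v)
    have h2 := ih hu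
    have h3 : (0 : ℤ) ≤ (a : ℤ) * (B : ℤ) := by positivity
    calc nm (act b (act u v)) ≤ a * B * nm (act u v) := h1
      _ ≤ a * B * ((a * B) ^ n * nm v) := mul_le_mul_of_nonneg_left h2 h3
      _ = (a * B) ^ (n + 1) * nm v := by ring

theorem nm_le_act_wd {a : ℕ} {σ : ℝ} {e : ℤ × ℤ} {S : Finset (List ℕ)} {l B : ℕ}
    (hE : Ens a σ e S l B) {n : ℕ} {w : List ℕ}
    (hw : w ∈ wd S n) (v : ℤ × ℤ) : nm v ≤ (a * B) ^ n * nm (act w v) := by
  induction n generalizing w with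
  | zero =>
    rw [W_mem_zero] at hw
    subst hw
    simp [act]
  | succ n ih =>
    rw [W_mem_succ] at hw
    obtain ⟨b, hb, u, hu, rfl⟩ := hw
    rw [act_append]
    have h1 := nm_le_act hE hb (act u v)
    have h2 := ih hu
    have h3 : (0 : ℤ) ≤ ((a : ℤ) * (B : ℤ)) ^ n := by positivity
    calc nm v ≤ (a * B) ^ n * nm (act u v) := h2
      _ ≤ (a * B) ^ n * (a * B * nm (act b (act u v))) := mul_le_mul_of_nonneg_left h1 h3
      _ = (a * B) ^ (n + 1) * nm (act b (act u v)) := by ring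

theorem act_pos_wd {a : ℕ} {σ : ℝ} {e : ℤ × ℤ} {S : Finset (List ℕ)} {l B : ℕ}
    (hE : Ens a σ e S l B) {n : ℕ} {w : List ℕ}
    (hw : w ∈ wd S n) (v : ℤ × ℤ) (h1 : 0 ≤ v.1) (h2 : 0 ≤ v.2) :
    0 ≤ (act w v).1 ∧ 0 ≤ (act w v).2 ∧ B ^ n * nm v ≤ a ^ n * nm (act w v) := by
  induction n generalizing w with
  | zero =>
    rw [W_mem_zero] at hw
    subst hw
    refine ⟨h1, h2, ?_⟩
    simp [act]
  | succ n ih =>
    rw [W_mem_succ] at hw
    obtain ⟨b, hb, u, hu, rfl⟩ := hw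
    rw [act_append]
    obtain ⟨h3, h4, h5⟩ := ih hu
    obtain ⟨h6, h7, h8⟩ := act_pos hE hb (act u v) h3 h4
    refine ⟨h6, h7, ?_⟩
    have h9 : (0 : ℤ) ≤ (B : ℤ) := by positivity
    have h10 : (0 : ℤ) ≤ (a : ℤ) ^ n := by positivity
    calc (B : ℤ) ^ (n + 1) * nm v = B * (B ^ n * nm v) := by ring
      _ ≤ B * (a ^ n * nm (act u v)) := mul_le_mul_of_nonneg_left h5 h9
      _ = a ^ n * (B * nm (act u v)) := by ring
      _ ≤ a ^ n * (a * nm (act b (act u v))) := mul_le_mul_of_nonneg_left h8 h10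
      _ = a ^ (n + 1) * nm (act b (act u v)) := by ring

/-- the same for vectors with two coordinates of the same weak sign -/
theorem act_same_sign_wd {a : ℕ} {σ : ℝ} {e : ℤ × ℤ} {S : Finset (List ℕ)} {l B : ℕ}
    (hE : Ens a σ e S l B) {n : ℕ} {w : List ℕ}
    (hw : w ∈ wd S n) (v : ℤ × ℤ) (h : (0 ≤ v.1 ∧ 0 ≤ v.2) ∨ (v.1 ≤ 0 ∧ v.2 ≤ 0)) :
    B ^ n * nm v ≤ a ^ n * nm (act w v) := by
  rcases h with h | h
  · exact (act_pos_wd hE hw v h.1 h.2).2.2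
  · have h1 : 0 ≤ (-v).1 := by
      rw [Prod.fst_neg]
      linarith [h.1]
    have h2 : 0 ≤ (-v).2 := by
      rw [Prod.snd_neg]
      linarith [h.2]
    have h3 := (act_pos_wd hE hw (-v) h1 h2).2.2
    rwa [act_neg, nm_neg, nm_neg] at h3

private theorem W_nme {a : ℕ} {σ : ℝ} {e : ℤ × ℤ} {S : Finset (List ℕ)} {l B : ℕ}
    (hE : Ens a σ e S l B) : nm e = e.2 ∧ 0 < e.1 ∧ 0 < e.2 := by
  have h := nm_good a e hE.good
  exact ⟨h.2, h.1, hE.good.1⟩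

theorem nm_vec_le {a : ℕ} {σ : ℝ} {e : ℤ × ℤ} {S : Finset (List ℕ)} {l B : ℕ}
    (hE : Ens a σ e S l B) {n : ℕ} {w : List ℕ} (hw : w ∈ wd S n) :
    nm (vec e w) ≤ a ^ 2 * (a * B) ^ n := by
  have h := nm_act_wd_le hE hw e
  rw [(W_nme hE).1] at h
  have h2 : (0 : ℤ) ≤ ((a : ℤ) * B) ^ n := by positivity
  have h3 := mul_le_mul_of_nonneg_left hE.ele h2
  unfold vec
  calc nm (act w e) ≤ (a * B) ^ n * e.2 := h
    _ ≤ (a * B) ^ n * (a : ℤ) ^ 2 := h3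
    _ = a ^ 2 * (a * B) ^ n := by ring

theorem le_nm_vec {a : ℕ} {σ : ℝ} {e : ℤ × ℤ} {S : Finset (List ℕ)} {l B : ℕ}
    (hE : Ens a σ e S l B) {n : ℕ} {w : List ℕ} (hw : w ∈ wd S n) :
    (B : ℤ) ^ n ≤ a ^ n * nm (vec e w) := by
  obtain ⟨h1, h2, h3⟩ := W_nme hE
  have h := (act_pos_wd hE hw e h2.le h3.le).2.2
  rw [h1] at h
  have h4 : (0 : ℤ) ≤ (B : ℤ) ^ n := by positivity
  unfold vec
  calc (B : ℤ) ^ n = B ^ n * 1 := by ring
    _ ≤ B ^ n * e.2 := mul_le_mul_of_nonneg_left h3 h4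
    _ ≤ a ^ n * nm (act w e) := h

theorem vec_pos {a : ℕ} {σ : ℝ} {e : ℤ × ℤ} {S : Finset (List ℕ)} {l B : ℕ}
    (hE : Ens a σ e S l B) {n : ℕ} {w : List ℕ} (hw : w ∈ wd S n) :
    Good a (vec e w) ∧ 0 < (vec e w).1 ∧ 0 < (vec e w).2 ∧ nm (vec e w) = (vec e w).2 := by
  have hg : Good a (vec e w) := (good_act a w (wd_dig hE hw) e hE.good).1
  have h := nm_good a _ hg
  exact ⟨hg, h.1, hg.1, h.2⟩

/-- the row vectors lie in the box `[0, (4B)^n]²` -/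
theorem row_box {a : ℕ} {σ : ℝ} {e : ℤ × ℤ} {S : Finset (List ℕ)} {l B : ℕ}
    (hE : Ens a σ e S l B) {n : ℕ} {w : List ℕ}
    (hw : w ∈ wd S n) :
    0 ≤ (row w (0, 1)).1 ∧ (row w (0, 1)).1 ≤ (a * B) ^ n ∧
      0 ≤ (row w (0, 1)).2 ∧ (row w (0, 1)).2 ≤ (a * B) ^ n := by
  have e1 : (row w (0, 1)).1 = (act w (1, 0)).2 := by
    have h := dt_row w (0, 1) (1, 0)
    simpa [dt] using h
  have e2 : (row w (0, 1)).2 = (act w (0, 1)).2 := by
    have h := dt_row w (0, 1) (0, 1)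
    simpa [dt] using h
  have n1 : nm (1, 0) = 1 := by simp [nm]
  have n2 : nm (0, 1) = 1 := by simp [nm]
  have a1 := act_pos_wd hE hw (1, 0) (by norm_num) (by norm_num)
  have a2 := act_pos_wd hE hw (0, 1) (by norm_num) (by norm_num)
  have b1 := nm_act_wd_le hE hw (1, 0)
  have b2 := nm_act_wd_le hE hw (0, 1)
  rw [n1, mul_one] at b1
  rw [n2, mul_one] at b2
  have c1 := (le_abs_self _).trans (abs_snd_le (act w (1, 0)))
  have c2 := (le_abs_self _).trans (abs_snd_le (act w (0, 1)))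
  rw [e1, e2]
  exact ⟨a1.2.1, c1.trans b1, a2.2.1, c2.trans b2⟩

end Pool.Agent.LibNW69
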