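import Pool.Agent.LibNW69.K2
import Pool.Agent.LibNW69.E3

set_option autoImplicit false

namespace Pool.Agent.LibNW69

open Pool.Agent.LibNZ69

/-- the letters of a word of blocks -/
private theorem Z_mem {S : Finset (List ℕ)} {A : Finset ℕ} (hS : ∀ b ∈ S, ∀ x ∈ b, x ∈ A) :
    ∀ (n : ℕ) (w : List ℕ), w ∈ wd S n → ∀ x ∈ w, x ∈ A := by
  intro n
  induction n with
  | zero =>
    intro w hw x hx
    rw [wd, Finset.mem_singleton] at hw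
    rw [hw] at hx
    exact absurd hx List.not_mem_nil
  | succ n ih =>
    intro w hw x hx
    rw [wd, Finset.mem_image₂] at hw
    obtain ⟨b, hb, v, hv, rfl⟩ := hw
    rcases List.mem_append.1 hx with h | h
    · exact hS b hb x h
    · exact ih v hv x h

/-- the values are counted by the set of the theorem -/
private theorem Z_card {a : ℕ} {σ : ℝ} {e : ℤ × ℤ} {S : Finset (List ℕ)} {l B : ℕ}
    (hE : Ens a σ e S l B) {A : Finset ℕ} (hS : ∀ b ∈ S, ∀ x ∈ b, x ∈ A) {n N : ℕ}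
    (h : a ^ 2 * (a * B) ^ n ≤ N) :
    ((wd S n).image (fun w => (vec e w).2)).card ≤
      Set.ncard {d : ℕ | d ≤ N ∧ ∃ w : List ℕ, (∀ x ∈ w, x ∈ A) ∧
        (vec e w).2 = (d : ℤ)} := by
  classical
  rw [← Set.ncard_coe_finset]
  refine Set.ncard_le_ncard_of_injOn Int.toNat ?_ ?_ ((Set.finite_Iic N).subset fun d hd => hd.1)
  · intro z hz
    obtain ⟨w, hw, rfl⟩ := Finset.mem_image.1 (Finset.mem_coe.1 hz)
    have h1 := (vec_pos hE hw).2.2.1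
    have h2 := (abs_snd_le (vec e w)).trans (nm_vec_le hE hw)
    have h3 : (vec e w).2 ≤ ((a ^ 2 * (a * B) ^ n : ℕ) : ℤ) := by
      push_cast
      exact (le_abs_self _).trans h2
    have h4 : (((vec e w).2.toNat : ℕ) : ℤ) = (vec e w).2 := Int.toNat_of_nonneg h1.le
    refine ⟨?_, w, Z_mem hS n w hw, h4.symm⟩
    have h5 : ((a ^ 2 * (a * B) ^ n : ℕ) : ℤ) ≤ (N : ℤ) := by exact_mod_cast h
    omega
  · intro z hz z' hz' hzz
    obtain ⟨w, hw, rfl⟩ := Finset.mem_image.1 (Finset.mem_coe.1 hz)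
    obtain ⟨w', hw', rfl⟩ := Finset.mem_image.1 (Finset.mem_coe.1 hz')
    have h1 := (vec_pos hE hw).2.2.1
    have h2 := (vec_pos hE hw').2.2.1
    omega

/-- the real inequality -/
private theorem Z_real {a B e η X α c : ℝ} {n N : ℕ} (ha1 : 1 ≤ a) (he : 0 < e)
    (he2 : e ≤ 1 / 2) (hα : 1 / 2 ≤ α) (hα1 : α ≤ 1) (hc0 : 0 < c)
    (hη : η = e / 100) (hB : a ^ 95 ≤ B) (hcB : c ≤ B) (hBη : a ^ 93 ≤ B ^ η)
    (hn : 1 ≤ n * η) (hN : (N : ℝ) ≤ a ^ 2 * (a * B) ^ (n + 1))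
    (hX : (B ^ n) ^ α ≤ (B ^ η) ^ (2 * n) * a ^ (92 * (n + 1)) * B ^ 26 * c * X) :
    (N : ℝ) ^ (α - e) ≤ X := by
  have ha0 : 0 < a := by linarith
  have hB1 : 1 ≤ B := le_trans (one_le_pow₀ ha1) hB
  have hB0 : 0 < B := by linarith
  have hη0 : 0 < η := by rw [hη]; positivity
  have hBn : 0 < B ^ n := by positivity
  have hα0 : 0 ≤ α - e := by linarith
  have hαe : α - e ≤ 1 := by linarith
  -- upper bound for the left side
  have h1 : (N : ℝ) ^ (α - e) ≤ a ^ 3 * B * a ^ n * (B ^ n) ^ (α - e) := by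
    have e1 : a ^ 2 * (a * B) ^ (n + 1) = (a ^ 3 * B * a ^ n) * B ^ n := by
      rw [mul_pow, pow_succ, pow_succ]; ring
    have e2 : 1 ≤ a ^ 3 * B * a ^ n := by
      have h2 : (1 : ℝ) ≤ a ^ n := one_le_pow₀ ha1
      have h3 : (1 : ℝ) ≤ a ^ 3 := one_le_pow₀ ha1
      have h4 : 1 ≤ a ^ 3 * B := by nlinarith
      nlinarith
    calc (N : ℝ) ^ (α - e) ≤ ((a ^ 3 * B * a ^ n) * B ^ n) ^ (α - e) :=
          Real.rpow_le_rpow (Nat.cast_nonneg _) (hN.trans e1.le) hα0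
      _ = (a ^ 3 * B * a ^ n) ^ (α - e) * (B ^ n) ^ (α - e) :=
          Real.mul_rpow (by positivity) hBn.le
      _ ≤ (a ^ 3 * B * a ^ n) * (B ^ n) ^ (α - e) := by
          refine mul_le_mul_of_nonneg_right ?_ (by positivity)
          calc (a ^ 3 * B * a ^ n) ^ (α - e) ≤ (a ^ 3 * B * a ^ n) ^ (1 : ℝ) :=
                Real.rpow_le_rpow_of_exponent_le e2 hαe
            _ = _ := Real.rpow_one _
  -- the constants
  have h2 : (a ^ 3 * B * a ^ n) * ((B ^ η) ^ (2 * n) * a ^ (92 * (n + 1)) * B ^ 26 * c) ≤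
      (B ^ n) ^ e := by
    have e3 : (B ^ n) ^ e = ((B ^ η) ^ n) ^ 100 := by
      rw [← Real.rpow_natCast B n, ← Real.rpow_mul hB0.le, ← Real.rpow_natCast (B ^ η) n,
        ← Real.rpow_mul hB0.le, ← Real.rpow_natCast _ 100, ← Real.rpow_mul hB0.le, hη]
      congr 1
      push_cast
      ring
    have e4 : (a ^ 3 * B * a ^ n) * ((B ^ η) ^ (2 * n) * a ^ (92 * (n + 1)) * B ^ 26 * c) =
        (a ^ 95 * B ^ 27 * c) * ((a ^ 93) ^ n * ((B ^ η) ^ n) ^ 2) := by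
      rw [← pow_mul a 93 n, ← pow_mul (B ^ η) n 2, mul_comm n 2]
      have e6 : a ^ (92 * (n + 1)) = a ^ (92 * n) * a ^ 92 := by rw [← pow_add]; ring_nf
      have e7 : a ^ (93 * n) = a ^ (92 * n) * a ^ n := by rw [← pow_add]; ring_nf
      rw [e6, e7]
      ring
    have hU : B ≤ (B ^ η) ^ n := by
      rw [← Real.rpow_natCast (B ^ η) n, ← Real.rpow_mul hB0.le]
      calc B = B ^ (1 : ℝ) := (Real.rpow_one _).symm
        _ ≤ _ := Real.rpow_le_rpow_of_exponent_le hB1 (by rw [mul_comm]; exact hn)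
    have hU79 : (a ^ 93) ^ n ≤ (B ^ η) ^ n := pow_le_pow_left₀ (by positivity) hBη n
    rw [e3, e4]
    obtain ⟨U, hUdef⟩ : ∃ U, U = (B ^ η) ^ n := ⟨_, rfl⟩
    rw [← hUdef] at hU hU79 ⊢
    have hU0 : 0 < U := lt_of_lt_of_le hB0 hU
    have hU1 : 1 ≤ U := hB1.trans hU
    calc (a ^ 95 * B ^ 27 * c) * ((a ^ 93) ^ n * U ^ 2) ≤ (B * B ^ 27 * B) * (U * U ^ 2) := by
          gcongr
      _ = B ^ 29 * U ^ 3 := by ring
      _ ≤ U ^ 29 * U ^ 3 := by gcongr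
      _ = U ^ 32 := by ring
      _ ≤ U ^ 100 := pow_le_pow_right₀ hU1 (by norm_num)
  have h3 : (B ^ n) ^ (α - e) * (B ^ n) ^ e = (B ^ n) ^ α := by
    rw [← Real.rpow_add hBn]; congr 1; ring
  obtain ⟨C, hC⟩ : ∃ C, C = (B ^ η) ^ (2 * n) * a ^ (92 * (n + 1)) * B ^ 26 * c := ⟨_, rfl⟩
  have hC0 : 0 < C := by rw [hC]; positivity
  rw [← hC] at hX h2
  refine le_of_mul_le_mul_left ?_ hC0
  calc C * (N : ℝ) ^ (α - e) ≤ C * (a ^ 3 * B * a ^ n * (B ^ n) ^ (α - e)) :=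
        mul_le_mul_of_nonneg_left h1 hC0.le
    _ = (B ^ n) ^ (α - e) * (a ^ 3 * B * a ^ n * C) := by ring
    _ ≤ (B ^ n) ^ (α - e) * (B ^ n) ^ e := mul_le_mul_of_nonneg_left h2 (by positivity)
    _ = (B ^ n) ^ α := h3
    _ ≤ C * X := hX

/-- Row Z (MEDIUM). The same as LibNZ69/Z.lean (finished). Given `ε`, take an ensemble with
`ε / 100` and `B` large; `lam = B^(ε/100)`. For large `N` take `n` with
`a^2 (aB)^n ≤ N < a^2 (aB)^(n+1)`; all the values `(vec e w).2`, `w ∈ wd S n`, are at most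
`a^2 (aB)^n ≤ N` (`nm_vec_le`). The constant `σ / (σ - 1)` is fixed. -/
theorem countG (a : ℕ) (σ : ℝ) (e : ℤ × ℤ) (A : Finset ℕ) (c : ℝ) (ha : 4 ≤ a) (h1 : 1 < σ)
    (h2 : σ ≤ 3 / 2) (hg : Good a e) (hcop : IsCoprime e.1 e.2) (hel : e.2 ≤ (a : ℤ) ^ 2)
    (hA : ∀ x ∈ A, 1 ≤ x ∧ x < a) (hc0 : 0 < c)
    (hc : ∀ l : ℕ, c ≤ ∑ w ∈ wd (letters A) l, (((act w (0, 1)).2 : ℤ) : ℝ) ^ (-σ))
    (ε : ℝ) (hε : 0 < ε) : ∃ N₀ : ℕ, ∀ N : ℕ, N₀ ≤ N →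
    (N : ℝ) ^ (σ - 1 / 2 - ε) ≤
      (Set.ncard {d : ℕ | d ≤ N ∧ ∃ w : List ℕ, (∀ x ∈ w, x ∈ A) ∧
        (vec e w).2 = (d : ℤ)} : ℝ) := by
  obtain ⟨e', he, he2, heε⟩ : ∃ e' : ℝ, 0 < e' ∧ e' ≤ 1 / 2 ∧ e' ≤ ε :=
    ⟨min ε (1 / 2), lt_min hε (by norm_num), min_le_right _ _, min_le_left _ _⟩
  obtain ⟨η, hη⟩ : ∃ η, η = e' / 100 := ⟨_, rfl⟩
  have hη0 : 0 < η := by rw [hη]; positivity
  have ha1 : (1 : ℝ) ≤ a := by
    have : (4 : ℝ) ≤ a := by exact_mod_cast ha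
    linarith
  have hσ : 0 < σ / (σ - 1) := div_pos (by linarith) (by linarith)
  obtain ⟨B₀, hB₀, hB₀c, hB₀η⟩ : ∃ B₀ : ℕ, (a : ℝ) ^ 95 ≤ B₀ ∧ σ / (σ - 1) ≤ B₀ ∧
      (a : ℝ) ^ 93 ≤ (B₀ : ℝ) ^ η := by
    have h3 : Filter.Tendsto (fun x : ℕ => ((x : ℝ)) ^ η) Filter.atTop Filter.atTop :=
      (tendsto_rpow_atTop hη0).comp tendsto_natCast_atTop_atTop
    have h4 := (h3.eventually_ge_atTop ((a : ℝ) ^ 93)).and
      (((tendsto_natCast_atTop_atTop (R := ℝ)).eventually_ge_atTop ((a : ℝ) ^ 95)).and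
        ((tendsto_natCast_atTop_atTop (R := ℝ)).eventually_ge_atTop (σ / (σ - 1))))
    obtain ⟨B₀, h5, h6, h7⟩ := h4.exists
    exact ⟨B₀, h6, h7, h5⟩
  obtain ⟨S, l, B, hE, hBB, hS, hSA⟩ :=
    exists_ens a σ e A c ha h1 h2 hg hcop hel hA hc0 hc η hη0 B₀
  have hBB' : (B₀ : ℝ) ≤ B := by exact_mod_cast hBB
  have hB95 : (a : ℝ) ^ 95 ≤ B := hB₀.trans hBB'
  have hBc : σ / (σ - 1) ≤ (B : ℝ) := hB₀c.trans hBB'
  have hB93 : (a : ℝ) ^ 93 ≤ (B : ℝ) ^ η :=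
    hB₀η.trans (Real.rpow_le_rpow (Nat.cast_nonneg _) hBB' hη0.le)
  have hB0 : (0 : ℝ) < B := hσ.trans_le hBc
  have hlam : 1 ≤ (B : ℝ) ^ η := (one_le_pow₀ ha1).trans hB93
  have hcS : (B : ℝ) ^ σ ≤ (B : ℝ) ^ η * S.card := by
    calc (B : ℝ) ^ σ = (B : ℝ) ^ η * (B : ℝ) ^ (σ - η) := by
          rw [← Real.rpow_add hB0]; congr 1; ring
      _ ≤ _ := mul_le_mul_of_nonneg_left hS (by positivity)
  obtain ⟨n₀, hn₀⟩ : ∃ n₀ : ℕ, 40 ≤ n₀ ∧ 1 ≤ n₀ * η := by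
    obtain ⟨m, hm⟩ := exists_nat_ge (1 / η)
    refine ⟨max 40 m, le_max_left _ _, ?_⟩
    have h3 : (m : ℝ) ≤ ((max 40 m : ℕ) : ℝ) := by exact_mod_cast le_max_right 40 m
    have h4 : 1 / η ≤ ((max 40 m : ℕ) : ℝ) := hm.trans h3
    rwa [div_le_iff₀ hη0] at h4
  have hB8 : a ^ 8 ≤ B := hE.big
  have hB1 : 1 ≤ B := (Nat.one_le_pow _ _ (by omega)).trans hB8
  have ha2 : 0 < a ^ 2 := by positivity
  refine ⟨a ^ 2 * (a * B) ^ n₀, fun N hN => ?_⟩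
  obtain ⟨n, hn⟩ : ∃ n, n = Nat.log (a * B) (N / a ^ 2) := ⟨_, rfl⟩
  have hb : 1 < a * B := by nlinarith
  have hN1 : (a * B) ^ n₀ ≤ N / a ^ 2 := by
    rw [Nat.le_div_iff_mul_le ha2, mul_comm]
    exact hN
  have hpos : 0 < (a * B) ^ n₀ := by positivity
  have hnn : n₀ ≤ n := by
    rw [hn]
    exact Nat.le_log_of_pow_le hb hN1
  have hlo : (a * B) ^ n ≤ N / a ^ 2 := by
    rw [hn]
    exact Nat.pow_log_le_self _ (by omega)
  have hhi : N / a ^ 2 < (a * B) ^ (n + 1) := by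
    rw [hn]
    exact Nat.lt_pow_succ_log_self hb _
  have hlo' : a ^ 2 * (a * B) ^ n ≤ N := by
    rw [Nat.le_div_iff_mul_le ha2, mul_comm] at hlo
    exact hlo
  have hhi' : N ≤ a ^ 2 * (a * B) ^ (n + 1) := by
    rw [Nat.div_lt_iff_lt_mul ha2, mul_comm] at hhi
    exact hhi.le
  have hhiR : (N : ℝ) ≤ (a : ℝ) ^ 2 * ((a : ℝ) * (B : ℝ)) ^ (n + 1) := by exact_mod_cast hhi'
  have hnη : 1 ≤ n * η := by
    refine hn₀.2.trans (mul_le_mul_of_nonneg_right ?_ hη0.le)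
    exact_mod_cast hnn
  have hmv := manyValues hE ((B : ℝ) ^ η) hlam hcS n (hn₀.1.trans hnn)
  have hr := Z_real (α := σ - 1 / 2) ha1 he he2 (by linarith) (by linarith) hσ hη hB95 hBc hB93
    hnη hhiR hmv
  have hN2 : (1 : ℝ) ≤ N := by
    have h3 : 0 < a ^ 2 * (a * B) ^ n₀ := by positivity
    have : 1 ≤ N := by omega
    exact_mod_cast this
  calc (N : ℝ) ^ (σ - 1 / 2 - ε) ≤ (N : ℝ) ^ (σ - 1 / 2 - e') :=
        Real.rpow_le_rpow_of_exponent_le hN2 (by linarith)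
    _ ≤ _ := hr
    _ ≤ _ := by exact_mod_cast Z_card hE hSA hlo'

end Pool.Agent.LibNW69
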